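import Pool.Graph.R_pool_sql_team_seeded_1acbe0a2.Y24.Near
import Pool.Graph.R_seed8.H370R2.PC1
import Pool.Graph.R_seed8.H370R2.DirGood

/-! Exponential moments of the distances of the zeros of zeta from the critical line. -/

set_option autoImplicit false

open Complex Filter Topology Set
open scoped BigOperators

namespace Pool.Agent.H493.BS

open H370 Pool.Agent.Y24 Pool.Agent.Y24.Near

lemma layer (κ x : ℝ) (hκ : 0 ≤ κ) (hx : 0 ≤ x) (K : ℕ) (hK : x < K) :
    Real.exp (κ * x) ≤ ∑ k ∈ Finset.range K, (if (k : ℝ) ≤ x then Real.exp (κ * (k + 1)) else 0) := by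
  set k0 := ⌊x⌋₊ with hk0
  have h1 : (k0 : ℝ) ≤ x := Nat.floor_le hx
  have h2 : x < k0 + 1 := Nat.lt_floor_add_one x
  have h3 : k0 ∈ Finset.range K := by
    rw [Finset.mem_range]
    exact_mod_cast h1.trans_lt hK
  refine le_trans ?_ (Finset.single_le_sum (f := fun k : ℕ => if (k : ℝ) ≤ x then
    Real.exp (κ * (k + 1)) else 0) (fun k _ => ?_) h3)
  · rw [if_pos h1]
    apply Real.exp_le_exp.2
    gcongr
  · split_ifs
    · positivity
    · exact le_rfl

lemma cnt_Z_le : ∃ C : ℝ, 0 < C ∧ ∀ T : ℝ, 2 ≤ T → cnt (Z T) ≤ C * (T * Real.log T) := by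
  obtain ⟨C, hC, h⟩ := density (c := 1) (by norm_num)
  refine ⟨2 * C, by positivity, fun T hT => ?_⟩
  have hTp : 0 < T := by linarith
  have hlog : 0 ≤ Real.log T := Real.log_nonneg (by linarith)
  have h1 := (h (1 / 2) T le_rfl (by norm_num) hT).2
  have h2 : (1 : ℝ) - 1 * (1 / 2 - 1 / 2) = 1 := by norm_num
  rw [h2, Real.rpow_one] at h1
  -- the zeros left of the line are reflections of the zeros on the right
  have hfin := ZZ_fin (1 / 2) T
  have hsub : Z T ⊆ {ρ | ρ ∈ Z T ∧ 1 / 2 ≤ ρ.re} ∪ {ρ | ρ ∈ Z T ∧ ρ.re < 1 / 2} := by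
    intro ρ hρ
    rcases lt_or_ge ρ.re (1 / 2) with h3 | h3
    · exact Or.inr ⟨hρ, h3⟩
    · exact Or.inl ⟨hρ, h3⟩
  have hA : ({ρ | ρ ∈ Z T ∧ 1 / 2 ≤ ρ.re} : Set ℂ).Finite := (Z_fin T).subset fun _ h => h.1
  have hB : ({ρ | ρ ∈ Z T ∧ ρ.re < 1 / 2} : Set ℂ).Finite := (Z_fin T).subset fun _ h => h.1
  have h4 : cnt {ρ | ρ ∈ Z T ∧ 1 / 2 ≤ ρ.re} ≤ C * T * Real.log T := by
    have hs : ({ρ | ρ ∈ Z T ∧ 1 / 2 ≤ ρ.re} : Set ℂ) ⊆ ZZ (1 / 2) T :=
      fun ρ h => ⟨h.1.1, h.2, h.1.2.2.2.1, h.1.2.2.2.2⟩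
    exact (cnt_mono hs hfin).trans h1
  have h5 : cnt {ρ | ρ ∈ Z T ∧ ρ.re < 1 / 2} ≤ cnt {ρ | ρ ∈ Z T ∧ 1 / 2 ≤ ρ.re} := by
    classical
    rw [cnt_eq hB, cnt_eq hA]
    have e1 : ∑ s ∈ hB.toFinset, m s = ∑ s ∈ hB.toFinset, m (1 - (starRingEnd ℂ) s) := by
      refine Finset.sum_congr rfl fun s hs => ?_
      rw [Set.Finite.mem_toFinset] at hs
      exact (m_symm hs.1.2.2.2.1.ne').symm
    have hinj : Set.InjOn (fun s : ℂ => 1 - (starRingEnd ℂ) s) (hB.toFinset : Set ℂ) := by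
      intro s _ s' _ h
      have h6 : (starRingEnd ℂ) s = (starRingEnd ℂ) s' := by
        simp only at h
        linear_combination -h
      exact (starRingEnd ℂ).injective h6
    rw [e1, ← Finset.sum_image (f := m) (g := fun s : ℂ => 1 - (starRingEnd ℂ) s) hinj]
    refine Finset.sum_le_sum_of_subset_of_nonneg ?_ fun s _ _ => m_nonneg s
    intro t ht
    rw [Finset.mem_image] at ht
    obtain ⟨s, hs, rfl⟩ := ht
    rw [Set.Finite.mem_toFinset] at hs ⊢
    obtain ⟨⟨a1, a2, a3, a4, a5⟩, a6⟩ := hs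
    refine ⟨⟨zero_symm a4.ne' a1, ?_, ?_, ?_, ?_⟩, ?_⟩
    · rw [re_s]; linarith
    · rw [re_s]; linarith
    · rw [im_s]; exact a4
    · rw [im_s]; exact a5
    · rw [re_s]; linarith
  have h6 := (cnt_mono hsub (hA.union hB)).trans (cnt_union hA hB)
  linarith

/-- exponential moments of the distances from the line -/
lemma moment : ∃ C : ℝ, 0 < C ∧ ∀ T : ℝ, 2 ≤ T →
    ∑ s ∈ (Z_fin T).toFinset, m s * Real.exp (9 / 8 * (Real.log T * |s.re - 1 / 2|)) ≤
      C * (T * Real.log T) := by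
  obtain ⟨C0, hC0, hZ⟩ := cnt_Z_le
  obtain ⟨C1, hC1, hn⟩ := near (c := 5 / 4) (by norm_num)
  set r : ℝ := Real.exp (-(1 / 8)) with hr
  have hr0 : 0 ≤ r := (Real.exp_pos _).le
  have hr1 : r < 1 := by rw [hr, Real.exp_lt_one_iff]; norm_num
  have hr2 : 0 < 1 - r := by linarith
  refine ⟨Real.exp (9 / 8) * C1 * (1 - r)⁻¹ * C0, by positivity, fun T hT => ?_⟩
  have hlog : 0 < Real.log T := Real.log_pos (by linarith)
  obtain ⟨K, hK⟩ := exists_nat_gt (Real.log T)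
  have h1 : ∀ s ∈ (Z_fin T).toFinset, m s * Real.exp (9 / 8 * (Real.log T * |s.re - 1 / 2|)) ≤
      ∑ k ∈ Finset.range K, m s * (if (k : ℝ) ≤ Real.log T * |s.re - 1 / 2| then
        Real.exp (9 / 8 * (k + 1)) else 0) := by
    intro s hs
    rw [Set.Finite.mem_toFinset] at hs
    rw [← Finset.mul_sum]
    refine mul_le_mul_of_nonneg_left ?_ (m_nonneg s)
    refine layer (9 / 8) _ (by norm_num) (by positivity) K (lt_of_le_of_lt ?_ hK)
    have h2 : |s.re - 1 / 2| ≤ 1 := by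
      rw [abs_le]
      constructor <;> linarith [hs.2.1, hs.2.2.1]
    calc Real.log T * |s.re - 1 / 2| ≤ Real.log T * 1 := by gcongr
      _ = _ := mul_one _
  refine (Finset.sum_le_sum h1).trans ?_
  rw [Finset.sum_comm]
  have h3 : ∀ k ∈ Finset.range K, ∑ s ∈ (Z_fin T).toFinset, m s *
      (if (k : ℝ) ≤ Real.log T * |s.re - 1 / 2| then Real.exp (9 / 8 * (k + 1)) else 0) ≤
      Real.exp (9 / 8) * C1 * cnt (Z T) * r ^ k := by
    intro k _
    have hfin : ({ρ | ρ ∈ Z T ∧ (k : ℝ) / Real.log T ≤ |ρ.re - 1 / 2|} : Set ℂ).Finite :=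
      (Z_fin T).subset fun _ h => h.1
    have h4 : ∑ s ∈ (Z_fin T).toFinset, m s *
        (if (k : ℝ) ≤ Real.log T * |s.re - 1 / 2| then Real.exp (9 / 8 * (k + 1)) else 0) =
        Real.exp (9 / 8 * (k + 1)) * cnt {ρ | ρ ∈ Z T ∧ (k : ℝ) / Real.log T ≤ |ρ.re - 1 / 2|} := by
      classical
      rw [cnt_eq hfin, Finset.mul_sum]
      have h5 : hfin.toFinset = (Z_fin T).toFinset.filter
          (fun s => (k : ℝ) ≤ Real.log T * |s.re - 1 / 2|) := by
        ext s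
        simp only [Set.Finite.mem_toFinset, Set.mem_setOf_eq, Finset.mem_filter]
        rw [div_le_iff₀' hlog]
      rw [h5, Finset.sum_filter]
      refine Finset.sum_congr rfl fun s _ => ?_
      split_ifs <;> ring
    rw [h4]
    have h5 := hn T k hT (Nat.cast_nonneg k)
    calc Real.exp (9 / 8 * (k + 1)) * cnt {ρ | ρ ∈ Z T ∧ (k : ℝ) / Real.log T ≤ |ρ.re - 1 / 2|} ≤
        Real.exp (9 / 8 * (k + 1)) * (C1 * Real.exp (-(5 / 4 * k)) * cnt (Z T)) := by gcongr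
      _ = C1 * cnt (Z T) * (Real.exp (9 / 8 * (k + 1)) * Real.exp (-(5 / 4 * k))) := by ring
      _ = C1 * cnt (Z T) * (Real.exp (9 / 8) * r ^ k) := by
          have e : Real.exp (9 / 8 * ((k : ℝ) + 1)) * Real.exp (-(5 / 4 * (k : ℝ))) =
              Real.exp (9 / 8) * r ^ k := by
            rw [← Real.exp_add, hr, ← Real.exp_nat_mul, ← Real.exp_add]
            congr 1
            ring
          rw [e]
      _ = _ := by ring
  refine (Finset.sum_le_sum h3).trans ?_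
  rw [← Finset.mul_sum]
  have h6 : ∑ k ∈ Finset.range K, r ^ k ≤ (1 - r)⁻¹ := by
    rw [← tsum_geometric_of_lt_one hr0 hr1]
    exact (summable_geometric_of_lt_one hr0 hr1).sum_le_tsum _ fun k _ => pow_nonneg hr0 k
  have h7 := hZ T hT
  have h8 := cnt_nonneg (Z T)
  calc Real.exp (9 / 8) * C1 * cnt (Z T) * ∑ k ∈ Finset.range K, r ^ k ≤
      Real.exp (9 / 8) * C1 * (C0 * (T * Real.log T)) * (1 - r)⁻¹ := by gcongr
    _ = _ := by ring

lemma poly_exp {x : ℝ} (hx : 0 ≤ x) : (1 + x) ^ 2 * Real.exp x ≤ 256 * Real.exp (9 / 8 * x) := by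
  have h1 : (1 + x) / 16 ≤ Real.exp (x / 16) := by
    have := Real.add_one_le_exp (x / 16)
    linarith
  have h2 : ((1 + x) / 16) ^ 2 ≤ Real.exp (x / 16) ^ 2 := by gcongr
  have h3 : Real.exp (x / 16) ^ 2 = Real.exp (x / 8) := by
    rw [← Real.exp_nat_mul]; congr 1; push_cast; ring
  rw [h3] at h2
  have h4 : Real.exp (9 / 8 * x) = Real.exp (x / 8) * Real.exp x := by
    rw [← Real.exp_add]; congr 1; ring
  rw [h4]
  have h5 := Real.exp_pos x
  nlinarith

/-- **the zeros off the line** -/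
theorem dens : ∃ C : ℝ, 0 < C ∧ ∀ T A B Λ : ℝ, 4 ≤ T → 1 ≤ A → B ≤ 2 * T → Λ ≤ Real.log T →
    ∑ s ∈ Zf riemannZeta A B, (mult riemannZeta s : ℝ) *
      ((1 + Real.log T * |s.re - 1 / 2|) ^ 2 * Real.exp (Λ * |s.re - 1 / 2|)) ≤
      C * (T * Real.log T) := by
  obtain ⟨C, hC, hm⟩ := moment
  refine ⟨256 * C * 4, by positivity, fun T A B Λ hT hA hB hΛ => ?_⟩
  have hT0 : 0 < T := by linarith
  have hL : 0 < Real.log T := Real.log_pos (by linarith)
  have hLL : Real.log T ≤ Real.log (2 * T) := Real.log_le_log hT0 (by linarith)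
  have h1 : ∀ s ∈ Zf riemannZeta A B, (mult riemannZeta s : ℝ) *
      ((1 + Real.log T * |s.re - 1 / 2|) ^ 2 * Real.exp (Λ * |s.re - 1 / 2|)) ≤
      256 * (m s * Real.exp (9 / 8 * (Real.log (2 * T) * |s.re - 1 / 2|))) := by
    intro s _
    have h2 : (0 : ℝ) ≤ |s.re - 1 / 2| := abs_nonneg _
    have h3 := poly_exp (x := Real.log T * |s.re - 1 / 2|) (by positivity)
    have h4 : Real.exp (Λ * |s.re - 1 / 2|) ≤ Real.exp (Real.log T * |s.re - 1 / 2|) := by
      apply Real.exp_le_exp.2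
      gcongr
    have h5 : Real.exp (9 / 8 * (Real.log T * |s.re - 1 / 2|)) ≤
        Real.exp (9 / 8 * (Real.log (2 * T) * |s.re - 1 / 2|)) := by
      apply Real.exp_le_exp.2
      gcongr
    have h6 : (mult riemannZeta s : ℝ) = m s := rfl
    rw [h6]
    have h7 := m_nonneg s
    calc m s * ((1 + Real.log T * |s.re - 1 / 2|) ^ 2 * Real.exp (Λ * |s.re - 1 / 2|)) ≤
        m s * ((1 + Real.log T * |s.re - 1 / 2|) ^ 2 * Real.exp (Real.log T * |s.re - 1 / 2|)) := by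
          gcongr
      _ ≤ m s * (256 * Real.exp (9 / 8 * (Real.log T * |s.re - 1 / 2|))) := by gcongr
      _ ≤ m s * (256 * Real.exp (9 / 8 * (Real.log (2 * T) * |s.re - 1 / 2|))) := by gcongr
      _ = _ := by ring
  refine (Finset.sum_le_sum h1).trans ?_
  rw [← Finset.mul_sum]
  have h2 : Zf riemannZeta A B ⊆ (Z_fin (2 * T)).toFinset := by
    intro s hs
    rw [mem_Zf good_zeta hA] at hs
    rw [Set.Finite.mem_toFinset]
    obtain ⟨a1, a2, a3, a4, a5⟩ := hs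
    exact ⟨a5, a1, a2, by linarith, by linarith⟩
  have h3 := Finset.sum_le_sum_of_subset_of_nonneg (f := fun s => m s *
    Real.exp (9 / 8 * (Real.log (2 * T) * |s.re - 1 / 2|))) h2
    (fun s _ _ => mul_nonneg (m_nonneg s) (Real.exp_pos _).le)
  have h4 := hm (2 * T) (by linarith)
  have h5 : Real.log (2 * T) ≤ 2 * Real.log T := by
    rw [Real.log_mul (by norm_num) hT0.ne']
    have : Real.log 2 ≤ Real.log T := Real.log_le_log (by norm_num) (by linarith)
    linarith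
  calc 256 * ∑ s ∈ Zf riemannZeta A B, m s * Real.exp (9 / 8 * (Real.log (2 * T) *
        |s.re - 1 / 2|)) ≤ 256 * (C * (2 * T * Real.log (2 * T))) := by
          gcongr
          exact h3.trans h4
    _ ≤ 256 * (C * (2 * T * (2 * Real.log T))) := by gcongr
    _ = _ := by ring

end Pool.Agent.H493.BS
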