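import Pool.Agent.H493.BS.Real
import Pool.Graph.R_seed8.TH803.TW.Fin
import Pool.Graph.R_seed8.W354.ZP.Num

/-! The weighted counting theorem for a weight with values in `[0, 1]`. -/

set_option autoImplicit false

open Complex Filter Topology Set MeasureTheory
open scoped BigOperators ComplexConjugate

namespace Pool.Agent.H493.BS

open H370 H370.A2 H370.AS TH803TW H295SI H143TG

lemma numer {k c1 A2 N' m0 M Q Q4r X P cS Tr θ : ℝ} (hc0 : 0 ≤ c1) (hc1 : c1 ≤ 2) (hm : 0 < m0)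
    (hθ0 : 0 < θ) (hθ : θ ≤ 1 / 100) (hN : |N' - m0| ≤ θ * m0) (hQ0 : 0 ≤ Q)
    (hQ : Q ≤ m0 * (c1 + θ)) (hQ4 : Q4r ≤ M * Q + θ * m0) (hM : M * N' ≤ X + θ * m0)
    (hX : X ≤ A2 + θ * m0) (hA0 : 0 ≤ A2) (hA1 : A2 ≤ N') (hP : P ≤ 10 * Tr + θ * m0)
    (h : k * A2 - cS - P ≤ Q4r) : (k - c1) * A2 - 10 * Tr - 14 * (θ * m0) ≤ cS := by
  obtain ⟨n1, n2⟩ := abs_le.1 hN
  have hθm : 0 < θ * m0 := by positivity
  have hkey : M * Q ≤ c1 * A2 + 12 * (θ * m0) := by
    rcases le_or_gt M 0 with h0 | h0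
    · have h1 : M * Q ≤ 0 := mul_nonpos_of_nonpos_of_nonneg h0 hQ0
      have h2 : 0 ≤ c1 * A2 := by positivity
      linarith
    · have h1 : M * Q ≤ (M * m0) * (c1 + θ) := by
        calc M * Q ≤ M * (m0 * (c1 + θ)) := by gcongr
          _ = _ := by ring
      have h2 : (M * m0) * (1 - θ) ≤ A2 + 2 * (θ * m0) := by
        have h3 : M * ((1 - θ) * m0) ≤ M * N' := by
          apply mul_le_mul_of_nonneg_left _ h0.le
          linarith
        linarith
      have h4 : M * m0 ≤ A2 + 5 * (θ * m0) := by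
        have h5 : (A2 + 2 * (θ * m0)) ≤ (A2 + 5 * (θ * m0)) * (1 - θ) := by
          have h6 : θ * A2 ≤ θ * ((1 + 1 / 100) * m0) := by
            apply mul_le_mul_of_nonneg_left _ hθ0.le
            have : θ * m0 ≤ 1 / 100 * m0 := by gcongr
            linarith
          have h7 : θ * (θ * m0) ≤ 1 / 100 * (θ * m0) := by gcongr
          nlinarith
        have h8 : (M * m0) * (1 - θ) ≤ (A2 + 5 * (θ * m0)) * (1 - θ) := h2.trans h5
        exact le_of_mul_le_mul_right h8 (by linarith)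
      have h5 : (M * m0) * (c1 + θ) ≤ (A2 + 5 * (θ * m0)) * (c1 + θ) := by
        apply mul_le_mul_of_nonneg_right h4 (by linarith)
      have h6 : θ * A2 ≤ θ * ((1 + 1 / 100) * m0) := by
        apply mul_le_mul_of_nonneg_left _ hθ0.le
        have : θ * m0 ≤ 1 / 100 * m0 := by gcongr
        linarith
      have h7 : (θ * m0) * (c1 + θ) ≤ (θ * m0) * (2 + 1 / 100) := by gcongr
      nlinarith
  nlinarith

section

variable {n : ℕ} (b : Fin n → ℂ) (τ : Fin n → ℝ)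

lemma Sm_nonneg {F : ℂ → ℂ} {A B : ℝ} {f : ℂ → ℝ} (hf : ∀ s, 0 ≤ f s) : 0 ≤ Sm F A B f :=
  Finset.sum_nonneg fun s _ => mul_nonneg (Nat.cast_nonneg _) (hf s)

lemma Sm_mono {F : ℂ → ℂ} {A B : ℝ} {f f' : ℂ → ℝ} (hf : ∀ s ∈ Zf F A B, f s ≤ f' s) :
    Sm F A B f ≤ Sm F A B f' :=
  Finset.sum_le_sum fun s hs => mul_le_mul_of_nonneg_left (hf s hs) (Nat.cast_nonneg _)

lemma Sm_one {F : ℂ → ℂ} (hF : GoodL F) {A B : ℝ} (hA : 1 ≤ A) :
    Sm F A B (fun _ => 1) = NN F A B := by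
  unfold Sm
  rw [NN_eq hF hA]
  push_cast
  refine Finset.sum_congr rfl fun s _ => mul_one _

lemma Sm_add {F : ℂ → ℂ} {A B : ℝ} (f f' : ℂ → ℝ) :
    Sm F A B (fun s => f s + f' s) = Sm F A B f + Sm F A B f' := by
  unfold Sm
  rw [← Finset.sum_add_distrib]
  refine Finset.sum_congr rfl fun s _ => by ring

lemma Sm_mul {F : ℂ → ℂ} {A B : ℝ} (c : ℝ) (f : ℂ → ℝ) :
    Sm F A B (fun s => c * f s) = c * Sm F A B f := by
  unfold Sm
  rw [Finset.mul_sum]
  refine Finset.sum_congr rfl fun s _ => by ring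

lemma Sm_ext {F : ℂ → ℂ} (hF : GoodL F) {A B A' B' : ℝ} (hA : 1 ≤ A') (h1 : A' ≤ A) (h2 : B ≤ B')
    {f : ℂ → ℝ} (hf : ∀ s, 0 ≤ f s) {D : ℝ} (hD : ∀ s, f s ≤ D) :
    Sm F A B f ≤ Sm F A' B' f ∧
      Sm F A' B' f ≤ Sm F A B f + D * ((NN F A' B' : ℝ) - NN F A B) := by
  classical
  have hsub := Zf_sub hF hA h1 h2
  have e1 : Sm F A' B' f = ∑ s ∈ Zf F A' B' \ Zf F A B, (mult F s : ℝ) * f s +
      Sm F A B f := by
    unfold Sm
    rw [Finset.sum_sdiff hsub]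
  have e2 : (NN F A' B' : ℝ) = ∑ s ∈ Zf F A' B' \ Zf F A B, (mult F s : ℝ) + NN F A B := by
    rw [NN_eq hF hA, NN_eq hF (hA.trans h1)]
    push_cast
    rw [Finset.sum_sdiff hsub]
  constructor
  · rw [e1]
    have : 0 ≤ ∑ s ∈ Zf F A' B' \ Zf F A B, (mult F s : ℝ) * f s :=
      Finset.sum_nonneg fun s _ => mul_nonneg (Nat.cast_nonneg _) (hf _)
    linarith
  · rw [e1, e2]
    have : ∑ s ∈ Zf F A' B' \ Zf F A B, (mult F s : ℝ) * f s ≤
        D * ∑ s ∈ Zf F A' B' \ Zf F A B, (mult F s : ℝ) := by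
      rw [Finset.mul_sum]
      refine Finset.sum_le_sum fun s _ => ?_
      have := hD s
      have h0 : (0 : ℝ) ≤ mult F s := Nat.cast_nonneg _
      nlinarith
    linarith

lemma cS_mono {F : ℂ → ℂ} (hF : GoodL F) {A B A' B' : ℝ} (hA : 1 ≤ A') (h1 : A' ≤ A)
    (h2 : B ≤ B') (G0 : ℝ → ℝ) : cS F A B G0 ≤ cS F A' B' G0 ∧ cD F A B G0 ≤ cD F A' B' G0 := by
  classical
  have hsub := Zf_sub hF hA h1 h2
  exact ⟨Finset.card_le_card (Finset.filter_subset_filter _ hsub),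
    Finset.card_le_card (Finset.filter_subset_filter _ hsub)⟩

/-- the three moments of the distances -/
lemma moments : ∃ C : ℝ, 0 < C ∧ ∀ T A B Λ : ℝ, 4 ≤ T → 1 ≤ A → B ≤ 2 * T → 0 ≤ Λ →
    Λ ≤ Real.log T →
    Sm riemannZeta A B dl ≤ C * T ∧
    Sm riemannZeta A B (fun s => dl s ^ 2 * Real.exp (Λ * dl s)) ≤ C * T / Real.log T ∧
    Sm riemannZeta A B (fun s => Real.exp (Λ * dl s)) ≤ C * (T * Real.log T) := by
  obtain ⟨C, hC, h⟩ := dens
  refine ⟨C, hC, fun T A B Λ hT hA hB hΛ0 hΛ => ?_⟩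
  have h1 := h T A B Λ hT hA hB hΛ
  have hL : 1 ≤ Real.log T := by
    rw [Real.le_log_iff_exp_le (by linarith)]
    have := Real.exp_one_lt_d9
    linarith
  set L := Real.log T with hLd
  have h2 : Sm riemannZeta A B (fun s => (1 + L * dl s) ^ 2 * Real.exp (Λ * dl s)) ≤
      C * (T * L) := h1
  have hd : ∀ s, 0 ≤ dl s := fun s => abs_nonneg _
  have he : ∀ s, 1 ≤ Real.exp (Λ * dl s) := fun s => Real.one_le_exp (by have := hd s; positivity)
  refine ⟨?_, ?_, ?_⟩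
  · have h3 : L * Sm riemannZeta A B dl ≤ L * (C * T) := by
      rw [← Sm_mul]
      refine le_trans (Sm_mono fun s _ => ?_) (h2.trans (le_of_eq (by ring)))
      have := hd s
      have h4 : L * dl s ≤ (1 + L * dl s) ^ 2 := by nlinarith [mul_nonneg (by linarith : 0 ≤ L) this]
      calc L * dl s ≤ (1 + L * dl s) ^ 2 * 1 := by linarith
        _ ≤ _ := by gcongr; exact he s
    exact le_of_mul_le_mul_left h3 (by linarith)
  · rw [le_div_iff₀ (by linarith)]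
    have h3 : L * (Sm riemannZeta A B (fun s => dl s ^ 2 * Real.exp (Λ * dl s)) * L) ≤
        L * (C * T) := by
      have e : L * (Sm riemannZeta A B (fun s => dl s ^ 2 * Real.exp (Λ * dl s)) * L) =
          L ^ 2 * Sm riemannZeta A B (fun s => dl s ^ 2 * Real.exp (Λ * dl s)) := by ring
      rw [e, ← Sm_mul]
      refine le_trans (Sm_mono fun s _ => ?_) (h2.trans (le_of_eq (by ring)))
      have := hd s
      have h4 : L ^ 2 * dl s ^ 2 ≤ (1 + L * dl s) ^ 2 := by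
        have : 0 ≤ L * dl s := mul_nonneg (by linarith) this
        nlinarith
      calc L ^ 2 * (dl s ^ 2 * Real.exp (Λ * dl s)) = (L ^ 2 * dl s ^ 2) * Real.exp (Λ * dl s) := by
            ring
        _ ≤ _ := by gcongr
    exact le_of_mul_le_mul_left h3 (by linarith)
  · refine le_trans (Sm_mono fun s _ => ?_) h2
    have := hd s
    have h4 : 1 ≤ (1 + L * dl s) ^ 2 := by
      have : 0 ≤ L * dl s := mul_nonneg (by linarith) this
      nlinarith
    calc Real.exp (Λ * dl s) = 1 * Real.exp (Λ * dl s) := (one_mul _).symm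
      _ ≤ _ := by gcongr

end

end Pool.Agent.H493.BS
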