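import Pool.Graph.R_seed8.TH803.TW.AP

/-! Continuous functions of almost periodic functions. -/

set_option autoImplicit false

open Complex Filter Topology Set MeasureTheory
open scoped BigOperators ComplexConjugate Polynomial

namespace Pool.Agent.H493.BS

open TH803TW

/-- real trigonometric polynomials -/
def TP (f : ℝ → ℝ) : Prop := ∃ (S : Finset ℝ) (c : ℝ → ℂ), ∀ t, f t = tp S c t

lemma TP_single (z : ℂ) (τ : ℝ) : TP fun t => (z * cexp (I * τ * t)).re :=
  ⟨{τ}, fun _ => z, fun t => by unfold tp; rw [Finset.sum_singleton]⟩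

lemma TP_add {f g : ℝ → ℝ} (hf : TP f) (hg : TP g) : TP fun t => f t + g t := by
  classical
  obtain ⟨S, c, h1⟩ := hf
  obtain ⟨S', c', h2⟩ := hg
  refine ⟨S ∪ S', fun τ => (if τ ∈ S then c τ else 0) + (if τ ∈ S' then c' τ else 0), fun t => ?_⟩
  show f t + g t = _
  rw [h1, h2]
  unfold tp
  rw [← Complex.add_re]
  congr 1
  simp only [add_mul, Finset.sum_add_distrib]
  congr 1
  · rw [← Finset.sum_subset (Finset.subset_union_left : S ⊆ S ∪ S')]
    · refine Finset.sum_congr rfl fun τ hτ => ?_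
      rw [if_pos hτ]
    · intro τ _ hτ
      rw [if_neg hτ, zero_mul]
  · rw [← Finset.sum_subset (Finset.subset_union_right : S' ⊆ S ∪ S')]
    · refine Finset.sum_congr rfl fun τ hτ => ?_
      rw [if_pos hτ]
    · intro τ _ hτ
      rw [if_neg hτ, zero_mul]

lemma TP_zero : TP fun _ => 0 := ⟨∅, fun _ => 0, fun t => by unfold tp; simp⟩

lemma TP_const (a : ℝ) : TP fun _ => a := ⟨{0}, fun _ => a, fun t => by unfold tp; simp⟩

lemma TP_sum {ι : Type*} (s : Finset ι) (f : ι → ℝ → ℝ) (h : ∀ i ∈ s, TP (f i)) :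
    TP fun t => ∑ i ∈ s, f i t := by
  classical
  induction s using Finset.induction_on with
  | empty => simpa using TP_zero
  | insert i s hi ih =>
    have h1 := TP_add (h i (Finset.mem_insert_self _ _))
      (ih fun j hj => h j (Finset.mem_insert_of_mem hj))
    simpa only [Finset.sum_insert hi] using h1

lemma TP_mul {f g : ℝ → ℝ} (hf : TP f) (hg : TP g) : TP fun t => f t * g t := by
  classical
  obtain ⟨S, c, h1⟩ := hf
  obtain ⟨S', c', h2⟩ := hg
  have e : ∀ t, f t * g t = ∑ τ ∈ S, ∑ σ ∈ S',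
      (((c τ * c' σ / 2) * cexp (I * ((τ + σ : ℝ) : ℂ) * t)).re +
      ((c τ * (starRingEnd ℂ) (c' σ) / 2) * cexp (I * ((τ - σ : ℝ) : ℂ) * t)).re) := by
    intro t
    rw [h1, h2]
    unfold tp
    rw [Complex.re_sum, Complex.re_sum, Finset.sum_mul_sum]
    refine Finset.sum_congr rfl fun τ _ => Finset.sum_congr rfl fun σ _ => ?_
    have e1 : cexp (I * ((τ + σ : ℝ) : ℂ) * t) = cexp (I * τ * t) * cexp (I * σ * t) := by
      rw [← Complex.exp_add]; congr 1; push_cast; ring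
    have e2 : cexp (I * ((τ - σ : ℝ) : ℂ) * t) =
        cexp (I * τ * t) * (starRingEnd ℂ) (cexp (I * σ * t)) := by
      rw [← Complex.exp_conj, ← Complex.exp_add]
      congr 1
      rw [map_mul, map_mul, Complex.conj_I, Complex.conj_ofReal, Complex.conj_ofReal]
      push_cast; ring
    have e3 : c τ * c' σ / 2 * cexp (I * ((τ + σ : ℝ) : ℂ) * t) =
        ((1 / 2 : ℝ) : ℂ) * ((c τ * cexp (I * τ * t)) * (c' σ * cexp (I * σ * t))) := by
      rw [e1]; push_cast; ring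
    have e4 : c τ * (starRingEnd ℂ) (c' σ) / 2 * cexp (I * ((τ - σ : ℝ) : ℂ) * t) =
        ((1 / 2 : ℝ) : ℂ) * ((c τ * cexp (I * τ * t)) *
          (starRingEnd ℂ) (c' σ * cexp (I * σ * t))) := by
      rw [e2, map_mul]; push_cast; ring
    rw [e3, e4, Complex.re_ofReal_mul, Complex.re_ofReal_mul]
    generalize c τ * cexp (I * τ * t) = u
    generalize c' σ * cexp (I * σ * t) = v
    rw [Complex.mul_re, Complex.mul_re, Complex.conj_re, Complex.conj_im]
    ring
  have h3 : TP fun t => ∑ τ ∈ S, ∑ σ ∈ S',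
      (((c τ * c' σ / 2) * cexp (I * ((τ + σ : ℝ) : ℂ) * t)).re +
      ((c τ * (starRingEnd ℂ) (c' σ) / 2) * cexp (I * ((τ - σ : ℝ) : ℂ) * t)).re) :=
    TP_sum S _ fun τ _ => TP_sum S' _ fun σ _ => TP_add (TP_single _ _) (TP_single _ _)
  obtain ⟨S0, c0, h4⟩ := h3
  exact ⟨S0, c0, fun t => (e t).trans (h4 t)⟩

lemma TP_pow {f : ℝ → ℝ} (hf : TP f) (n : ℕ) : TP fun t => f t ^ n := by
  induction n with
  | zero => simpa using TP_const 1
  | succ n ih => simpa only [pow_succ] using TP_mul ih hf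

lemma TP_poly {f : ℝ → ℝ} (hf : TP f) (p : ℝ[X]) : TP fun t => p.eval (f t) := by
  simp only [Polynomial.eval_eq_sum_range]
  exact TP_sum _ _ fun i _ => TP_mul (TP_const _) (TP_pow hf i)

lemma APu_bdd {φ : ℝ → ℝ} (h : APu φ) : ∃ B : ℝ, 0 < B ∧ ∀ t, |φ t| ≤ B := by
  obtain ⟨S, c, h1⟩ := h 1 one_pos
  have h2 : 0 ≤ ∑ τ ∈ S, ‖c τ‖ := Finset.sum_nonneg fun _ _ => norm_nonneg _
  refine ⟨1 + ∑ τ ∈ S, ‖c τ‖, by positivity, fun t => ?_⟩
  have h3 := h1 t
  have h4 := tp_bound S c t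
  have h5 : φ t = (φ t - tp S c t) + tp S c t := by ring
  rw [h5]
  exact (abs_add_le _ _).trans (add_le_add h3 h4)

/-- continuous functions of almost periodic functions are almost periodic -/
theorem APu_comp {φ : ℝ → ℝ} (h : APu φ) {f : ℝ → ℝ} (hf : Continuous f) :
    APu fun t => f (φ t) := by
  intro ε hε
  obtain ⟨B, hB, hφB⟩ := APu_bdd h
  have hfc : ContinuousOn f (Icc (-(B + 1)) (B + 1)) := hf.continuousOn
  obtain ⟨p, hp⟩ := exists_polynomial_near_of_continuousOn (-(B + 1)) (B + 1) f hfc (ε / 2)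
    (by positivity)
  have hu := isCompact_Icc.uniformContinuousOn_of_continuous hfc
  rw [Metric.uniformContinuousOn_iff] at hu
  obtain ⟨δ, hδ, hu'⟩ := hu (ε / 2) (by positivity)
  obtain ⟨S, c, hS⟩ := h (min (δ / 2) 1) (by positivity)
  obtain ⟨S', c', hS'⟩ := TP_poly ⟨S, c, fun t => rfl⟩ p
  refine ⟨S', c', fun t => ?_⟩
  rw [← hS']
  have h1 := hS t
  have h2 : |φ t - tp S c t| ≤ δ / 2 := h1.trans (min_le_left _ _)
  have h3 : |φ t - tp S c t| ≤ 1 := h1.trans (min_le_right _ _)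
  have h4 := hφB t
  have m1 : φ t ∈ Icc (-(B + 1)) (B + 1) := by
    constructor <;> linarith [(abs_le.1 h4).1, (abs_le.1 h4).2]
  have m2 : tp S c t ∈ Icc (-(B + 1)) (B + 1) := by
    constructor <;> linarith [(abs_le.1 h4).1, (abs_le.1 h4).2, (abs_le.1 h3).1, (abs_le.1 h3).2]
  have h5 := hu' _ m1 _ m2 (by rw [Real.dist_eq]; linarith)
  rw [Real.dist_eq] at h5
  have h6 := hp _ m2
  rw [abs_sub_comm] at h6
  have e : f (φ t) - p.eval (tp S c t) = (f (φ t) - f (tp S c t)) +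
      (f (tp S c t) - p.eval (tp S c t)) := by ring
  rw [e]
  exact (abs_add_le _ _).trans (by linarith)

lemma APm_APu {φ : ℝ → ℝ} {M : ℝ} (h : APm φ M) : APu φ := by
  intro ε hε
  obtain ⟨S, c, -, h1, -⟩ := h ε hε
  exact ⟨S, c, h1⟩

/-! ### layers -/

/-- the ramp -/
noncomputable def ramp (j : ℕ) (x : ℝ) : ℝ := max 0 (min 1 (x - j))

lemma ramp_cont (j : ℕ) : Continuous (ramp j) := by
  unfold ramp
  fun_prop

lemma ramp_nonneg (j : ℕ) (x : ℝ) : 0 ≤ ramp j x := le_max_left _ _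

lemma ramp_le (j : ℕ) (x : ℝ) : ramp j x ≤ 1 := max_le zero_le_one (min_le_left _ _)

lemma ramp_pos {j : ℕ} {x : ℝ} (h : 0 < ramp j x) : (j : ℝ) < x := by
  unfold ramp at h
  rw [lt_max_iff] at h
  rcases h with h | h
  · exact absurd h (lt_irrefl _)
  · rw [lt_min_iff] at h
    linarith [h.2]

lemma ramp_lt {j : ℕ} {x : ℝ} (h : ramp j x < 1) : x < j + 1 := by
  unfold ramp at h
  rw [max_lt_iff, min_lt_iff] at h
  rcases h.2 with h | h
  · exact absurd h (lt_irrefl _)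
  · linarith

lemma ramp_one {j : ℕ} {x : ℝ} (h : (j : ℝ) + 1 ≤ x) : ramp j x = 1 := by
  unfold ramp
  rw [min_eq_left (by linarith), max_eq_right zero_le_one]

open Classical in
lemma layer_pos {x : ℝ} (hx : 0 ≤ x) (J : ℕ) :
    ∑ j ∈ Finset.range J, (if 0 < ramp j x then (1 : ℝ) else 0) ≤ x + 1 := by
  rw [Finset.sum_boole]
  have h1 : (Finset.range J).filter (fun j => 0 < ramp j x) ⊆ Finset.range ⌈x⌉₊ := by
    intro j hj
    rw [Finset.mem_filter] at hj
    rw [Finset.mem_range, Nat.lt_ceil]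
    exact ramp_pos hj.2
  have h2 := Finset.card_le_card h1
  rw [Finset.card_range] at h2
  have h3 := Nat.ceil_lt_add_one hx
  have h4 : (((Finset.range J).filter (fun j => 0 < ramp j x)).card : ℝ) ≤ ⌈x⌉₊ := by exact_mod_cast h2
  linarith

lemma layer_sq {x : ℝ} (hx : 0 ≤ x) {J : ℕ} (hJ : x ≤ J) :
    x - 1 ≤ ∑ j ∈ Finset.range J, ramp j x ^ 2 := by
  have h0 : ⌊x⌋₊ ≤ J := by
    have := Nat.floor_le hx
    exact_mod_cast this.trans hJ
  have h1 : ∑ j ∈ Finset.range ⌊x⌋₊, ramp j x ^ 2 ≤ ∑ j ∈ Finset.range J, ramp j x ^ 2 :=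
    Finset.sum_le_sum_of_subset_of_nonneg (Finset.range_mono h0) fun _ _ _ => sq_nonneg _
  refine le_trans ?_ h1
  have h2 : ∑ j ∈ Finset.range ⌊x⌋₊, ramp j x ^ 2 = ⌊x⌋₊ := by
    rw [Finset.sum_congr rfl (g := fun _ => (1 : ℝ))]
    · simp
    · intro j hj
      rw [Finset.mem_range] at hj
      have h3 : (j : ℝ) + 1 ≤ x := by
        have h4 : ((j + 1 : ℕ) : ℝ) ≤ (⌊x⌋₊ : ℝ) := by exact_mod_cast hj
        have h5 := Nat.floor_le hx
        push_cast at h4
        linarith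
      rw [ramp_one h3, one_pow]
  rw [h2]
  have := Nat.lt_floor_add_one x
  linarith

open Classical in
lemma layer_tr (x : ℝ) (J : ℕ) :
    ∑ j ∈ Finset.range J, (if 0 < ramp j x ∧ ramp j x < 1 then (1 : ℝ) else 0) ≤ 1 := by
  rw [Finset.sum_boole]
  have h1 : (Finset.range J).filter (fun j => 0 < ramp j x ∧ ramp j x < 1) ⊆ {⌊x⌋₊} := by
    intro j hj
    rw [Finset.mem_filter] at hj
    rw [Finset.mem_singleton]
    have h2 := ramp_pos hj.2.1
    have h3 := ramp_lt hj.2.2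
    symm
    rw [Nat.floor_eq_iff ((Nat.cast_nonneg j).trans h2.le)]
    exact ⟨h2.le, h3⟩
  have h2 := Finset.card_le_card h1
  rw [Finset.card_singleton] at h2
  exact_mod_cast h2

end Pool.Agent.H493.BS
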