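import Pool.Agent.H493.BS.Star

/-! The weighted trace inequality at the zeros: counting. -/

set_option autoImplicit false

open Complex Filter Topology Set MeasureTheory
open scoped BigOperators ComplexConjugate

namespace Pool.Agent.H493.BS

open H370 H370.A2 TH803TW H295SI H143TG

/-- weighted sum over the zeros, with multiplicity -/
noncomputable def Sm (F : ℂ → ℂ) (A B : ℝ) (f : ℂ → ℝ) : ℝ :=
  ∑ s ∈ Zf F A B, (mult F s : ℝ) * f s

/-- the distance to the critical line -/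
noncomputable def dl (s : ℂ) : ℝ := |s.re - 1 / 2|

open Classical in
/-- indicator of the transition region -/
noncomputable def tr (G0 : ℝ → ℝ) (s : ℂ) : ℝ := if 0 < G0 s.im ∧ G0 s.im < 1 then 1 else 0

open Classical in
/-- the number of simple zeros on the line with `G0 > 0` -/
noncomputable def cS (F : ℂ → ℂ) (A B : ℝ) (G0 : ℝ → ℝ) : ℕ :=
  ((Zf F A B).filter fun s => 0 < G0 s.im ∧ s.re = 1 / 2 ∧ mult F s = 1).card

open Classical in
/-- the number of distinct zeros with `G0 > 0` -/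
noncomputable def cD (F : ℂ → ℂ) (A B : ℝ) (G0 : ℝ → ℝ) : ℕ :=
  ((Zf F A B).filter fun s => 0 < G0 s.im).card

/-- the pointwise error -/
noncomputable def pe (G0 : ℝ → ℝ) (C δ y0 Λ : ℝ) (s : ℂ) : ℝ :=
  25 * δ + 12 * C * dl s + 10 * tr G0 s + (10 / y0 ^ 2 + 20 * C ^ 2) *
    (dl s ^ 2 * Real.exp (Λ * dl s)) + 12 * δ ^ 2 * Real.exp (Λ * dl s)

section

variable {n : ℕ} (b : Fin n → ℂ) (τ : Fin n → ℝ)
variable {G0 : ℝ → ℝ} (h0 : ∀ t, 0 ≤ G0 t) (h1 : ∀ t, G0 t ≤ 1) {δ : ℝ} (hδ0 : 0 ≤ δ)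
  (hδ1 : δ ≤ 1 / 10) (hap : ∀ t : ℝ, ‖GG b τ t - G0 t‖ ≤ δ)
  (hreal : ∀ z, (starRingEnd ℂ) (GG b τ z) = GG b τ ((starRingEnd ℂ) z))
  {g : ℝ → ℝ} (hg : Win g)

/-- the good set -/
def DD (G0 : ℝ → ℝ) (y0 : ℝ) : Set ℂ := {z | G0 z.re = 1 ∧ |z.im| ≤ y0}

include h0 h1 hδ0 hδ1 hap hg in
lemma good_D {Λ y0 : ℝ} (hy0 : y0 ≤ 1 / 2) (hy1 : CG b τ * y0 ≤ δ) (z : ℂ) (hz : z ∈ DD G0 y0) :
    z.re ∈ {t | 0 < G0 t} ∧ 1 - 8 * δ ≤ (PhiB b τ g Λ z z).re ∧
      (PhiB b τ g Λ z z).re ≤ 1 + 8 * δ := by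
  obtain ⟨h2, h3⟩ := hz
  refine ⟨by simp only [Set.mem_ofPred_eq]; rw [h2]; norm_num, ?_⟩
  rw [PhiB_diag b τ hg]
  have h4 := G_sq_dist b τ h0 h1 hδ0 hδ1 hap z (h3.trans hy0)
  rw [h2] at h4
  have hC := CG_nonneg b τ
  have h5 : CG b τ * |z.im| ≤ δ := (mul_le_mul_of_nonneg_left h3 hC).trans hy1
  have h6 : 0 ≤ CG b τ * |z.im| := by positivity
  have h7 : 3 * δ + 4 * CG b τ * |z.im| + CG b τ ^ 2 * |z.im| ^ 2 ≤ 8 * δ := by
    have e : CG b τ ^ 2 * |z.im| ^ 2 = (CG b τ * |z.im|) ^ 2 := by ring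
    have h8 : (CG b τ * |z.im|) ^ 2 ≤ δ ^ 2 := by gcongr
    rw [e]
    nlinarith
  have h8 := (Complex.abs_re_le_norm (GG b τ z ^ 2 - ((1 : ℝ) : ℂ) ^ 2)).trans (h4.trans h7)
  rw [Complex.sub_re] at h8
  have h9 : ((((1 : ℝ) : ℂ)) ^ 2).re = 1 := by simp
  rw [h9, abs_le] at h8
  constructor <;> linarith [h8.1, h8.2]

include h0 h1 hδ0 hδ1 hap hreal hg in
lemma er_le {Λ y0 : ℝ} (hΛ : 0 ≤ Λ) (hy : 0 < y0) (z : ℂ) (hz : |z.im| ≤ 1 / 2) :
    er (PhiB b τ g Λ) {t | 0 < G0 t} (DD G0 y0) (8 * δ) z ≤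
      16 * δ + 10 * (open Classical in if 0 < G0 z.re ∧ G0 z.re < 1 then 1 else 0) +
      (10 / y0 ^ 2 + 16 * CG b τ ^ 2) * (|z.im| ^ 2 * Real.exp (Λ * |z.im|)) +
      12 * δ ^ 2 * Real.exp (Λ * |z.im|) := by
  classical
  have hC := CG_nonneg b τ
  have hy' := abs_nonneg z.im
  have hE : 1 ≤ Real.exp (Λ * |z.im|) := Real.one_le_exp (by positivity)
  have hE0 : 0 ≤ Real.exp (Λ * |z.im|) := by linarith
  have hA : 0 ≤ (10 / y0 ^ 2 + 16 * CG b τ ^ 2) * (|z.im| ^ 2 * Real.exp (Λ * |z.im|)) := by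
    positivity
  have hB : 0 ≤ 12 * δ ^ 2 * Real.exp (Λ * |z.im|) := by positivity
  have hN := G_norm b τ h0 hap z hz
  set v := CG b τ * |z.im| with hv
  have hv0 : 0 ≤ v := by positivity
  have hv2 : CG b τ ^ 2 * |z.im| ^ 2 = v ^ 2 := by rw [hv]; ring
  have hx1 := h1 z.re
  have hx0 := h0 z.re
  set E := Real.exp (Λ * |z.im|) with hEd
  have hD : (10 / y0 ^ 2 + 16 * CG b τ ^ 2) * (|z.im| ^ 2 * E) =
      10 * (|z.im| ^ 2 / y0 ^ 2) * E + 16 * v ^ 2 * E := by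
    rw [← hv2]
    ring
  have hvE : v ^ 2 ≤ v ^ 2 * E := le_mul_of_one_le_right (by positivity) hE
  unfold er
  by_cases hzD : z ∈ DD G0 y0
  · rw [if_pos hzD]
    have : (0 : ℝ) ≤ if 0 < G0 z.re ∧ G0 z.re < 1 then 1 else 0 := by split_ifs <;> norm_num
    linarith
  · rw [if_neg hzD]
    by_cases hzS : z.re ∈ {t | 0 < G0 t}
    · rw [if_pos hzS]
      rw [PhiB_diag b τ hg]
      have h2 : |(GG b τ z ^ 2).re| ≤ ‖GG b τ z‖ ^ 2 := by
        rw [← norm_pow]; exact Complex.abs_re_le_norm _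
      have h3 : ‖GG b τ z‖ ≤ 11 / 10 + v := by linarith
      have h4 : ‖GG b τ z‖ ^ 2 ≤ (11 / 10 + v) ^ 2 := by gcongr
      have h5 : (11 / 10 + v) ^ 2 ≤ 121 / 50 + 2 * v ^ 2 := by nlinarith [sq_nonneg (11 / 10 - v)]
      have h6 : 2 + 2 * |(GG b τ z ^ 2).re| ≤ 10 + 4 * v ^ 2 := by linarith
      refine h6.trans ?_
      rw [hD]
      by_cases hone : G0 z.re < 1
      · rw [if_pos ⟨hzS, hone⟩]
        have : 0 ≤ 10 * (|z.im| ^ 2 / y0 ^ 2) * E := by positivity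
        nlinarith
      · have hone' : G0 z.re = 1 := le_antisymm hx1 (not_lt.1 hone)
        have hbig : y0 < |z.im| := by
          by_contra hcon
          exact hzD ⟨hone', not_lt.1 hcon⟩
        have h7 : 1 ≤ |z.im| ^ 2 / y0 ^ 2 := by
          rw [le_div_iff₀ (by positivity), one_mul]
          gcongr
        have h8 : 1 ≤ (|z.im| ^ 2 / y0 ^ 2) * E := one_le_mul_of_one_le_of_one_le h7 hE
        rw [if_neg (fun h => hone h.2)]
        nlinarith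
    · rw [if_neg hzS]
      have hz0 : G0 z.re = 0 := le_antisymm (not_lt.1 hzS) hx0
      have h2 := PhiB_conj b τ hreal hg hΛ z hz
      rw [hz0, zero_add] at hN
      have h3 : ‖GG b τ z‖ ^ 2 ≤ (δ + v) ^ 2 := by gcongr
      have h4 : (δ + v) ^ 2 ≤ 2 * δ ^ 2 + 2 * v ^ 2 := by nlinarith [sq_nonneg (δ - v)]
      have h5 : 3 * (PhiB b τ g Λ ((starRingEnd ℂ) z) z).re ≤ 12 * δ ^ 2 * E + 12 * v ^ 2 * E := by
        have h6 : ‖GG b τ z‖ ^ 2 * (2 * E) ≤ (2 * δ ^ 2 + 2 * v ^ 2) * (2 * E) := by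
          gcongr
          linarith
        linarith
      refine h5.trans ?_
      rw [hD, if_neg (fun h => hzS h.1)]
      have h7 : 0 ≤ 10 * (|z.im| ^ 2 / y0 ^ 2) * E := by positivity
      have h8 : 0 ≤ v ^ 2 * E := by positivity
      linarith

variable {F : ℂ → ℂ} (hF : GoodL F)

include h0 h1 hδ0 hδ1 hap hreal hg hF in
/-- **the weighted trace inequality at the zeros** -/
theorem star_core {A B Λ y0 : ℝ} (hA : 1 ≤ A) (hΛ : 0 ≤ Λ) (hy : 0 < y0) (hy0 : y0 ≤ 1 / 2)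
    (hy1 : CG b τ * y0 ≤ δ) :
    2 * Sm F A B (fun s => G0 s.im ^ 2) - (cS F A B G0 : ℝ) - Sm F A B (pe G0 (CG b τ) δ y0 Λ) ≤
      (Q4 b τ g F Λ A B).re ∧
    3 * Sm F A B (fun s => G0 s.im ^ 2) - 2 * (cD F A B G0 : ℝ) -
      Sm F A B (pe G0 (CG b τ) δ y0 Λ) ≤ (Q4 b τ g F Λ A B).re := by
  classical
  obtain ⟨E, iE1, iE2, k, hk⟩ := gramG_exists hg Λ
  set W := Zf F A B with hW
  have hinj : Set.InjOn zz (W : Set ℂ) := fun s _ s' _ h => zz_inj h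
  set Z : Finset ℂ := W.image zz with hZ
  set m : ℂ → ℕ := fun z => mult F (1 / 2 + I * z) with hm
  have hback : ∀ s : ℂ, (1 / 2 + I * zz s) = s := by
    intro s
    have := zz_spec s
    linear_combination -this
  have hmz : ∀ s : ℂ, m (zz s) = mult F s := by
    intro s; simp only [hm]; rw [hback]
  have hWm : ∀ s ∈ W, s ∈ zset F A B := fun s hs => (mem_Zf hF hA).mp hs
  have hsumZ : ∀ {M : Type} [AddCommMonoid M] (f : ℂ → M),
      ∑ z ∈ Z, f z = ∑ s ∈ W, f (zz s) := by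
    intro M _ f
    rw [hZ, Finset.sum_image (fun s _ s' _ h => zz_inj h)]
  have hZc : ∀ z ∈ Z, conj z ∈ Z := by
    intro z hz
    rw [hZ, Finset.mem_image] at hz
    obtain ⟨s, hs, rfl⟩ := hz
    rw [← zz_refl]
    exact Finset.mem_image_of_mem _ ((mem_Zf hF hA).mpr (zset_refl hF hA (hWm s hs)))
  have hmp : ∀ z ∈ Z, 1 ≤ m z := by
    intro z hz
    rw [hZ, Finset.mem_image] at hz
    obtain ⟨s, hs, rfl⟩ := hz
    rw [hmz]
    have := hWm s hs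
    exact Loc.mult_pos' hF (by linarith [this.2.2.1]) this.2.2.2.2
  have hmc : ∀ z ∈ Z, m ((starRingEnd ℂ) z) = m z := by
    intro z hz
    rw [hZ, Finset.mem_image] at hz
    obtain ⟨s, hs, rfl⟩ := hz
    have := hWm s hs
    rw [← zz_refl, hmz, hmz, mult_refl hF this.1 this.2.1 (by linarith [this.2.2.1])]
  have him : ∀ s ∈ W, |(zz s).im| ≤ 1 / 2 := by
    intro s hs
    have := hWm s hs
    rw [zz_im, abs_neg, abs_le]
    constructor <;> linarith [this.1, this.2.1]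
  have hdl : ∀ s : ℂ, |(zz s).im| = dl s := by
    intro s
    rw [zz_im, abs_neg]
    rfl
  have hk' : ∀ z w : ℂ, inner ℂ (GG b τ z • k z) (GG b τ w • k w) =
      PhiB b τ g Λ ((starRingEnd ℂ) z) w := by
    intro z w
    rw [inner_smul_left, inner_smul_right, hk, hreal]
    unfold PhiB
    ring
  have hcount := count_w (PhiB b τ g Λ) (fun z => GG b τ z • k z) hk'
    (PhiB_symm b τ hg Λ) Z hZc m hmp hmc {t | 0 < G0 t} (DD G0 y0) (fun z => by
      simp only [DD, Set.mem_ofPred_eq, Complex.conj_re, Complex.conj_im, abs_neg])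
    (δ := 8 * δ) (by positivity) (fun z _ hz => good_D b τ h0 h1 hδ0 hδ1 hap hg hy0 hy1 z hz)
  have hQ : (∑ z ∈ Z, ∑ w ∈ Z, (m z : ℂ) * (m w : ℂ) * (PhiB b τ g Λ z w) ^ 2) =
      Q4 b τ g F Λ A B := by
    unfold Q4
    rw [hsumZ]
    refine Finset.sum_congr rfl fun s _ => ?_
    rw [hsumZ]
    refine Finset.sum_congr rfl fun s' _ => ?_
    rw [hmz, hmz]
    unfold PhiB
    rw [← phiG_even hg Λ (zz s' - zz s), neg_sub]
    ring
  rw [hQ] at hcount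
  have hc1 : ((Z.filter fun z => z.re ∈ {t | 0 < G0 t} ∧ z.im = 0 ∧ m z = 1).card : ℝ) =
      cS F A B G0 := by
    unfold cS
    rw [Finset.card_eq_sum_ones, Finset.card_eq_sum_ones, Finset.sum_filter, hsumZ,
      Finset.sum_filter]
    congr 1
    refine Finset.sum_congr rfl fun s _ => ?_
    rw [hmz, zz_re, zz_im]
    have e : (-(s.re - 1 / 2) = 0) ↔ s.re = 1 / 2 := by
      constructor <;> intro h <;> linarith
    simp only [Set.mem_ofPred_eq, e]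
  have hc2 : ((Z.filter fun z => z.re ∈ {t | 0 < G0 t}).card : ℝ) = cD F A B G0 := by
    unfold cD
    rw [Finset.card_eq_sum_ones, Finset.card_eq_sum_ones, Finset.sum_filter, hsumZ,
      Finset.sum_filter]
    congr 1
    refine Finset.sum_congr rfl fun s _ => ?_
    rw [zz_re]
    rfl
  have hs1 : ∑ z ∈ Z, (m z : ℝ) * (PhiB b τ g Λ z z).re =
      Sm F A B (fun s => (GG b τ (zz s) ^ 2).re) := by
    rw [hsumZ]
    unfold Sm
    refine Finset.sum_congr rfl fun s _ => ?_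
    rw [hmz, PhiB_diag b τ hg]
  have hs2 : ∑ z ∈ Z, (m z : ℝ) * er (PhiB b τ g Λ) {t | 0 < G0 t} (DD G0 y0) (8 * δ) z =
      Sm F A B (fun s => er (PhiB b τ g Λ) {t | 0 < G0 t} (DD G0 y0) (8 * δ) (zz s)) := by
    rw [hsumZ]
    unfold Sm
    refine Finset.sum_congr rfl fun s _ => ?_
    rw [hmz]
  have hC := CG_nonneg b τ
  -- pointwise
  have hp : ∀ c : ℝ, 0 ≤ c → c ≤ 3 → c * Sm F A B (fun s => G0 s.im ^ 2) -
      Sm F A B (pe G0 (CG b τ) δ y0 Λ) ≤ c * Sm F A B (fun s => (GG b τ (zz s) ^ 2).re) -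
      Sm F A B (fun s => er (PhiB b τ g Λ) {t | 0 < G0 t} (DD G0 y0) (8 * δ) (zz s)) := by
    intro c hc0 hc3
    unfold Sm
    rw [Finset.mul_sum, Finset.mul_sum, ← Finset.sum_sub_distrib, ← Finset.sum_sub_distrib]
    refine Finset.sum_le_sum fun s hs => ?_
    have e1 : c * ((mult F s : ℝ) * G0 s.im ^ 2) - (mult F s : ℝ) * pe G0 (CG b τ) δ y0 Λ s =
        (mult F s : ℝ) * (c * G0 s.im ^ 2 - pe G0 (CG b τ) δ y0 Λ s) := by ring
    have e2 : c * ((mult F s : ℝ) * (GG b τ (zz s) ^ 2).re) - (mult F s : ℝ) *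
        er (PhiB b τ g Λ) {t | 0 < G0 t} (DD G0 y0) (8 * δ) (zz s) =
        (mult F s : ℝ) * (c * (GG b τ (zz s) ^ 2).re -
          er (PhiB b τ g Λ) {t | 0 < G0 t} (DD G0 y0) (8 * δ) (zz s)) := by ring
    rw [e1, e2]
    apply mul_le_mul_of_nonneg_left _ (Nat.cast_nonneg _)
    have a1 := er_le b τ h0 h1 hδ0 hδ1 hap hreal hg hΛ hy (zz s) (him s hs)
    have a2 := G_sq_dist b τ h0 h1 hδ0 hδ1 hap (zz s) (him s hs)
    rw [hdl] at a1 a2
    rw [zz_re] at a1 a2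
    have a3 := (Complex.abs_re_le_norm _).trans a2
    rw [Complex.sub_re, ← Complex.ofReal_pow, Complex.ofReal_re] at a3
    have a4 := (abs_le.1 a3).1
    have hdl0 : 0 ≤ dl s := abs_nonneg _
    have hexp : 1 ≤ Real.exp (Λ * dl s) := Real.one_le_exp (by positivity)
    have a5 : dl s ^ 2 ≤ dl s ^ 2 * Real.exp (Λ * dl s) :=
      le_mul_of_one_le_right (by positivity) hexp
    have a6 : CG b τ ^ 2 * dl s ^ 2 ≤ CG b τ ^ 2 * (dl s ^ 2 * Real.exp (Λ * dl s)) := by gcongr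
    have a7 : 0 ≤ 3 * δ + 4 * CG b τ * dl s + CG b τ ^ 2 * dl s ^ 2 := by positivity
    have a8 : c * G0 s.im ^ 2 - c * (GG b τ (zz s) ^ 2).re ≤
        3 * (3 * δ + 4 * CG b τ * dl s + CG b τ ^ 2 * dl s ^ 2) := by
      have b1 : G0 s.im ^ 2 - (GG b τ (zz s) ^ 2).re ≤
        3 * δ + 4 * CG b τ * dl s + CG b τ ^ 2 * dl s ^ 2 := by linarith
      have b2 := mul_le_mul_of_nonneg_left b1 hc0
      have b3 := mul_le_mul_of_nonneg_right hc3 a7
      linarith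
    have a9 : 0 ≤ CG b τ ^ 2 * (dl s ^ 2 * Real.exp (Λ * dl s)) := by positivity
    unfold pe tr
    linarith
  rw [hc1, hc2, hs1, hs2] at hcount
  have hp2 := hp 2 (by norm_num) (by norm_num)
  have hp3 := hp 3 (by norm_num) le_rfl
  constructor
  · linarith [hcount.1]
  · linarith [hcount.2]

end

end Pool.Agent.H493.BS
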