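import Pool.Agent.H493.BS.Trace

/-! The numbers of simple real points and of all points in a set, from the weighted trace
inequality. -/

set_option autoImplicit false

open scoped BigOperators ComplexConjugate

namespace Pool.Agent.H493.BS

section

variable {E : Type*} [NormedAddCommGroup E] [InnerProductSpace ℂ E]
  (Φ : ℂ → ℂ → ℂ) (k : ℂ → E)
  (hk : ∀ z w, inner ℂ (k z) (k w) = Φ ((starRingEnd ℂ) z) w)

/-- the error at a point -/
noncomputable def er (Φ : ℂ → ℂ → ℂ) (S : Set ℝ) (D : Set ℂ) (δ : ℝ) (z : ℂ) : ℝ := by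
  classical
  exact if z ∈ D then 2 * δ else if z.re ∈ S then 2 + 2 * |(Φ z z).re| else
    3 * (Φ ((starRingEnd ℂ) z) z).re

open Classical in
/-- the test weight -/
noncomputable def dd (m : ℂ → ℕ) (S : Set ℝ) (z : ℂ) : ℝ :=
  if z.re ∈ S then (if z.im = 0 ∧ m z = 1 then 1 else 2) else 0

lemma dd_le (m : ℂ → ℕ) (S : Set ℝ) (z : ℂ) : dd m S z ≤ 2 := by
  unfold dd
  split_ifs <;> norm_num

include hk in
lemma gK (hsym : ∀ z w, Φ z w = Φ w z) (z : ℂ) :
    |(Φ z z).re| ≤ (Φ ((starRingEnd ℂ) z) z).re := by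
  have h1 := (norms Φ k hk hsym (fun _ => 1) z)
  have h2 : 0 < cw (fun _ => 1) z := by
    unfold cw
    split_ifs <;> norm_num
  have h3 : 0 ≤ 2 * cw (fun _ => 1) z * ((Φ ((starRingEnd ℂ) z) z).re + (Φ z z).re) := by
    rw [← h1.1]; positivity
  have h4 : 0 ≤ 2 * cw (fun _ => 1) z * ((Φ ((starRingEnd ℂ) z) z).re - (Φ z z).re) := by
    rw [← h1.2]; positivity
  have h5 : 0 ≤ (Φ ((starRingEnd ℂ) z) z).re + (Φ z z).re :=
    nonneg_of_mul_nonneg_right h3 (by positivity)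
  have h6 : 0 ≤ (Φ ((starRingEnd ℂ) z) z).re - (Φ z z).re :=
    nonneg_of_mul_nonneg_right h4 (by positivity)
  rw [abs_le]
  constructor <;> linarith

include hk in
lemma term_bound (hsym : ∀ z w, Φ z w = Φ w z) (m : ℂ → ℕ) (S : Set ℝ) (D : Set ℂ)
    {δ : ℝ} (hδ0 : 0 ≤ δ) (z : ℂ) (hm : 1 ≤ m z)
    (hD : z ∈ D → z.re ∈ S ∧ 1 - δ ≤ (Φ z z).re ∧ (Φ z z).re ≤ 1 + δ) :
    (8 * cw m z * (Φ z z).re - (open Classical in if z.re ∈ S ∧ z.im = 0 ∧ m z = 1 then (1 : ℝ) else 0) -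
      4 * cw m z * er Φ S D δ z ≤
      2 * dd m S z * ‖xv k m z‖ ^ 2 - dd m S z ^ 2 - 4 * ‖bv k m z‖ ^ 2) ∧
    (12 * cw m z * (Φ z z).re - (open Classical in if z.re ∈ S then (if z.im = 0 then (2 : ℝ) else 4) else 0) -
      4 * cw m z * er Φ S D δ z ≤
      2 * dd m S z * ‖xv k m z‖ ^ 2 - dd m S z ^ 2 - 4 * ‖bv k m z‖ ^ 2) := by
  classical
  obtain ⟨hx, hb⟩ := norms Φ k hk hsym m z
  rw [hx, hb]
  have hg := gK Φ k hk hsym z
  rw [abs_le] at hg
  set g := (Φ z z).re with hgd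
  set K := (Φ ((starRingEnd ℂ) z) z).re with hKd
  have hK0 : 0 ≤ K := by linarith [hg.1, hg.2]
  have hm1 : (1 : ℝ) ≤ m z := by exact_mod_cast hm
  have ha1 := neg_abs_le g
  have ha2 := le_abs_self g
  have ha3 := abs_nonneg g
  have hma : 0 ≤ (m z : ℝ) * |g| := by positivity
  have hmg : -((m z : ℝ) * |g|) ≤ (m z : ℝ) * g := by nlinarith
  have hKg : z.im = 0 → K = g := by
    intro h
    have : (starRingEnd ℂ) z = z := Complex.conj_eq_iff_im.mpr h
    rw [hKd, this]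
  unfold er dd
  by_cases hzS : z.re ∈ S
  · by_cases hi : z.im = 0
    · have hKg' := hKg hi
      have hc : cw m z = (m z : ℝ) / 4 := by unfold cw; rw [if_pos hi]
      rw [hc, hKg']
      by_cases h1 : m z = 1
      · have h1' : (m z : ℝ) = 1 := by exact_mod_cast h1
        rw [h1']
        by_cases hzD : z ∈ D
        · obtain ⟨-, d1, d2⟩ := hD hzD
          simp only [hzS, hzD, hi, h1, and_self, if_true]
          constructor <;> nlinarith
        · simp only [hzS, hzD, hi, h1, and_self, if_true, if_false]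
          constructor <;> nlinarith
      · have h2 : 2 ≤ m z := by omega
        have h2' : (2 : ℝ) ≤ m z := by exact_mod_cast h2
        by_cases hzD : z ∈ D
        · obtain ⟨-, d1, d2⟩ := hD hzD
          simp only [hzS, hzD, hi, h1, and_false, if_true, if_false]
          constructor <;> nlinarith
        · simp only [hzS, hzD, hi, h1, and_false, if_true, if_false]
          constructor <;> nlinarith
    · have hc : cw m z = (m z : ℝ) / 2 := by unfold cw; rw [if_neg hi]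
      rw [hc]
      by_cases hzD : z ∈ D
      · obtain ⟨-, d1, d2⟩ := hD hzD
        simp only [hzS, hzD, hi, false_and, and_false, if_true, if_false]
        constructor <;> nlinarith
      · simp only [hzS, hzD, hi, false_and, and_false, if_true, if_false]
        constructor <;> nlinarith
  · have hzD : z ∉ D := fun h => hzS (hD h).1
    have hc0 := cw_nonneg m z
    simp only [hzS, hzD, false_and, if_false]
    have h1 : 0 ≤ cw m z * K := by positivity
    have h2 : cw m z * g ≤ cw m z * K := by gcongr; exact hg.2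
    have h3 : - (cw m z * K) ≤ cw m z * g := by nlinarith [hg.1]
    by_cases hi : z.im = 0
    · have hKg' := hKg hi
      rw [hKg'] at h1 ⊢
      constructor <;> nlinarith
    · constructor <;> nlinarith

/-- real sums over all points as sums over the closed upper half plane -/
lemma split_real (Z : Finset ℂ) (hZ : ∀ z ∈ Z, (starRingEnd ℂ) z ∈ Z) (m : ℂ → ℕ)
    (hmc : ∀ z ∈ Z, m ((starRingEnd ℂ) z) = m z) (f : ℂ → ℝ)
    (hf : ∀ z, f ((starRingEnd ℂ) z) = f z) :
    ∑ z ∈ Z, (m z : ℝ) * f z = ∑ z ∈ Z.filter (fun z => 0 ≤ z.im), 4 * cw m z * f z := by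
  have h := split_sum Z hZ m hmc (fun z => (f z : ℂ))
  have h1 : ((∑ z ∈ Z, (m z : ℝ) * f z : ℝ) : ℂ) =
      ((∑ z ∈ Z.filter (fun z => 0 ≤ z.im), 4 * cw m z * f z : ℝ) : ℂ) := by
    rw [Complex.ofReal_sum, Complex.ofReal_sum]
    have e1 : ∀ z ∈ Z, (((m z : ℝ) * f z : ℝ) : ℂ) = (m z : ℂ) • (f z : ℂ) := by
      intro z _
      simp [smul_eq_mul]
    rw [Finset.sum_congr rfl e1, h]
    refine Finset.sum_congr rfl fun z _ => ?_
    rw [hf z, smul_eq_mul]
    push_cast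
    ring
  exact_mod_cast h1

open Classical in
include hk in
/-- **simple real points and all points in a set** -/
theorem count_w (hsym : ∀ z w, Φ z w = Φ w z)
    (Z : Finset ℂ) (hZ : ∀ z ∈ Z, (starRingEnd ℂ) z ∈ Z) (m : ℂ → ℕ)
    (hm1 : ∀ z ∈ Z, 1 ≤ m z)
    (hmc : ∀ z ∈ Z, m ((starRingEnd ℂ) z) = m z) (S : Set ℝ) (D : Set ℂ)
    (hDc : ∀ z, (starRingEnd ℂ) z ∈ D ↔ z ∈ D) {δ : ℝ} (hδ0 : 0 ≤ δ)
    (hD : ∀ z ∈ Z, z ∈ D → z.re ∈ S ∧ 1 - δ ≤ (Φ z z).re ∧ (Φ z z).re ≤ 1 + δ) :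
    (2 * ∑ z ∈ Z, (m z : ℝ) * (Φ z z).re -
      ((Z.filter fun z => z.re ∈ S ∧ z.im = 0 ∧ m z = 1).card : ℝ) -
      ∑ z ∈ Z, (m z : ℝ) * er Φ S D δ z ≤
      (∑ z ∈ Z, ∑ w ∈ Z, (m z : ℂ) * (m w : ℂ) * (Φ z w) ^ 2).re) ∧
    (3 * ∑ z ∈ Z, (m z : ℝ) * (Φ z z).re - 2 * ((Z.filter fun z => z.re ∈ S).card : ℝ) -
      ∑ z ∈ Z, (m z : ℝ) * er Φ S D δ z ≤
      (∑ z ∈ Z, ∑ w ∈ Z, (m z : ℂ) * (m w : ℂ) * (Φ z w) ^ 2).re) := by
  have hT := trace_w Φ k hk hsym Z hZ m hmc (dd m S) (dd_le m S)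
  set P := Z.filter (fun z => 0 ≤ z.im) with hP
  have hg : ∀ z, (Φ ((starRingEnd ℂ) z) ((starRingEnd ℂ) z)).re = (Φ z z).re := by
    intro z
    rw [← cj Φ k hk z z hsym, Complex.conj_re]
  have he : ∀ z, er Φ S D δ ((starRingEnd ℂ) z) = er Φ S D δ z := by
    intro z
    unfold er
    simp only [Complex.conj_re, Complex.conj_conj, hDc, hg]
    rw [hsym z ((starRingEnd ℂ) z)]
  have e1 := split_real Z hZ m hmc (fun z => (Φ z z).re) hg
  have e2 := split_real Z hZ m hmc (fun z => er Φ S D δ z) he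
  have e3 : ((Z.filter fun z => z.re ∈ S ∧ z.im = 0 ∧ m z = 1).card : ℝ) =
      ∑ z ∈ P, if z.re ∈ S ∧ z.im = 0 ∧ m z = 1 then (1 : ℝ) else 0 := by
    rw [Finset.card_filter]
    push_cast
    rw [hP, Finset.sum_filter]
    refine Finset.sum_congr rfl fun z _ => ?_
    by_cases h : z.re ∈ S ∧ z.im = 0 ∧ m z = 1
    · rw [if_pos h, if_pos h.2.1.ge]
    · rw [if_neg h]
      split_ifs <;> rfl
  have e4 : 2 * ((Z.filter fun z => z.re ∈ S).card : ℝ) =
      ∑ z ∈ P, if z.re ∈ S then (if z.im = 0 then (2 : ℝ) else 4) else 0 := by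
    have h1 := split_real Z hZ (fun _ => 1) (fun _ _ => rfl)
      (fun z => if z.re ∈ S then (1 : ℝ) else 0) (fun z => by simp only [Complex.conj_re])
    have h2 : ((Z.filter fun z => z.re ∈ S).card : ℝ) =
        ∑ z ∈ Z, ((1 : ℕ) : ℝ) * (if z.re ∈ S then (1 : ℝ) else 0) := by
      rw [Finset.card_filter]
      push_cast
      refine Finset.sum_congr rfl fun z _ => ?_
      rw [one_mul]
    rw [h2, h1, Finset.mul_sum]
    refine Finset.sum_congr rfl fun z _ => ?_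
    unfold cw
    split_ifs <;> norm_num
  constructor
  · refine le_trans (le_of_eq ?_) ((Finset.sum_le_sum fun z hz =>
      (term_bound Φ k hk hsym m S D hδ0 z (hm1 z (Finset.mem_filter.1 hz).1)
        (hD z (Finset.mem_filter.1 hz).1)).1).trans hT)
    rw [e1, e2, e3, Finset.mul_sum, ← Finset.sum_sub_distrib, ← Finset.sum_sub_distrib]
    refine Finset.sum_congr rfl fun z _ => ?_
    ring
  · refine le_trans (le_of_eq ?_) ((Finset.sum_le_sum fun z hz =>
      (term_bound Φ k hk hsym m S D hδ0 z (hm1 z (Finset.mem_filter.1 hz).1)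
        (hD z (Finset.mem_filter.1 hz).1)).2).trans hT)
    rw [e1, e2, e4, Finset.mul_sum, ← Finset.sum_sub_distrib, ← Finset.sum_sub_distrib]
    refine Finset.sum_congr rfl fun z _ => ?_
    ring

end

end Pool.Agent.H493.BS
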