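import Pool.Agent.H493.BS.Sets

/-! The exponential sum over the simple zeros; closed sets of the torus. -/

set_option autoImplicit false

open Complex Filter Topology Set MeasureTheory
open scoped BigOperators ComplexConjugate

namespace Pool.Agent.H493.BS

open H370 H370.A2 H370.AS TH803TW H295SI H143TG

open Classical in
/-- the exponential sum over the simple zeros on the line -/
noncomputable def ES (F : ℂ → ℂ) (A B τ : ℝ) : ℂ :=
  ∑ s ∈ (Zf F A B).filter fun s => s.re = 1 / 2 ∧ mult F s = 1, cexp (I * τ * s.im)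

lemma ES_re (F : ℂ → ℂ) (A B τ θ : ℝ) :
    (cexp (I * θ) * ES F A B τ).re = W1 F A B (fun t => Real.cos (τ * t + θ)) := by
  unfold ES W1
  rw [Finset.mul_sum, Complex.re_sum]
  refine Finset.sum_congr rfl fun s _ => ?_
  rw [← Complex.exp_add]
  have e1 : I * (θ : ℂ) + I * τ * s.im = ((τ * s.im + θ : ℝ) : ℂ) * I := by push_cast; ring
  rw [e1, Complex.exp_ofReal_mul_I_re]

lemma cos_one {τ : ℝ} (hτ : τ ≠ 0) (θ : ℝ) {κ ε : ℝ} (hκ : 0 < κ) (hε : 0 < ε) :
    ∃ T0 : ℝ, 10 ≤ T0 ∧ ∀ T : ℝ, T0 ≤ T → ∀ H : ℝ, κ * T ≤ H → H ≤ T →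
      (cexp (I * θ) * ES riemannZeta T (T + H) τ).re ≤
        ((cc 1 - 1) / Real.pi + ε) * NN riemannZeta T (T + H) := by
  have h1 := cos_APm hτ θ
  have h2 := cos_APm hτ (θ + Real.pi)
  obtain ⟨T0, hT0, h⟩ := W1_signed (φ := fun t => Real.cos (τ * t + θ)) h1 h2
    (fun t => le_max_right _ _) (fun t => le_max_right _ _) (fun t => by
      have e : τ * t + (θ + Real.pi) = (τ * t + θ) + Real.pi := by ring
      rw [e, Real.cos_add_pi]
      rcases le_total 0 (Real.cos (τ * t + θ)) with h | h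
      · rw [max_eq_left h, max_eq_right (by linarith)]; ring
      · rw [max_eq_right h, max_eq_left (by linarith)]; ring) hκ hε
  refine ⟨T0, hT0, fun T hT H hH1 hH2 => ?_⟩
  rw [ES_re]
  refine (h T hT H hH1 hH2).trans (le_of_eq ?_)
  ring

/-- **no frequency correlates strongly with the simple zeros** -/
theorem exp_bound {τ : ℝ} (hτ : τ ≠ 0) {κ ε : ℝ} (hκ : 0 < κ) (hε : 0 < ε) :
    ∃ T0 : ℝ, 10 ≤ T0 ∧ ∀ T : ℝ, T0 ≤ T → ∀ H : ℝ, κ * T ≤ H → H ≤ T →
      ‖ES riemannZeta T (T + H) τ‖ ≤ ((cc 1 - 1) / Real.pi + ε) * NN riemannZeta T (T + H) := by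
  classical
  have hpi := Real.pi_pos
  set q : ℝ := ε / 2 with hq
  have hq0 : 0 < q := by positivity
  set K : ℕ := ⌈2 * Real.pi / q⌉₊ + 1 with hK
  have hall : ∀ᶠ T : ℝ in atTop, ∀ k ∈ Finset.range K, ∀ H : ℝ, κ * T ≤ H → H ≤ T →
      (cexp (I * ((Real.pi - k * q : ℝ) : ℂ)) * ES riemannZeta T (T + H) τ).re ≤
        ((cc 1 - 1) / Real.pi + ε / 2) * NN riemannZeta T (T + H) := by
    rw [eventually_all_finset]
    intro k _
    obtain ⟨T0, _, hT0⟩ := cos_one hτ (Real.pi - k * q) hκ (ε := ε / 2) (by positivity)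
    filter_upwards [eventually_ge_atTop T0] with T hT H hH1 hH2 using hT0 T hT H hH1 hH2
  obtain ⟨T1, hT1⟩ := hall.exists_forall_of_atTop
  refine ⟨max T1 10, le_max_right _ _, fun T hT H hH1 hH2 => ?_⟩
  have hTT1 : T1 ≤ T := (le_max_left _ _).trans hT
  have hT10 : 10 ≤ T := (le_max_right _ _).trans hT
  set S := ES riemannZeta T (T + H) τ with hS
  have hSN : ‖S‖ ≤ NN riemannZeta T (T + H) := by
    refine le_trans ?_ (card_le_NN good_zeta (by linarith : (1 : ℝ) ≤ T))
    rw [hS]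
    unfold ES
    refine (norm_sum_le _ _).trans ?_
    have h1 : ∀ s ∈ (Zf riemannZeta T (T + H)).filter fun s => s.re = 1 / 2 ∧
        mult riemannZeta s = 1, ‖cexp (I * τ * s.im)‖ = 1 := by
      intro s _
      have : I * (τ : ℂ) * s.im = ((τ * s.im : ℝ) : ℂ) * I := by push_cast; ring
      rw [this, Complex.norm_exp_ofReal_mul_I]
    rw [Finset.sum_congr rfl h1, Finset.sum_const, nsmul_eq_mul, mul_one]
    exact_mod_cast Finset.card_filter_le _ _
  -- the direction of `S`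
  set x : ℝ := Complex.arg S + Real.pi with hx
  have hx0 : 0 ≤ x := by
    have := Complex.neg_pi_lt_arg S
    linarith
  have hx1 : x ≤ 2 * Real.pi := by
    have := Complex.arg_le_pi S
    linarith
  set k : ℕ := ⌊x / q⌋₊ with hk
  have hk1 : (k : ℝ) ≤ x / q := Nat.floor_le (by positivity)
  have hk2 : x / q < k + 1 := Nat.lt_floor_add_one _
  have hkK : k ∈ Finset.range K := by
    rw [Finset.mem_range, hK]
    have h1 : (k : ℝ) ≤ ⌈2 * Real.pi / q⌉₊ := by
      refine hk1.trans (le_trans ?_ (Nat.le_ceil _))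
      gcongr
    have h2 : k ≤ ⌈2 * Real.pi / q⌉₊ := by exact_mod_cast h1
    omega
  have h3 := hT1 T hTT1 k hkK H hH1 hH2
  set θ : ℝ := Real.pi - k * q with hθ
  have hdist : 0 ≤ Complex.arg S + θ ∧ Complex.arg S + θ ≤ q := by
    rw [le_div_iff₀ hq0] at hk1
    rw [div_lt_iff₀ hq0] at hk2
    constructor
    · rw [hθ]; linarith
    · rw [hθ]; linarith
  have hre : (cexp (I * θ) * S).re = ‖S‖ * Real.cos (Complex.arg S + θ) := by
    conv_lhs => rw [← Complex.norm_mul_exp_arg_mul_I S]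
    have e1 : cexp (I * θ) * ((‖S‖ : ℂ) * cexp (Complex.arg S * I)) =
        (‖S‖ : ℂ) * cexp (((Complex.arg S + θ : ℝ) : ℂ) * I) := by
      have : cexp (((Complex.arg S + θ : ℝ) : ℂ) * I) = cexp (I * θ) * cexp (Complex.arg S * I) := by
        rw [← Complex.exp_add]; congr 1; push_cast; ring
      rw [this]; ring
    rw [e1, Complex.re_ofReal_mul, Complex.exp_ofReal_mul_I_re]
  rw [hre] at h3
  have hcos : 1 - q ≤ Real.cos (Complex.arg S + θ) := by
    rcases le_or_gt q 1 with hq1 | hq1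
    · have h4 := Real.one_sub_sq_div_two_le_cos (x := Complex.arg S + θ)
      nlinarith [hdist.1, hdist.2]
    · have h5 : Complex.arg S + θ ≤ q := hdist.2
      rcases le_or_gt (Complex.arg S + θ) 1 with h6 | h6
      · have h4 := Real.one_sub_sq_div_two_le_cos (x := Complex.arg S + θ)
        nlinarith [hdist.1]
      · -- `cos ≥ -1`
        rcases le_or_gt 2 q with h7 | h7
        · have := Real.neg_one_le_cos (Complex.arg S + θ)
          linarith
        · have h8 : Real.cos (Complex.arg S + θ) ≥ Real.cos 2 :=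
            Real.cos_le_cos_of_nonneg_of_le_pi hdist.1 (by linarith [Real.pi_gt_three]) (by linarith)
          have h4 := Real.one_sub_sq_div_two_le_cos (x := Complex.arg S + θ)
          nlinarith [hdist.1, hdist.2]
  have hN0 : (0 : ℝ) ≤ NN riemannZeta T (T + H) := Nat.cast_nonneg _
  have hS0 := norm_nonneg S
  have h9 : ‖S‖ * (1 - q) ≤ ‖S‖ * Real.cos (Complex.arg S + θ) := by gcongr
  have h10 : q * ‖S‖ ≤ q * NN riemannZeta T (T + H) := by gcongr
  have h11 : q * (NN riemannZeta T (T + H) : ℝ) = ε / 2 * NN riemannZeta T (T + H) := by rw [hq]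
  linarith

end Pool.Agent.H493.BS
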