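import Pool.Graph.R_seed8.TH803.TW.First

/-! The first twisted moment, without hypotheses on the zeros (adapted from `TH803.TW.First`). -/

set_option autoImplicit false

open Complex Filter Topology Set MeasureTheory
open scoped BigOperators ComplexConjugate

namespace Pool.Agent.H493.BS

open H370 H370.A2 H370.AS TH803TW

lemma gauss_half (g : ℝ) : Integrable (fun t : ℝ => Real.exp (-(g - t) ^ 2 / 4)) ∧
    ∫ t : ℝ, Real.exp (-(g - t) ^ 2 / 4) = Real.sqrt (4 * Real.pi) := by
  have e : (fun t : ℝ => Real.exp (-(g - t) ^ 2 / 4)) =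
      fun t : ℝ => (fun x : ℝ => Real.exp (-(1 / 4) * x ^ 2)) (t - g) := by
    funext t
    simp only
    congr 1
    ring
  constructor
  · rw [e]
    exact (integrable_exp_neg_mul_sq (by norm_num : (0 : ℝ) < 1 / 4)).comp_sub_right g
  · rw [e, integral_sub_right_eq_self (fun x : ℝ => Real.exp (-(1 / 4) * x ^ 2)) g,
      integral_gaussian]
    congr 1
    ring

/-- the smoothed counting function outside of the interval -/
lemma outer1 {F : ℂ → ℂ} (hF : GoodL F) : ∃ C T1 : ℝ, 0 < C ∧ 4 ≤ T1 ∧ ∀ T : ℝ, T1 ≤ T →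
    ∀ a b : ℝ, T ≤ a → b ≤ 2 * T →
    ∫ t in (Set.Icc (a + Real.log T) (b - Real.log T))ᶜ, Zg F a b t ≤ C * (Real.log T) ^ 2 := by
  obtain ⟨C1, hC1, hZ⟩ := Zg_le hF
  obtain ⟨C2, hC2, hN⟩ := NN_crude hF
  have hlim : ∀ᶠ T : ℝ in atTop, T ^ 2 * Real.exp (-(Real.log T) ^ 2 / 4) ≤ 1 := by
    have h4 : ∀ᶠ T : ℝ in atTop, 8 ≤ Real.log T := Real.tendsto_log_atTop.eventually_ge_atTop 8
    filter_upwards [h4, eventually_gt_atTop 0] with T hT hT0
    have : T ^ 2 = Real.exp (2 * Real.log T) := by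
      rw [mul_comm, Real.exp_mul, Real.exp_log hT0]; norm_cast
    rw [this, ← Real.exp_add]
    apply Real.exp_le_one_iff.mpr
    nlinarith
  obtain ⟨T2, hT2⟩ := (hlim.and (Real.tendsto_log_atTop.eventually_ge_atTop 1)).exists_forall_of_atTop
  refine ⟨4 * C1 + C2 * Real.sqrt (4 * Real.pi), max 4 T2, by positivity,
    le_max_left _ _, fun T hT a b ha hb => ?_⟩
  obtain ⟨e1, hL1⟩ := hT2 T ((le_max_right _ _).trans hT)
  have hT4 : 4 ≤ T := (le_max_left _ _).trans hT
  have hT0 : 0 < T := by linarith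
  have hU : 1 ≤ a := by linarith
  set L := Real.log T with hL
  have hL0 : 0 ≤ L := by linarith
  set J : Set ℝ := Set.Icc (a - L) (a + L) ∪ Set.Icc (b - L) (b + L) with hJ
  have hJm : MeasurableSet J := measurableSet_Icc.union measurableSet_Icc
  have hJfin : volume J ≠ ⊤ := by
    refine ne_top_of_le_ne_top ?_ (measure_union_le _ _)
    simp [Real.volume_Icc]
  have hJvol : volume.real J ≤ 4 * L := by
    refine (measureReal_union_le _ _).trans ?_
    rw [Real.volume_real_Icc, Real.volume_real_Icc]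
    rw [max_eq_left (by linarith), max_eq_left (by linarith)]
    linarith
  set f1 : ℝ → ℝ := J.indicator (fun _ => C1 * L) with hf1
  set f2 : ℝ → ℝ := fun t => ∑ s ∈ Zf F a b, (mult F s : ℝ) *
    (Real.exp (-L ^ 2 / 4) * Real.exp (-(s.im - t) ^ 2 / 4)) with hf2
  have hi1 : Integrable f1 := (integrable_indicator_iff hJm).2
    (integrableOn_const hJfin)
  have hi2 : Integrable f2 := integrable_finsetSum _ fun s _ =>
    ((gauss_half s.im).1.const_mul _).const_mul _
  have hf1n : ∀ t, 0 ≤ f1 t := fun t => Set.indicator_nonneg (fun _ _ => by positivity) t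
  have hf2n : ∀ t, 0 ≤ f2 t := fun t => Finset.sum_nonneg fun s _ => by positivity
  have hpt : ∀ t ∈ (Set.Icc (a + L) (b - L))ᶜ, Zg F a b t ≤ f1 t + f2 t := by
    intro t ht
    by_cases hj : t ∈ J
    · have h1 : f1 t = C1 * L := Set.indicator_of_mem hj _
      have h2 := hZ T hT4 a b ha hb t
      have h3 := hf2n t
      rw [h1]
      linarith
    · have h1 := hf1n t
      refine le_trans ?_ (le_add_of_nonneg_left h1)
      unfold Zg
      refine Finset.sum_le_sum fun s hs => ?_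
      refine mul_le_mul_of_nonneg_left ?_ (Nat.cast_nonneg _)
      rw [← Real.exp_add]
      apply Real.exp_le_exp.2
      have hs' := (mem_Zf hF hU).1 hs
      have hs1 : a < s.im := hs'.2.2.1
      have hs2 : s.im ≤ b := hs'.2.2.2.1
      simp only [hJ, Set.mem_union, Set.mem_Icc, not_or, not_and, not_le] at hj
      have hkey : L ≤ |s.im - t| := by
        by_contra hcon
        push Not at hcon
        rw [abs_lt] at hcon
        have ht' : ¬ (a + L ≤ t ∧ t ≤ b - L) := fun h => ht h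
        rcases lt_or_ge t (a + L) with h | h
        · have := hj.1 (by linarith)
          linarith
        · have h3 : b - L < t := by
            by_contra h4
            exact ht' ⟨h, by linarith⟩
          have := hj.2 (by linarith)
          linarith
      have h4 : L ^ 2 ≤ (s.im - t) ^ 2 := by
        rw [← sq_abs (s.im - t)]
        gcongr
      linarith
  have h5 : ∫ t in (Set.Icc (a + L) (b - L))ᶜ, Zg F a b t ≤
      ∫ t in (Set.Icc (a + L) (b - L))ᶜ, (f1 t + f2 t) :=
    setIntegral_mono_on (Zg_int hF (b := b) hU).1.integrableOn (hi1.add hi2).integrableOn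
      measurableSet_Icc.compl hpt
  have h6 : ∫ t in (Set.Icc (a + L) (b - L))ᶜ, (f1 t + f2 t) ≤ ∫ t, (f1 t + f2 t) :=
    setIntegral_le_integral (hi1.add hi2) (Eventually.of_forall fun t =>
      add_nonneg (hf1n t) (hf2n t))
  have h7 : ∫ t, (f1 t + f2 t) = (∫ t, f1 t) + ∫ t, f2 t := integral_add hi1 hi2
  have h8 : ∫ t, f1 t ≤ 4 * L * (C1 * L) := by
    rw [hf1, integral_indicator hJm, setIntegral_const, smul_eq_mul]
    gcongr
  have h9 : ∫ t, f2 t ≤ C2 * Real.sqrt (4 * Real.pi) * L := by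
    rw [hf2, integral_finsetSum _ fun s _ => ((gauss_half s.im).1.const_mul _).const_mul _]
    have h10 : ∀ s ∈ Zf F a b, ∫ t : ℝ, (mult F s : ℝ) *
        (Real.exp (-L ^ 2 / 4) * Real.exp (-(s.im - t) ^ 2 / 4)) =
        (mult F s : ℝ) * (Real.exp (-L ^ 2 / 4) * Real.sqrt (4 * Real.pi)) := by
      intro s _
      rw [integral_const_mul, integral_const_mul, (gauss_half s.im).2]
    rw [Finset.sum_congr rfl h10, ← Finset.sum_mul]
    have h11 : ∑ s ∈ Zf F a b, (mult F s : ℝ) = NN F a b := by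
      rw [NN_eq hF hU]
      push_cast
      rfl
    rw [h11]
    have h12 := hN T hT4 a b ha hb
    have h13 : T * Real.exp (-L ^ 2 / 4) ≤ 1 := by
      have h14 : T * Real.exp (-L ^ 2 / 4) ≤ T ^ 2 * Real.exp (-L ^ 2 / 4) := by
        gcongr
        nlinarith
      exact h14.trans e1
    calc (NN F a b : ℝ) * (Real.exp (-L ^ 2 / 4) * Real.sqrt (4 * Real.pi)) ≤
        (C2 * (T * L)) * (Real.exp (-L ^ 2 / 4) * Real.sqrt (4 * Real.pi)) := by gcongr
      _ = C2 * Real.sqrt (4 * Real.pi) * L * (T * Real.exp (-L ^ 2 / 4)) := by ring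
      _ ≤ C2 * Real.sqrt (4 * Real.pi) * L * 1 := by gcongr
      _ = _ := mul_one _
  have h10 : C2 * Real.sqrt (4 * Real.pi) * L ≤ C2 * Real.sqrt (4 * Real.pi) * L ^ 2 := by
    have : L ≤ L ^ 2 := by nlinarith
    gcongr
  have e : (4 * C1 + C2 * Real.sqrt (4 * Real.pi)) * L ^ 2 =
    4 * L * (C1 * L) + C2 * Real.sqrt (4 * Real.pi) * L ^ 2 := by ring
  rw [e]
  linarith

/-- the first twisted moment of all the zeros is small (no hypothesis on the zeros) -/
theorem first_moment' {F : ℂ → ℂ} (hF : GoodL F) {a : ℕ → ℂ}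
    (ha : ∀ n, ‖a n‖ ≤ ArithmeticFunction.vonMangoldt n)
    (hld : ∀ s : ℂ, 1 < s.re → 1 ≤ s.im → deriv F s / F s = - ∑' n : ℕ, a n * (n : ℂ) ^ (-s))
    {τ : ℝ} (hτ : τ ≠ 0) :
    ∃ K T0 : ℝ, 0 < K ∧ 10 ≤ T0 ∧ ∀ T : ℝ, T0 ≤ T → ∀ A B : ℝ, T + 1 ≤ A → B ≤ 2 * T - 1 →
      (1 + Real.log T) ^ 2 ≤ B - A → ‖E1 F A B τ‖ ≤ K * (B - A) := by
  obtain ⟨C, T1, hC, hT1, hEF⟩ := ef_sub2 hF ha hld
  obtain ⟨C2, T2, hC2, hT2, hcnt⟩ := outer1 hF
  have hτ' : 0 < |τ| := abs_pos.2 hτ
  have hB0 := Bpp_nonneg 0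
  set c0 : ℝ := 1 / Real.sqrt (2 * Real.pi) with hc0
  set sp : ℝ := Real.sqrt (2 * Real.pi) with hsp
  have hsp1 : 1 ≤ sp := by
    rw [hsp, Real.one_le_sqrt]; linarith [Real.pi_gt_three]
  have hsp0 : 0 < sp := by linarith
  have hsp2 : sp ^ 2 = 2 * Real.pi := Real.sq_sqrt (by positivity)
  have hc00 : 0 < c0 := by positivity
  have hc01 : c0 ≤ 1 := by rw [hc0, div_le_one hsp0]; exact hsp1
  -- the constants
  set C' : ℝ := Bpp 0 + C with hC'
  have hC'0 : 0 < C' := by positivity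
  set K : ℝ := (2 / |τ| + Bpp 0 + C) + 2 * C2 with hK
  have hK0 : 0 < K := by positivity
  refine ⟨Real.exp (τ ^ 2 / 2) * K, max T1 (max T2 10), by positivity,
    (le_max_right _ _).trans (le_max_right _ _),
    fun T hT A B hA hB hAB => ?_⟩
  have hTT1 : T1 ≤ T := (le_max_left _ _).trans hT
  have hTT2 : T2 ≤ T := ((le_max_left _ _).trans (le_max_right _ _)).trans hT
  have hT10 : 10 ≤ T := ((le_max_right _ _).trans (le_max_right _ _)).trans hT
  have hTpos : 0 < T := by linarith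
  set L := Real.log T with hL
  have hL2 : 2 ≤ L := by
    rw [hL, Real.le_log_iff_exp_le hTpos]
    have h1 := Real.exp_one_lt_d9
    have h2 : Real.exp 2 = Real.exp 1 * Real.exp 1 := by rw [← Real.exp_add]; norm_num
    have h3 := Real.exp_pos 1
    nlinarith
  have hL0 : 0 ≤ L := by linarith
  set H := B - A with hH
  have hH9 : 9 ≤ H := by nlinarith
  have hU : 1 ≤ A := by linarith
  have hab : A + L ≤ B - L := by nlinarith
  have hec : Continuous (fun t : ℝ => cexp (I * τ * t)) := by fun_prop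
  have hAc := AA_cont hF (U2 := B) hU 0
  have hAint := AA_int hF (U2 := B) hU 0
  have hPc := PP_cont ha 0
  have hMc := MM_cont ha L 0
  obtain ⟨hZint, hZval⟩ := Zg_int hF (b := B) hU
  have hintC : Integrable (fun t : ℝ => AA F A B 0 t * cexp (I * τ * t)) := by
    refine hAint.mul_bdd (c := 1) hec.aestronglyMeasurable ?_
    exact Eventually.of_forall fun t => (tw_exp_norm τ t).le
  have hEF' : ∀ t ∈ Set.Icc (A + L) (B - L), ‖AA F A B 0 t - MM a L 0 t‖ ≤ C := fun t ht =>
    hEF T hTT1 A B hA hB 0 t le_rfl hL0 ht.1 ht.2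
  -- outer part
  have houter : ∫ t in (Set.Icc (A + L) (B - L))ᶜ, Zg F A B t ≤ C2 * H := by
    refine (hcnt T hTT2 A B (by linarith) (by linarith)).trans ?_
    gcongr
    nlinarith
  have hsplit : ∫ t : ℝ, AA F A B 0 t * cexp (I * τ * t) =
      (∫ t in (A + L)..(B - L), AA F A B 0 t * cexp (I * τ * t)) +
      ∫ t in (Set.Icc (A + L) (B - L))ᶜ, AA F A B 0 t * cexp (I * τ * t) := by
    rw [← integral_add_compl measurableSet_Icc hintC, intervalIntegral.integral_of_le hab,
      integral_Icc_eq_integral_Ioc]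
  have hout : ‖∫ t in (Set.Icc (A + L) (B - L))ᶜ, AA F A B 0 t * cexp (I * τ * t)‖ ≤
      2 * C2 * H := by
    refine (norm_integral_le_integral_norm _).trans ?_
    have h1 : ∫ t in (Set.Icc (A + L) (B - L))ᶜ, ‖AA F A B 0 t * cexp (I * τ * t)‖ ≤
        ∫ t in (Set.Icc (A + L) (B - L))ᶜ, 2 * Zg F A B t := by
      refine integral_mono_of_nonneg (Eventually.of_forall fun t => norm_nonneg _)
        (hZint.integrableOn.const_mul 2) (Eventually.of_forall fun t => ?_)
      simp only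
      rw [norm_mul, tw_exp_norm, mul_one]
      have h2 := AA_le_Zg hF (U2 := B) hU 0 t le_rfl
      simpa using h2
    rw [integral_const_mul] at h1
    linarith
  have hin : ‖∫ t in (A + L)..(B - L), AA F A B 0 t * cexp (I * τ * t)‖ ≤
      (2 / |τ| + Bpp 0 + C) * H := by
    have h1 : ∫ t in (A + L)..(B - L), AA F A B 0 t * cexp (I * τ * t) =
        (c0 : ℂ) * (L * ∫ t in (A + L)..(B - L), cexp (I * τ * t)) +
        ∫ t in (A + L)..(B - L), ((AA F A B 0 t - MM a L 0 t) - (c0 : ℂ) * PP a 0 t) *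
          cexp (I * τ * t) := by
      rw [← intervalIntegral.integral_const_mul, ← intervalIntegral.integral_const_mul,
        ← intervalIntegral.integral_add]
      · refine intervalIntegral.integral_congr fun t _ => ?_
        unfold MM
        rw [← hsp, ← hc0]
        have e1 : I * ((0 : ℝ) : ℂ) * (t : ℂ) = 0 := by push_cast; ring
        have e2 : Real.exp (-(0 : ℝ) ^ 2 / 2) = 1 := by norm_num
        rw [e1, e2, Complex.exp_zero]
        push_cast
        ring
      · exact (continuous_const.mul (continuous_const.mul hec)).intervalIntegrable _ _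
      · exact (((hAc.sub hMc).sub (continuous_const.mul hPc)).mul hec).intervalIntegrable _ _
    rw [h1]
    refine (norm_add_le _ _).trans ?_
    have h2 := (exp_int τ (A + L) (B - L) hab).2 hτ
    have hLH : L ≤ H := by nlinarith
    have h3 : ‖(c0 : ℂ) * (L * ∫ t in (A + L)..(B - L), cexp (I * τ * t))‖ ≤ 2 / |τ| * H := by
      rw [norm_mul, norm_mul, Complex.norm_real, Complex.norm_real, Real.norm_of_nonneg hc00.le,
        Real.norm_of_nonneg hL0]
      calc c0 * (L * ‖∫ t in (A + L)..(B - L), cexp (I * τ * t)‖) ≤ 1 * (H * (2 / |τ|)) := by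
            gcongr
        _ = _ := by ring
    have h4 : ‖∫ t in (A + L)..(B - L), ((AA F A B 0 t - MM a L 0 t) - (c0 : ℂ) * PP a 0 t) *
          cexp (I * τ * t)‖ ≤ (Bpp 0 + C) * H := by
      have h5 := intervalIntegral.norm_integral_le_of_norm_le_const (a := A + L) (b := B - L)
        (f := fun t : ℝ => ((AA F A B 0 t - MM a L 0 t) - (c0 : ℂ) * PP a 0 t) *
          cexp (I * τ * t)) (C := C + Bpp 0) (fun t ht => by
          rw [norm_mul, tw_exp_norm, mul_one]
          rw [Set.uIoc_of_le hab] at ht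
          refine (norm_sub_le _ _).trans (add_le_add (hEF' t ⟨ht.1.le, ht.2⟩) ?_)
          rw [norm_mul, Complex.norm_real, Real.norm_of_nonneg hc00.le]
          have h7 : ‖PP a 0 t‖ ≤ Bpp 0 := PP_bound ha 0 t
          calc c0 * ‖PP a 0 t‖ ≤ 1 * Bpp 0 := by gcongr
            _ = _ := one_mul _)
      rw [abs_of_nonneg (by linarith)] at h5
      refine h5.trans ?_
      rw [add_comm C]
      gcongr
      rw [hH]; linarith
    linarith
  have htot : ‖(Real.sqrt (2 * Real.pi) : ℂ) * cexp (-(τ : ℂ) ^ 2 / 2) * E1 F A B τ‖ ≤ K * H := by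
    rw [← E1_eq hF hU, hsplit]
    refine (norm_add_le _ _).trans ?_
    rw [hK]
    linarith
  rw [norm_mul, norm_mul, Complex.norm_real, Real.norm_of_nonneg (Real.sqrt_nonneg _), ← hsp] at htot
  have e3 : ‖cexp (-(τ : ℂ) ^ 2 / 2)‖ = Real.exp (-(τ ^ 2 / 2)) := by
    have : -(τ : ℂ) ^ 2 / 2 = ((-(τ ^ 2 / 2) : ℝ) : ℂ) := by push_cast; ring
    rw [this, Complex.norm_exp, Complex.ofReal_re]
  rw [e3] at htot
  have e4 : Real.exp (τ ^ 2 / 2) * Real.exp (-(τ ^ 2 / 2)) = 1 := by
    rw [← Real.exp_add, add_neg_cancel, Real.exp_zero]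
  have hn := norm_nonneg (E1 F A B τ)
  calc ‖E1 F A B τ‖ = Real.exp (τ ^ 2 / 2) * (1 * Real.exp (-(τ ^ 2 / 2)) * ‖E1 F A B τ‖) := by
        rw [one_mul, ← mul_assoc, e4, one_mul]
    _ ≤ Real.exp (τ ^ 2 / 2) * (sp * Real.exp (-(τ ^ 2 / 2)) * ‖E1 F A B τ‖) := by gcongr
    _ ≤ Real.exp (τ ^ 2 / 2) * (K * H) := by gcongr
    _ = _ := by ring


end Pool.Agent.H493.BS
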