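import Pool.Graph.R_seed8.TH803.TW.Int

/-! The twisted mean squares of the zero sum, without hypotheses on the zeros (adapted from
`TH803.TW.JTB` and `TH803.TW.Int`, where the zeros are assumed to lie on the line). -/

set_option autoImplicit false

open Complex Filter Topology Set MeasureTheory
open scoped BigOperators ComplexConjugate

namespace Pool.Agent.H493.BS

open H370 H370.A2 TH803TW

theorem JT_bound {F : ℂ → ℂ} (hF : GoodL F) {a : ℕ → ℂ}
    (ha : ∀ n, ‖a n‖ ≤ ArithmeticFunction.vonMangoldt n)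
    (hld : ∀ s : ℂ, 1 < s.re → 1 ≤ s.im → deriv F s / F s = - ∑' n : ℕ, a n * (n : ℂ) ^ (-s))
    {τ : ℝ}
    (hτ : τ ≠ 0) (h ε η : ℝ) (hε : 0 < ε) (hεh : ε < h) (hh1 : h ≤ 1) (hη : 0 < η) :
    ∃ K T0 : ℝ, 0 < K ∧ 10 ≤ T0 ∧ ∀ T : ℝ, T0 ≤ T → ∀ A B : ℝ, T + 1 ≤ A → B ≤ 2 * T - 1 →
      T ^ h ≤ B - A → ∀ u : ℝ, 0 ≤ u → u ≤ (h - ε) * Real.log T →
      ‖JT F A B u τ‖ ≤ η * ((B - A) * (Real.log T) ^ 2 * Real.exp (-u ^ 2) + (B - A) * VV u) +
        K * ((B - A) * Real.log T * Real.exp (2 * u - u ^ 2 / 2) + (B - A)) := by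
  obtain ⟨C, T1, hC, hT1, hEF⟩ := ef_sub2 hF ha hld
  obtain ⟨Co, T2, hCo, hT2, hout⟩ := outer_tau hF (τ := 1 / 2) (by norm_num)
  set η1 : ℝ := η / 16 with hη1
  have hη10 : 0 < η1 := by positivity
  obtain ⟨K1, T3, hK1, hT3, hM1⟩ := MM_tw ha hτ h ε η1 hε hεh hh1 hη10
  obtain ⟨T4, hT4, hM2⟩ := MM_ms ha h ε hε hεh hh1
  have ev1 := ev_log_pow 1 Co ε 3 one_pos hCo hε
  have ev2 := ev_log_pow 1 2 h 1 one_pos (by norm_num) (by linarith)
  obtain ⟨T5, hT5⟩ := (ev1.and ev2).exists_forall_of_atTop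
  refine ⟨K1 + 4 * η1 + (1 + 1 / η1) * C ^ 2 + 1, max T1 (max T2 (max T3 (max T4 T5))),
    by positivity, hT1.trans (le_max_left _ _), fun T hT A B hA hB hAB u hu hu1 => ?_⟩
  have hTT1 : T1 ≤ T := (le_max_left _ _).trans hT
  have hTT2 : T2 ≤ T := ((le_max_left _ _).trans (le_max_right _ _)).trans hT
  have hTT3 : T3 ≤ T := ((le_max_left _ _).trans ((le_max_right _ _).trans
    (le_max_right _ _))).trans hT
  have hTT4 : T4 ≤ T := ((le_max_left _ _).trans ((le_max_right _ _).trans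
    ((le_max_right _ _).trans (le_max_right _ _)))).trans hT
  have hTT5 : T5 ≤ T := ((le_max_right _ _).trans ((le_max_right _ _).trans
    ((le_max_right _ _).trans (le_max_right _ _)))).trans hT
  obtain ⟨e1, e2⟩ := hT5 T hTT5
  have hT10 : 10 ≤ T := hT1.trans hTT1
  have hTpos : 0 < T := by linarith
  set L := Real.log T with hL
  have hL0 : 0 ≤ L := Real.log_nonneg (by linarith)
  have huL : u ≤ L := by nlinarith
  set H : ℝ := B - A with hH
  have hTh : 0 < T ^ h := Real.rpow_pos_of_pos hTpos h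
  have hH0 : 0 < H := hTh.trans_le hAB
  have hU : 1 ≤ A := by linarith
  have hab : A + L ≤ B - L := by
    rw [pow_one] at e2
    linarith
  have hV := VV_nonneg u
  have hint := AA_sq_int hF (U2 := B) hU u
  have hec : Continuous (fun t : ℝ => cexp (I * τ * t)) := by fun_prop
  have hintC : Integrable (fun t : ℝ => ((‖AA F A B u t‖ ^ 2 : ℝ) : ℂ) * cexp (I * τ * t)) := by
    refine (hint.ofReal (𝕜 := ℂ)).mul_bdd (c := 1) hec.aestronglyMeasurable ?_
    exact Eventually.of_forall fun t => (tw_exp_norm τ t).le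
  have hsplit : JT F A B u τ = (∫ t in (A + L)..(B - L), ((‖AA F A B u t‖ ^ 2 : ℝ) : ℂ) *
      cexp (I * τ * t)) +
      ∫ t in (Set.Icc (A + L) (B - L))ᶜ, ((‖AA F A B u t‖ ^ 2 : ℝ) : ℂ) * cexp (I * τ * t) := by
    unfold JT
    rw [← integral_add_compl measurableSet_Icc hintC, intervalIntegral.integral_of_le hab,
      integral_Icc_eq_integral_Ioc]
  -- outer
  have houter : ‖∫ t in (Set.Icc (A + L) (B - L))ᶜ, ((‖AA F A B u t‖ ^ 2 : ℝ) : ℂ) *
      cexp (I * τ * t)‖ ≤ H := by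
    refine (norm_integral_le_integral_norm _).trans ?_
    have h1 : ∀ t : ℝ, ‖((‖AA F A B u t‖ ^ 2 : ℝ) : ℂ) * cexp (I * τ * t)‖ =
        ‖AA F A B u t‖ ^ 2 := by
      intro t
      rw [norm_mul, tw_exp_norm, mul_one, Complex.norm_real, Real.norm_of_nonneg (by positivity)]
    simp_rw [h1]
    have h2 := hout T hTT2 A B (by linarith) (by linarith) (fun s hs _ => by
      have := hs.2.1
      linarith) u hu huL
    refine h2.trans ?_
    rw [show (2 * (1 / 2) * u : ℝ) = u by ring]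
    have hexp : Real.exp u ≤ T ^ (h - ε) := by
      rw [Real.rpow_def_of_pos hTpos]
      exact Real.exp_le_exp.2 (by linarith)
    have hprod : T ^ ε * T ^ (h - ε) = T ^ h := by
      rw [← Real.rpow_add hTpos]
      congr 1
      ring
    have hTe : 0 < T ^ (h - ε) := Real.rpow_pos_of_pos hTpos _
    calc Co * Real.exp u * L ^ 3 = (Co * L ^ 3) * Real.exp u := by ring
      _ ≤ (Co * (1 + L) ^ 3) * T ^ (h - ε) := by gcongr; linarith
      _ ≤ (1 * T ^ ε) * T ^ (h - ε) := by gcongr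
      _ = T ^ h := by rw [one_mul, hprod]
      _ ≤ H := hAB
  -- inner
  have hMc := MM_cont ha L u
  have hAc := AA_cont hF (U2 := B) hU u
  have hlen : B - L - (A + L) ≤ H := by rw [hH]; linarith
  have hm1 := hM1 T hTT3 (A + L) (B - L) H hab hAB hlen u hu hu1
  have hm2 := hM2 T hTT4 (A + L) (B - L) H hab hAB hlen u hu hu1
  rw [← hL] at hm1 hm2
  have hpt : ∀ t ∈ Set.Icc (A + L) (B - L), |‖AA F A B u t‖ ^ 2 - ‖MM a L u t‖ ^ 2| ≤
      η1 * ‖MM a L u t‖ ^ 2 + (1 + 1 / η1) * C ^ 2 := by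
    intro t ht
    exact sq_diff hη10 (hEF T hTT1 A B hA hB u t hu huL ht.1 ht.2)
  have hinner : ‖∫ t in (A + L)..(B - L), ((‖AA F A B u t‖ ^ 2 : ℝ) : ℂ) *
      cexp (I * τ * t)‖ ≤ (K1 * (H * L * Real.exp (2 * u - u ^ 2 / 2) + H) + η1 * H * VV u) +
      (η1 * (2 * (H * L ^ 2 * Real.exp (-u ^ 2)) + 8 * (H * VV u) + 4 * H) +
        (1 + 1 / η1) * C ^ 2 * H) := by
    have h1 : ∫ t in (A + L)..(B - L), ((‖AA F A B u t‖ ^ 2 : ℝ) : ℂ) * cexp (I * τ * t) =
        (∫ t in (A + L)..(B - L), ((‖MM a L u t‖ ^ 2 : ℝ) : ℂ) * cexp (I * τ * t)) +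
        ∫ t in (A + L)..(B - L), ((‖AA F A B u t‖ ^ 2 - ‖MM a L u t‖ ^ 2 : ℝ) : ℂ) *
          cexp (I * τ * t) := by
      rw [← intervalIntegral.integral_add]
      · refine intervalIntegral.integral_congr fun t _ => ?_
        push_cast
        ring
      · exact ((Complex.continuous_ofReal.comp (hMc.norm.pow 2)).mul hec).intervalIntegrable _ _
      · exact ((Complex.continuous_ofReal.comp ((hAc.norm.pow 2).sub
          (hMc.norm.pow 2))).mul hec).intervalIntegrable _ _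
    rw [h1]
    refine (norm_add_le _ _).trans (add_le_add hm1 ?_)
    refine (intervalIntegral.norm_integral_le_integral_norm hab).trans ?_
    calc ∫ t in (A + L)..(B - L), ‖((‖AA F A B u t‖ ^ 2 - ‖MM a L u t‖ ^ 2 : ℝ) : ℂ) *
          cexp (I * τ * t)‖ ≤
        ∫ t in (A + L)..(B - L), (η1 * ‖MM a L u t‖ ^ 2 + (1 + 1 / η1) * C ^ 2) := by
          refine intervalIntegral.integral_mono_on hab ?_ ?_ fun t ht => ?_
          · exact ((Complex.continuous_ofReal.comp ((hAc.norm.pow 2).sub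
              (hMc.norm.pow 2))).mul hec).norm.intervalIntegrable _ _
          · exact ((continuous_const.mul (hMc.norm.pow 2)).add
              continuous_const).intervalIntegrable _ _
          · rw [norm_mul, tw_exp_norm, mul_one, Complex.norm_real]
            exact hpt t ht
      _ = η1 * (∫ t in (A + L)..(B - L), ‖MM a L u t‖ ^ 2) +
          (B - L - (A + L)) * ((1 + 1 / η1) * C ^ 2) := by
          rw [intervalIntegral.integral_add, intervalIntegral.integral_const,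
            intervalIntegral.integral_const_mul, smul_eq_mul]
          · exact (continuous_const.mul (hMc.norm.pow 2)).intervalIntegrable _ _
          · exact continuous_const.intervalIntegrable _ _
      _ ≤ η1 * (2 * (H * L ^ 2 * Real.exp (-u ^ 2)) + 8 * (H * VV u) + 4 * H) +
          H * ((1 + 1 / η1) * C ^ 2) := by gcongr
      _ = _ := by ring
  rw [hsplit]
  refine ((norm_add_le _ _).trans (add_le_add hinner houter)).trans ?_
  have m1 : 0 ≤ H * L ^ 2 * Real.exp (-u ^ 2) := by positivity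
  have m2 : 0 ≤ H * VV u := by positivity
  have m3 : 0 ≤ H * L * Real.exp (2 * u - u ^ 2 / 2) := by positivity
  have m4 : 0 ≤ (4 * η1 + (1 + 1 / η1) * C ^ 2 + 1) *
    (H * L * Real.exp (2 * u - u ^ 2 / 2)) := by positivity
  have e3 : η = 16 * η1 := by rw [hη1]; ring
  rw [e3]
  have m5 : 0 ≤ η1 * (H * L ^ 2 * Real.exp (-u ^ 2)) := by positivity
  have m6 : 0 ≤ η1 * (H * VV u) := by positivity
  nlinarith

/-- **the twisted mean squares, integrated over the scale** -/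
theorem JT_int {F : ℂ → ℂ} (hF : GoodL F) {a : ℕ → ℂ}
    (ha : ∀ n, ‖a n‖ ≤ ArithmeticFunction.vonMangoldt n)
    (hld : ∀ s : ℂ, 1 < s.re → 1 ≤ s.im → deriv F s / F s = - ∑' n : ℕ, a n * (n : ℂ) ^ (-s))
    {τ : ℝ}
    (hτ : τ ≠ 0) (h ε c η : ℝ) (hε : 0 < ε) (hεh : ε < h) (hh1 : h ≤ 1) (hc : 0 < c)
    (hη : 0 < η) :
    ∃ T0 : ℝ, 10 ≤ T0 ∧ ∀ T : ℝ, T0 ≤ T → ∀ A B : ℝ, T + 1 ≤ A → B ≤ 2 * T - 1 →
      T ^ h ≤ B - A → ∀ Λ : ℝ, c * Real.log T ≤ Λ → Λ ≤ (h - ε) * Real.log T →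
      ∫ α in (0 : ℝ)..1, ‖JT F A B (Λ * α) τ‖ ≤ η * ((B - A) * Real.log T) := by
  obtain ⟨C, hC, henv⟩ := env_int c hc
  obtain ⟨K, T0, hK, hT0, hJ⟩ := JT_bound hF ha hld hτ h ε (η / (2 * C)) hε hεh hh1
    (by positivity)
  set η0 : ℝ := η / (2 * C) with hη0
  have hη00 : 0 < η0 := by positivity
  have ev : ∀ᶠ T : ℝ in atTop, 1 ≤ Real.log T ∧ 1 / c ≤ Real.log T ∧
      2 * ((η0 + K) * C) / η ≤ Real.log T :=
    (Real.tendsto_log_atTop.eventually_ge_atTop _).and
      ((Real.tendsto_log_atTop.eventually_ge_atTop _).and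
        (Real.tendsto_log_atTop.eventually_ge_atTop _))
  obtain ⟨T2, hT2⟩ := ev.exists_forall_of_atTop
  refine ⟨max T0 T2, hT0.trans (le_max_left _ _), fun T hT A B hA hB hAB Λ hΛ1 hΛ2 => ?_⟩
  have hTT0 : T0 ≤ T := (le_max_left _ _).trans hT
  obtain ⟨l1, l2, l3⟩ := hT2 T ((le_max_right _ _).trans hT)
  have hT10 : 10 ≤ T := hT0.trans hTT0
  have hTpos : 0 < T := by linarith
  set L := Real.log T with hL
  have hH0 : 0 < B - A := (Real.rpow_pos_of_pos hTpos h).trans_le hAB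
  set H := B - A with hH
  have hΛ3 : 1 ≤ Λ := by
    refine le_trans ?_ hΛ1
    rw [div_le_iff₀ hc] at l2
    linarith
  have hΛ0 : 0 < Λ := by linarith
  have hΛL : Λ ≤ L := by nlinarith
  have hU : 1 ≤ A := by linarith
  have hJc : Continuous fun α : ℝ => JT F A B (Λ * α) τ := (JT_cont hF hU τ).comp (by fun_prop)
  have hcont : IntervalIntegrable (fun β : ℝ => env K η0 L H (Λ * β)) volume 0 1 := by
    apply ContinuousOn.intervalIntegrable
    refine (env_contOn K η0 L H Λ).comp (by fun_prop) ?_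
    intro β hβ
    rw [Set.uIcc_of_le zero_le_one] at hβ
    simp only [Set.mem_Iic]
    nlinarith [hβ.2]
  have h1 : ∫ α in (0 : ℝ)..1, ‖JT F A B (Λ * α) τ‖ ≤
      ∫ α in (0 : ℝ)..1, env K η0 L H (Λ * α) := by
    refine intervalIntegral.integral_mono_on zero_le_one (hJc.norm.intervalIntegrable _ _) hcont
      fun α hα => ?_
    have h2 := hJ T hTT0 A B hA hB hAB (Λ * α) (mul_nonneg hΛ0.le hα.1) (by
      calc Λ * α ≤ Λ * 1 := by gcongr; exact hα.2
        _ ≤ (h - ε) * L := by rw [mul_one]; exact hΛ2)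
    exact h2
  refine h1.trans ((henv K η0 L H Λ hK.le hη00.le l1 hH0.le hΛ1 hΛL hΛ3).trans ?_)
  have h3 : η0 * C = η / 2 := by rw [hη0]; field_simp
  rw [h3]
  have h4 : (η0 + K) * C * H ≤ η / 2 * (H * L) := by
    rw [div_le_iff₀ hη] at l3
    have : (η0 + K) * C ≤ η / 2 * L := by linarith
    calc (η0 + K) * C * H ≤ (η / 2 * L) * H := by gcongr
      _ = _ := by ring
  linarith

end Pool.Agent.H493.BS
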