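import Pool.Agent.H493.BS.Mean

/-! Layers: from `[0, 1]`-valued weights to all nonnegative almost periodic weights. -/

set_option autoImplicit false

open Complex Filter Topology Set MeasureTheory
open scoped BigOperators ComplexConjugate

namespace Pool.Agent.H493.BS

open H370 H370.A2 H370.AS TH803TW H295SI H143TG

open Classical in
/-- the sum of a weight over the simple zeros on the line -/
noncomputable def W1 (F : ℂ → ℂ) (A B : ℝ) (φ : ℝ → ℝ) : ℝ :=
  ∑ s ∈ (Zf F A B).filter fun s => s.re = 1 / 2 ∧ mult F s = 1, φ s.im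

/-- the sum of a weight over the distinct zeros -/
noncomputable def Wd (F : ℂ → ℂ) (A B : ℝ) (φ : ℝ → ℝ) : ℝ := ∑ s ∈ Zf F A B, φ s.im

section

variable {F : ℂ → ℂ} (hF : GoodL F)

include hF in
lemma card_le_NN {A B : ℝ} (hA : 1 ≤ A) : ((Zf F A B).card : ℝ) ≤ NN F A B := by
  rw [NN_eq hF hA, Finset.card_eq_sum_ones]
  push_cast
  refine Finset.sum_le_sum fun s hs => ?_
  have := (mem_Zf hF hA).mp hs
  exact_mod_cast Loc.mult_pos' hF (by linarith [this.2.2.1]) this.2.2.2.2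

open Classical in
lemma cS_sum {A B : ℝ} {φ : ℝ → ℝ} (hφ : ∀ t, 0 ≤ φ t) {q : ℝ} (hq : 0 < q) (J : ℕ) :
    q * ∑ j ∈ Finset.range J, (cS F A B (fun t => ramp j (φ t / q)) : ℝ) ≤
      W1 F A B φ + q * ((Zf F A B).filter fun s => s.re = 1 / 2 ∧ mult F s = 1).card := by
  have h1 : ∀ j, (cS F A B (fun t => ramp j (φ t / q)) : ℝ) =
      ∑ s ∈ (Zf F A B).filter (fun s => s.re = 1 / 2 ∧ mult F s = 1),
        (if 0 < ramp j (φ s.im / q) then (1 : ℝ) else 0) := by
    intro j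
    unfold cS
    rw [Finset.sum_boole, Finset.filter_filter]
    congr 2
    ext s
    simp only [Finset.mem_filter]
    tauto
  simp_rw [h1]
  rw [Finset.sum_comm, Finset.mul_sum]
  unfold W1
  rw [Finset.card_eq_sum_ones]
  push_cast
  rw [Finset.mul_sum, ← Finset.sum_add_distrib]
  refine Finset.sum_le_sum fun s _ => ?_
  have h2 := layer_pos (x := φ s.im / q) (div_nonneg (hφ _) hq.le) J
  calc q * ∑ j ∈ Finset.range J, (if 0 < ramp j (φ s.im / q) then (1 : ℝ) else 0) ≤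
      q * (φ s.im / q + 1) := by gcongr
    _ = _ := by field_simp

open Classical in
lemma cD_sum {A B : ℝ} {φ : ℝ → ℝ} (hφ : ∀ t, 0 ≤ φ t) {q : ℝ} (hq : 0 < q) (J : ℕ) :
    q * ∑ j ∈ Finset.range J, (cD F A B (fun t => ramp j (φ t / q)) : ℝ) ≤
      Wd F A B φ + q * (Zf F A B).card := by
  have h1 : ∀ j, (cD F A B (fun t => ramp j (φ t / q)) : ℝ) =
      ∑ s ∈ Zf F A B, (if 0 < ramp j (φ s.im / q) then (1 : ℝ) else 0) := by
    intro j
    unfold cD
    rw [Finset.sum_boole]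
  simp_rw [h1]
  rw [Finset.sum_comm, Finset.mul_sum]
  unfold Wd
  rw [Finset.card_eq_sum_ones]
  push_cast
  rw [Finset.mul_sum, ← Finset.sum_add_distrib]
  refine Finset.sum_le_sum fun s _ => ?_
  have h2 := layer_pos (x := φ s.im / q) (div_nonneg (hφ _) hq.le) J
  calc q * ∑ j ∈ Finset.range J, (if 0 < ramp j (φ s.im / q) then (1 : ℝ) else 0) ≤
      q * (φ s.im / q + 1) := by gcongr
    _ = _ := by field_simp

include hF in
lemma sq_sum {A B : ℝ} (hA : 1 ≤ A) {φ : ℝ → ℝ} (hφ : ∀ t, 0 ≤ φ t) {q : ℝ} (hq : 0 < q) {J : ℕ}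
    (hJ : ∀ t, φ t / q ≤ J) :
    Sm F A B (fun s => φ s.im) - q * NN F A B ≤
      q * ∑ j ∈ Finset.range J, Sm F A B (fun s => ramp j (φ s.im / q) ^ 2) := by
  rw [← Sm_one hF hA, ← Sm_mul]
  unfold Sm
  rw [Finset.sum_comm, Finset.mul_sum, ← Finset.sum_sub_distrib]
  refine Finset.sum_le_sum fun s _ => ?_
  rw [← Finset.mul_sum]
  have h2 := layer_sq (x := φ s.im / q) (div_nonneg (hφ _) hq.le) (hJ _)
  have h3 : (0 : ℝ) ≤ mult F s := Nat.cast_nonneg _
  have h4 : φ s.im - q ≤ q * ∑ j ∈ Finset.range J, ramp j (φ s.im / q) ^ 2 := by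
    calc φ s.im - q = q * (φ s.im / q - 1) := by field_simp
      _ ≤ _ := by gcongr
  calc (mult F s : ℝ) * φ s.im - (mult F s : ℝ) * (q * 1) = (mult F s : ℝ) * (φ s.im - q) := by ring
    _ ≤ (mult F s : ℝ) * (q * ∑ j ∈ Finset.range J, ramp j (φ s.im / q) ^ 2) := by gcongr
    _ = _ := by ring

include hF in
lemma tr_sum {A B : ℝ} (hA : 1 ≤ A) {φ : ℝ → ℝ} {q : ℝ} (J : ℕ) :
    ∑ j ∈ Finset.range J, Sm F A B (tr fun t => ramp j (φ t / q)) ≤ NN F A B := by
  rw [← Sm_one hF hA]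
  unfold Sm
  rw [Finset.sum_comm]
  refine Finset.sum_le_sum fun s _ => ?_
  rw [← Finset.mul_sum]
  have h2 := layer_tr (φ s.im / q) J
  apply mul_le_mul_of_nonneg_left _ (Nat.cast_nonneg _)
  exact h2

end

/-- **almost periodic weights, half intervals** -/
theorem weights_half {φ : ℝ → ℝ} {M : ℝ} (hφ : APm φ M) (hφ0 : ∀ t, 0 ≤ φ t) {κ ε : ℝ}
    (hκ : 0 < κ) (hε : 0 < ε) :
    ∃ T0 : ℝ, 10 ≤ T0 ∧ ∀ T : ℝ, T0 ≤ T → ∀ H : ℝ, κ * T ≤ H → H ≤ T / 2 →
      ((2 - cc 1) * M - ε) * NN riemannZeta T (T + H) ≤ W1 riemannZeta T (T + H) φ ∧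
      ((3 - cc 1) / 2 * M - ε) * NN riemannZeta T (T + H) ≤ Wd riemannZeta T (T + H) φ := by
  classical
  have hF : GoodL riemannZeta := good_zeta
  obtain ⟨D, hD0, hD⟩ := hφ.bdd
  have hcc1 := cc_one_le
  have hcc0 : 0 ≤ cc 1 := by
    have hc := H228SI.constS 1 one_pos le_rfl
    have hs2 : 0 < Real.sqrt 2 := Real.sqrt_pos.2 (by norm_num)
    have hC := H793SI.convS (Real.sqrt 2 * 1) (by positivity) (by rw [mul_one])
    rw [← hc]
    unfold cR
    have : 0 ≤ ∫ α in (0 : ℝ)..1, α * RS (Real.sqrt 2 * 1) α :=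
      intervalIntegral.integral_nonneg (by norm_num) fun u hu => mul_nonneg hu.1 (hC.nonneg u)
    have := hC.nonneg 0
    positivity
  set q : ℝ := ε / 40 with hq
  have hq0 : 0 < q := by positivity
  set J : ℕ := ⌈D / q⌉₊ with hJ
  have hJφ : ∀ t, φ t / q ≤ J := by
    intro t
    refine le_trans ?_ (Nat.le_ceil _)
    gcongr
    exact (le_abs_self _).trans (hD t)
  set ε' : ℝ := ε / (8 * (q * J + 1)) with hε'
  have hε'0 : 0 < ε' := by positivity
  have hε'1 : q * J * ε' ≤ ε / 8 := by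
    rw [hε', mul_div_assoc', div_le_div_iff₀ (by positivity) (by norm_num)]
    have : 0 ≤ q * J := by positivity
    nlinarith
  have hstar : ∀ᶠ T : ℝ in atTop, ∀ j ∈ Finset.range J, ∀ H : ℝ, κ * T ≤ H → H ≤ T / 2 →
      (2 - cc 1) * Sm riemannZeta T (T + H) (fun s => ramp j (φ s.im / q) ^ 2) -
        10 * Sm riemannZeta T (T + H) (tr fun t => ramp j (φ t / q)) -
          ε' * NN riemannZeta T (T + H) ≤
        cS riemannZeta T (T + H) (fun t => ramp j (φ t / q)) ∧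
      (3 - cc 1) * Sm riemannZeta T (T + H) (fun s => ramp j (φ s.im / q) ^ 2) -
        10 * Sm riemannZeta T (T + H) (tr fun t => ramp j (φ t / q)) -
          ε' * NN riemannZeta T (T + H) ≤
        2 * cD riemannZeta T (T + H) (fun t => ramp j (φ t / q)) := by
    rw [eventually_all_finset]
    intro j _
    have hAP : APu fun t => ramp j (φ t / q) :=
      APu_comp (APm_APu hφ) (f := fun x => ramp j (x / q)) ((ramp_cont j).comp (by fun_prop))
    obtain ⟨T0, _, hT0⟩ := star (fun t => ramp_nonneg j (φ t / q)) (fun t => ramp_le j (φ t / q))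
      hAP hκ hε'0
    filter_upwards [eventually_ge_atTop T0] with T hT H hH1 hH2 using hT0 T hT H hH1 hH2
  obtain ⟨T1, hT1⟩ := hstar.exists_forall_of_atTop
  obtain ⟨T2, hT2, hmean⟩ := mean hφ hκ (ε := ε / 8) (by positivity)
  refine ⟨max T1 T2, hT2.trans (le_max_right _ _), fun T hT H hH1 hH2 => ?_⟩
  have hTT1 : T1 ≤ T := (le_max_left _ _).trans hT
  have hTT2 : T2 ≤ T := (le_max_right _ _).trans hT
  have hA : 1 ≤ T := by linarith
  have h1 := fun j hj => hT1 T hTT1 j hj H hH1 hH2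
  have h2 := hmean T hTT2 H hH1 hH2
  set N : ℝ := (NN riemannZeta T (T + H) : ℝ) with hN
  have hN0 : 0 ≤ N := Nat.cast_nonneg _
  have s1 := cS_sum (F := riemannZeta) (A := T) (B := T + H) hφ0 hq0 J
  have s2 := cD_sum (F := riemannZeta) (A := T) (B := T + H) hφ0 hq0 J
  have s3 := sq_sum hF (B := T + H) hA hφ0 hq0 hJφ
  have s4 := tr_sum hF (B := T + H) hA (φ := φ) (q := q) J
  have s5 := card_le_NN hF (B := T + H) hA
  have s6 : (((Zf riemannZeta T (T + H)).filter fun s => s.re = 1 / 2 ∧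
      mult riemannZeta s = 1).card : ℝ) ≤ N := by
    refine le_trans ?_ s5
    exact_mod_cast Finset.card_filter_le _ _
  rw [← hN] at s3 s4 s5
  set AA := Sm riemannZeta T (T + H) (fun s => φ s.im) with hAA
  set SQ := ∑ j ∈ Finset.range J, Sm riemannZeta T (T + H) (fun s => ramp j (φ s.im / q) ^ 2) with hSQ
  set TR := ∑ j ∈ Finset.range J, Sm riemannZeta T (T + H) (tr fun t => ramp j (φ t / q)) with hTR
  have hk : ∀ k : ℝ, cc 1 ≤ k → k ≤ 3 → (k - cc 1) * M * N - (3 * (ε / 8) + 13 * q + ε / 8) * N ≤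
      q * ((k - cc 1) * SQ - 10 * TR - J * (ε' * N)) := by
    intro k hk1 hk2
    have a1 : 0 ≤ k - cc 1 := by linarith
    have a2 : M * N - ε / 8 * N ≤ AA := by
      have := (abs_le.1 h2).1
      linarith
    have a3 : (k - cc 1) * (M * N - ε / 8 * N - q * N) ≤ (k - cc 1) * (q * SQ) :=
      mul_le_mul_of_nonneg_left (by linarith) a1
    have a4 : (k - cc 1) * (ε / 8 * N + q * N) ≤ 3 * (ε / 8 * N + q * N) :=
      mul_le_mul_of_nonneg_right (by linarith) (by positivity)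
    have a5 : q * (10 * TR) ≤ q * (10 * N) := by gcongr
    have a6 : q * J * ε' * N ≤ ε / 8 * N := by gcongr
    linarith
  have hsum1 : (2 - cc 1) * SQ - 10 * TR - J * (ε' * N) ≤
      ∑ j ∈ Finset.range J, (cS riemannZeta T (T + H) (fun t => ramp j (φ t / q)) : ℝ) := by
    have := Finset.sum_le_sum fun j hj => (h1 j hj).1
    refine le_trans (le_of_eq ?_) this
    rw [Finset.sum_sub_distrib, Finset.sum_sub_distrib, ← Finset.mul_sum, ← Finset.mul_sum,
      Finset.sum_const, Finset.card_range, nsmul_eq_mul]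
  have hsum2 : (3 - cc 1) * SQ - 10 * TR - J * (ε' * N) ≤
      2 * ∑ j ∈ Finset.range J, (cD riemannZeta T (T + H) (fun t => ramp j (φ t / q)) : ℝ) := by
    have := Finset.sum_le_sum fun j hj => (h1 j hj).2
    rw [← Finset.mul_sum] at this
    refine le_trans (le_of_eq ?_) this
    rw [Finset.sum_sub_distrib, Finset.sum_sub_distrib, ← Finset.mul_sum, ← Finset.mul_sum,
      Finset.sum_const, Finset.card_range, nsmul_eq_mul]
  have k2 := hk 2 (by linarith) (by norm_num)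
  have k3 := hk 3 (by linarith) le_rfl
  have e1 := mul_le_mul_of_nonneg_left hsum1 hq0.le
  have e2 := mul_le_mul_of_nonneg_left hsum2 hq0.le
  have e3 : q * (((Zf riemannZeta T (T + H)).filter fun s => s.re = 1 / 2 ∧
      mult riemannZeta s = 1).card : ℝ) ≤ q * N := by gcongr
  have e4 : q * ((Zf riemannZeta T (T + H)).card : ℝ) ≤ q * N := by gcongr
  have e5 : 0 ≤ ε * N := by positivity
  have e6 : q * N = ε * N / 40 := by rw [hq]; ring
  constructor
  · nlinarith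
  · nlinarith

/-! ### splitting -/

section

variable {F : ℂ → ℂ} (hF : GoodL F)

include hF in
lemma Zf_split {A B C : ℝ} (hA : 1 ≤ A) (hAB : A ≤ B) (hBC : B ≤ C) {M : Type*} [AddCommMonoid M]
    (f : ℂ → M) : ∑ s ∈ Zf F A C, f s = ∑ s ∈ Zf F A B, f s + ∑ s ∈ Zf F B C, f s := by
  classical
  rw [← Finset.sum_union]
  · congr 1
    ext s
    rw [Finset.mem_union, mem_Zf hF hA, mem_Zf hF hA, mem_Zf hF (hA.trans hAB)]
    simp only [zset, Set.mem_ofPred_eq]
    constructor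
    · rintro ⟨h1, h2, h3, h4, h5⟩
      rcases le_or_gt s.im B with h | h
      · exact Or.inl ⟨h1, h2, h3, h, h5⟩
      · exact Or.inr ⟨h1, h2, h, h4, h5⟩
    · rintro (⟨h1, h2, h3, h4, h5⟩ | ⟨h1, h2, h3, h4, h5⟩)
      · exact ⟨h1, h2, h3, h4.trans hBC, h5⟩
      · exact ⟨h1, h2, lt_of_le_of_lt hAB h3, h4, h5⟩
  · rw [Finset.disjoint_left]
    intro s hs hs'
    rw [mem_Zf hF hA] at hs
    rw [mem_Zf hF (hA.trans hAB)] at hs'
    have h1 := hs.2.2.2.1
    have h2 := hs'.2.2.1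
    linarith

end

/-- **almost periodic weights** -/
theorem weights {φ : ℝ → ℝ} {M : ℝ} (hφ : APm φ M) (hφ0 : ∀ t, 0 ≤ φ t) {κ ε : ℝ}
    (hκ : 0 < κ) (hε : 0 < ε) :
    ∃ T0 : ℝ, 10 ≤ T0 ∧ ∀ T : ℝ, T0 ≤ T → ∀ H : ℝ, κ * T ≤ H → H ≤ T →
      ((2 - cc 1) * M - ε) * NN riemannZeta T (T + H) ≤ W1 riemannZeta T (T + H) φ ∧
      ((3 - cc 1) / 2 * M - ε) * NN riemannZeta T (T + H) ≤ Wd riemannZeta T (T + H) φ := by
  classical
  have hF : GoodL riemannZeta := good_zeta
  obtain ⟨T0, hT0, h⟩ := weights_half hφ hφ0 (κ := κ / 3) (by positivity) hε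
  refine ⟨T0, hT0, fun T hT H hH1 hH2 => ?_⟩
  have hT10 : 10 ≤ T := hT0.trans hT
  have hTp : 0 < T := by linarith
  have hκT : 0 < κ * T := by positivity
  have hHp : 0 < H := by linarith
  obtain ⟨a1, a2⟩ := h T hT (H / 2) (by linarith) (by linarith)
  obtain ⟨b1, b2⟩ := h (T + H / 2) (by linarith) (H / 2) (by
    have : κ * H ≤ κ * T := by gcongr
    linarith) (by linarith)
  have e : T + H / 2 + H / 2 = T + H := by ring
  rw [e] at b1 b2
  have hA : 1 ≤ T := by linarith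
  have hAB : T ≤ T + H / 2 := by linarith
  have hBC : T + H / 2 ≤ T + H := by linarith
  have c1 : (NN riemannZeta T (T + H) : ℝ) = NN riemannZeta T (T + H / 2) +
      NN riemannZeta (T + H / 2) (T + H) := by
    rw [NN_eq hF hA, NN_eq hF hA, NN_eq hF (hA.trans hAB), Zf_split hF hA hAB hBC]
    push_cast
    rfl
  have c2 : Wd riemannZeta T (T + H) φ = Wd riemannZeta T (T + H / 2) φ +
      Wd riemannZeta (T + H / 2) (T + H) φ := by
    unfold Wd
    rw [Zf_split hF hA hAB hBC]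
  have c3 : W1 riemannZeta T (T + H) φ = W1 riemannZeta T (T + H / 2) φ +
      W1 riemannZeta (T + H / 2) (T + H) φ := by
    unfold W1
    rw [Finset.sum_filter, Finset.sum_filter, Finset.sum_filter, Zf_split hF hA hAB hBC]
  rw [c1, c2, c3]
  constructor <;> linarith

end Pool.Agent.H493.BS
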