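import Pool.Agent.H493.BS.Asm
import Pool.Graph.R_seed8.TH803.TW.AP

/-! The weighted counting theorem for a weight with values in `[0, 1]`. -/

set_option autoImplicit false

open Complex Filter Topology Set MeasureTheory
open scoped BigOperators ComplexConjugate

namespace Pool.Agent.H493.BS

open H370 H370.A2 H370.AS TH803TW H295SI H143TG

lemma cc_one_le : cc 1 ≤ 1.3275 := by
  have h := Pool.Agent.W354.ZP.cMTinv_sharp
  unfold H370.cMTinv at h
  unfold cc
  exact h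

/-- the numerical part of the error -/
lemma err_P {N' m0 θ δ Y0 Y1 Y2 C K1 K2 u Tr P : ℝ} (hN : N' ≤ 2 * m0) (hm : 0 < m0) (hθ : 0 < θ)
    (hδ : 0 ≤ δ) (hδ1 : 200 * δ ≤ θ) (hP : P = 25 * δ * N' + 12 * C * Y1 + 10 * Tr + K2 * Y2 +
      12 * δ ^ 2 * Y0) (hC : 0 ≤ C) (hK1 : 0 ≤ K1) (hK2 : 0 ≤ K2) (hY1 : Y1 ≤ u) (hY2 : Y2 ≤ u)
    (hu0 : 0 ≤ u)
    (hu : (K1 + 12 * C + K2) * u ≤ θ / 8 * m0) (hY0 : 12 * δ ^ 2 * Y0 ≤ θ / 4 * m0) :
    P ≤ 10 * Tr + θ * m0 := by
  have h1 : 25 * δ * N' ≤ 25 * δ * (2 * m0) := by gcongr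
  have h2 : 12 * C * Y1 ≤ 12 * C * u := by gcongr
  have h3 : K2 * Y2 ≤ K2 * u := by gcongr
  have h4 : 0 ≤ K1 * u := by positivity
  have h5 : 200 * δ * m0 ≤ θ * m0 := by gcongr
  have h6 : 0 < θ * m0 := by positivity
  rw [hP]
  linarith

theorem star {G0 : ℝ → ℝ} (h0 : ∀ t, 0 ≤ G0 t) (h1 : ∀ t, G0 t ≤ 1) (hAP : APu G0) {κ ε : ℝ}
    (hκ : 0 < κ) (hε : 0 < ε) :
    ∃ T0 : ℝ, 10 ≤ T0 ∧ ∀ T : ℝ, T0 ≤ T → ∀ H : ℝ, κ * T ≤ H → H ≤ T / 2 →
      (2 - cc 1) * Sm riemannZeta T (T + H) (fun s => G0 s.im ^ 2) -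
        10 * Sm riemannZeta T (T + H) (tr G0) - ε * NN riemannZeta T (T + H) ≤
        cS riemannZeta T (T + H) G0 ∧
      (3 - cc 1) * Sm riemannZeta T (T + H) (fun s => G0 s.im ^ 2) -
        10 * Sm riemannZeta T (T + H) (tr G0) - ε * NN riemannZeta T (T + H) ≤
        2 * cD riemannZeta T (T + H) G0 := by
  have hF : GoodL riemannZeta := good_zeta
  set F := riemannZeta with hFz
  obtain ⟨Cd, hCd, hmom⟩ := moments
  rw [← hFz] at hmom
  have hs2 : 0 < Real.sqrt 2 := Real.sqrt_pos.2 (by norm_num)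
  set s : ℝ := Real.sqrt 2 * 1 with hs
  have hs0 : 0 < s := by positivity
  have hs1 : s ≤ Real.sqrt 2 := by rw [hs, mul_one]
  have hW := H255SI.winS s hs0 hs1
  have hC := H793SI.convS s hs0 hs1
  have hK := H218SI3.kSqS s hs0 hs1
  have hc := H228SI.constS 1 one_pos le_rfl
  rw [← hs] at hc
  set R : ℝ → ℝ := RS s with hR
  set J : ℝ := ∫ α in (0 : ℝ)..1, α * R α with hJ
  have hJ0 : 0 ≤ J := by
    apply intervalIntegral.integral_nonneg (by norm_num)
    intro u hu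
    exact mul_nonneg hu.1 (hC.nonneg u)
  have hR0 : 0 ≤ R 0 := hC.nonneg 0
  have hcR : ∀ x, cR R x = R 0 / x + 2 * x * J := fun x => rfl
  have hcc0 : 0 ≤ cc 1 := by
    rw [← hc, hcR]
    positivity
  have hcc1 := cc_one_le
  set e : ℝ := min ε 1 with he
  have he0 : 0 < e := lt_min hε one_pos
  have he1 : e ≤ ε := min_le_left _ _
  have he2 : e ≤ 1 := min_le_right _ _
  set θ : ℝ := e / 100 with hθ
  have hθ0 : 0 < θ := by positivity
  have hθ1 : θ ≤ 1 / 100 := by rw [hθ]; linarith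
  set η : ℝ := θ / 8 with hη
  have hη0 : 0 < η := by positivity
  set d : ℝ := min (1 / 2) (η / (2 * (R 0 + 1))) with hd
  have hd0 : 0 < d := lt_min (by norm_num) (by positivity)
  have hd1 : d ≤ 1 / 2 := min_le_left _ _
  have hd2 : d * (2 * (R 0 + 1)) ≤ η := by
    have := min_le_right (1 / 2) (η / (2 * (R 0 + 1)))
    rw [← hd, le_div_iff₀ (by positivity)] at this
    exact this
  have hcd : cR R (1 - d) ≤ cc 1 + η := by
    rw [hcR, ← hc, hcR]
    have hhd : 0 < 1 - d := by linarith only [hd1]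
    have h5 : R 0 / (1 - d) ≤ R 0 / 1 + η := by
      rw [div_le_iff₀ hhd, div_one, add_mul]
      have k1 : d * R 0 ≤ η / 2 := by nlinarith only [hd2, hd0, hR0]
      have k2 : η * (1 / 2) ≤ η * (1 - d) := by
        gcongr
        linarith only [hd1]
      nlinarith only [k1, k2]
    have h7 : 2 * (1 - d) * J ≤ 2 * 1 * J := by nlinarith only [hd0, hJ0]
    linarith only [h5, h7]
  -- the polynomial
  set δ : ℝ := θ / (200 + 400 * (Cd / κ)) with hδ
  have hCκ : 0 < Cd / κ := by positivity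
  have hδ0 : 0 < δ := by positivity
  have hδe : δ * (200 + 400 * (Cd / κ)) = θ := by rw [hδ]; field_simp
  have hδ200 : 200 * δ ≤ θ := by
    have : 0 ≤ δ * (400 * (Cd / κ)) := by positivity
    linarith only [this, hδe]
  have hδC : 400 * (δ * (Cd / κ)) ≤ θ := by linarith only [hδe, hδ0]
  have hδ1 : δ ≤ 1 / 10 := by linarith only [hδ200, hθ1]
  obtain ⟨S, c, hSc⟩ := hAP δ hδ0
  obtain ⟨n, b, τ, hb1, hreal⟩ := GG_exists S c
  have hap : ∀ t : ℝ, ‖GG b τ t - G0 t‖ ≤ δ := by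
    intro t
    rw [hb1, ← Complex.ofReal_sub, Complex.norm_real, Real.norm_eq_abs, abs_sub_comm]
    exact hSc t
  have hCG := CG_nonneg b τ
  set y0 : ℝ := min (1 / 2) (δ / (CG b τ + 1)) with hy0
  have hy00 : 0 < y0 := lt_min (by norm_num) (by positivity)
  have hy01 : y0 ≤ 1 / 2 := min_le_left _ _
  have hy02 : CG b τ * y0 ≤ δ := by
    have h2 : y0 ≤ δ / (CG b τ + 1) := min_le_right _ _
    rw [le_div_iff₀ (by positivity)] at h2
    linarith only [h2, hy00]
  set K1 : ℝ := 4 * (2 * (2 + CG b τ) ^ 3 + 30) * CG b τ with hK1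
  set K2 : ℝ := 10 / y0 ^ 2 + 20 * CG b τ ^ 2 with hK2
  have hK10 : 0 ≤ K1 := by positivity
  have hK20 : 0 ≤ K2 := by positivity
  set Kb : ℝ := K1 + 12 * CG b τ + K2 with hKb
  have hKb0 : 0 ≤ Kb := by positivity
  have hPS := H613SI.pairShort H627SI.lamSmooth H228SI.qqJJ H965SI.countShort
    (H804JJ.jjShort H399SI.explShort Pool.Agent.H431R2.SI.outerShort)
  obtain ⟨T2, hT2, hPC⟩ := hPS (gS s) R hW hC hK F hF (1 - d / 2) (d / 2) η (by positivity)
    (by linarith) (by linarith) hη0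
  obtain ⟨C, hC0, hends⟩ := H965SI.countShort F hF
  obtain ⟨a, ha, hld⟩ := hF.ld
  obtain ⟨T3, hT3, hwt⟩ := quad b τ hF ha hld hC (H228SI.R_cont hC) hK (1 - d / 4) (d / 4) (1 - d) η
    (by positivity) (by linarith) (by linarith) (by linarith) hη0
  -- large T
  have ev3 : ∀ᶠ T : ℝ in atTop, T ^ (1 - d / 4) ≤ κ * T - 2 := by
    have h1 : ∀ᶠ T : ℝ in atTop, (2 / κ : ℝ) ≤ T ^ (d / 4) :=
      (tendsto_rpow_atTop (by positivity)).eventually_ge_atTop _
    have h2 : ∀ᶠ T : ℝ in atTop, (2 : ℝ) ≤ T ^ (1 - d / 4) :=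
      (tendsto_rpow_atTop (by linarith)).eventually_ge_atTop _
    filter_upwards [h1, h2, eventually_gt_atTop (0 : ℝ)] with T h3 h4 h5
    have h6 : T = T ^ (1 - d / 4) * T ^ (d / 4) := by
      rw [← Real.rpow_add h5, sub_add_cancel, Real.rpow_one]
    rw [div_le_iff₀ hκ] at h3
    have h7 : κ * T = T ^ (1 - d / 4) * (T ^ (d / 4) * κ) := by
      nth_rewrite 1 [h6]
      ring
    rw [h7]
    nlinarith only [h3, h4]
  have ev4 : ∀ᶠ T : ℝ in atTop, 2 / d + 2 ≤ Real.log T :=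
    Real.tendsto_log_atTop.eventually_ge_atTop _
  have ev5 : ∀ᶠ T : ℝ in atTop, Kb * (56 * (Cd / κ)) / θ ≤ Real.log T :=
    Real.tendsto_log_atTop.eventually_ge_atTop _
  have ev6 : ∀ᶠ T : ℝ in atTop, 7 * C / (θ * κ) ≤ T := eventually_ge_atTop _
  have ev7 : ∀ᶠ T : ℝ in atTop, 3 / κ ≤ T := eventually_ge_atTop _
  obtain ⟨T4, hT4⟩ := ((ev3.and ev4).and ((ev5.and ev6).and ev7)).exists_forall_of_atTop
  refine ⟨max (max 10 T2) (max (T3 + 1) T4), (le_max_left _ _).trans (le_max_left _ _),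
    fun T hT H hH1 hH2 => ?_⟩
  have hT10 : 10 ≤ T := ((le_max_left _ _).trans (le_max_left _ _)).trans hT
  have hTT2 : T2 ≤ T := ((le_max_right _ _).trans (le_max_left _ _)).trans hT
  have hTT3 : T3 ≤ T - 1 := by
    have := ((le_max_left _ _).trans (le_max_right _ _)).trans hT
    linarith only [this]
  obtain ⟨⟨a3, a4⟩, ⟨a5, a6⟩, a7⟩ := hT4 T (((le_max_right _ _).trans (le_max_right _ _)).trans hT)
  have hTpos : 0 < T := by linarith only [hT10]
  set L := Real.log T with hL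
  have hL1 : 1 ≤ L := by
    have : 0 < 2 / d := by positivity
    linarith only [this, a4]
  have hL0 : 0 < L := by linarith
  have hH3 : 3 ≤ H := by
    rw [div_le_iff₀ hκ] at a7
    linarith
  have hHpos : 0 < H := by linarith
  have hHT : H ≤ T := by linarith
  have hpowH : T ^ (1 - d / 2) ≤ H := by
    have h1 : T ^ (1 - d / 2) ≤ T ^ (1 - d / 4) :=
      Real.rpow_le_rpow_of_exponent_le (by linarith only [hT10]) (by linarith only [hd0])
    linarith only [h1, a3, hH1]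
  obtain ⟨U1, U2, hU1, hU1', hU2, hU2', hNN, hQQ⟩ := hPC T hTT2 H hpowH hHT
  set m : ℝ := H * L / (2 * Real.pi) with hm
  have hpi := Real.pi_pos
  have hpi2 : Real.pi < 3.15 := Real.pi_lt_d2
  have hpi3 : 3.14 < Real.pi := Real.pi_gt_d2
  have hm0 : 0 < m := by positivity
  have hHL : H * L = 2 * Real.pi * m := by rw [hm]; field_simp
  have hHL7 : H * L ≤ 7 * m := by rw [hHL]; nlinarith only [hm0, hpi2]
  -- the log of T - 1
  have hlog1 : Real.log (T - 1) ≤ L := Real.log_le_log (by linarith only [hT10]) (by linarith only [])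
  have hlog2 : L - 1 ≤ Real.log (T - 1) := by
    have h1 : T / Real.exp 1 ≤ T - 1 := by
      rw [div_le_iff₀ (Real.exp_pos _)]
      have := Real.exp_one_gt_d9
      nlinarith only [this, hT10]
    have h2 := Real.log_le_log (by positivity) h1
    rw [Real.log_div (by linarith only [hT10]) (Real.exp_pos 1).ne', Real.log_exp] at h2
    exact h2
  set Λ : ℝ := (1 - d) * L with hΛ
  have hΛe : (1 - d / 2 - d / 2) * L = Λ := by rw [hΛ]; ring
  have hΛ0 : 0 < Λ := by
    have : 0 < 1 - d := by linarith only [hd1]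
    positivity
  have hΛL : Λ ≤ L := by
    rw [hΛ]; nlinarith only [hd0, hL0]
  have hlam1 : (1 - d) * Real.log (T - 1) ≤ Λ :=
    mul_le_mul_of_nonneg_left hlog1 (by linarith only [hd1])
  have hlam2 : Λ ≤ (1 - d / 4 - d / 4) * Real.log (T - 1) := by
    have h1 : (1 - d / 4 - d / 4) * (L - 1) ≤ (1 - d / 4 - d / 4) * Real.log (T - 1) :=
      mul_le_mul_of_nonneg_left hlog2 (by linarith only [hd1])
    have h2 : 2 ≤ d * L := by
      have h3 : 2 / d ≤ L := by linarith only [a4]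
      rw [div_le_iff₀ hd0] at h3
      linarith only [h3]
    rw [hΛ]
    nlinarith only [h1, h2, hd0, hd1]
  have hpow2 : (T - 1) ^ (1 - d / 4) ≤ U2 - U1 := by
    have h1 : (T - 1) ^ (1 - d / 4) ≤ T ^ (1 - d / 4) :=
      Real.rpow_le_rpow (by linarith only [hT10]) (by linarith only []) (by linarith only [hd1])
    linarith only [h1, a3, hH1, hU1', hU2]
  obtain ⟨w1, w2⟩ := hwt (T - 1) hTT3 U1 U2 (by linarith only [hU1])
    (by linarith only [hU2', hH2, hT10]) hpow2 Λ hlam1 hlam2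
  have hU : 1 ≤ U1 := by linarith only [hU1, hT10]
  have hUH : (U2 - U1) * Real.log (T - 1) ≤ 7 * m := by
    refine le_trans ?_ hHL7
    have h1 : 0 ≤ Real.log (T - 1) := by linarith only [hlog2, hL1]
    calc (U2 - U1) * Real.log (T - 1) ≤ H * Real.log (T - 1) := by
          gcongr; linarith only [hU1, hU2']
      _ ≤ H * L := by gcongr
  have hηUH : η * ((U2 - U1) * Real.log (T - 1)) ≤ θ * m := by
    have := mul_le_mul_of_nonneg_left hUH hη0.le
    rw [hη] at this ⊢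
    have h2 : 0 < θ * m := by positivity
    linarith only [this, h2]
  set N' : ℝ := (NN F U1 U2 : ℝ) with hN'
  set N : ℝ := (NN F T (T + H) : ℝ) with hN
  have hNN2 : |N' - m| ≤ θ * m := by
    refine hNN.trans ?_
    have := mul_le_mul_of_nonneg_left hHL7 hη0.le
    have h2 : 0 < θ * m := by positivity
    rw [hη] at this ⊢
    linarith only [this, h2]
  obtain ⟨n1, n2⟩ := abs_le.mp hNN2
  have hθm : 0 < θ * m := by positivity
  have hθm1 : θ * m ≤ m / 100 := by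
    have := mul_le_mul_of_nonneg_right hθ1 hm0.le
    linarith only [this]
  have hN'2 : N' ≤ 2 * m := by linarith only [n2, hθm1, hm0]
  have hend := (hends T hT10 H hH3 hHT U1 U2 hU1 hU1' hU2 hU2').2
  rw [← hN, ← hN', ← hL] at hend
  have hmono : N' ≤ N := by
    rw [hN, hN']
    exact_mod_cast NN_mono hF (by linarith only [hT10]) hU1 hU2'
  have hHm : κ * T * L ≤ 7 * m := by
    have : κ * T * L ≤ H * L := by gcongr
    linarith only [this, hHL7]
  have hCL1 : C * L ≤ θ * m := by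
    rw [div_le_iff₀ (by positivity)] at a6
    have h2 : 7 * C * L ≤ θ * (κ * T * L) := by
      calc 7 * C * L ≤ (T * (θ * κ)) * L := by gcongr
        _ = _ := by ring
    have h3 : θ * (κ * T * L) ≤ θ * (7 * m) := by gcongr
    linarith only [h2, h3]
  have hdiff1 : N - N' ≤ θ * m := by linarith only [hend, hCL1]
  -- the moments
  obtain ⟨m1, m2, m3⟩ := hmom T U1 U2 Λ (by linarith only [hT10]) hU
    (by linarith only [hU2', hHT]) hΛ0.le hΛL
  set u : ℝ := 7 * (Cd / κ) * m / L with hu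
  have hu0 : 0 ≤ u := by positivity
  have hCT : Cd * T ≤ u := by
    rw [hu, le_div_iff₀ hL0]
    calc Cd * T * L = (Cd / κ) * (κ * T * L) := by field_simp
      _ ≤ (Cd / κ) * (7 * m) := by gcongr
      _ = _ := by ring
  have hY1 : Sm F U1 U2 dl ≤ u := m1.trans hCT
  have hY2 : Sm F U1 U2 (fun s => dl s ^ 2 * Real.exp (Λ * dl s)) ≤ u := by
    refine m2.trans (le_trans ?_ hCT)
    rw [← hL]
    exact div_le_self (by positivity) hL1
  have hub : Kb * u ≤ θ / 8 * m := by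
    rw [div_le_iff₀ hθ0] at a5
    rw [hu, mul_div_assoc', div_le_iff₀ hL0]
    have h2 : m * (Kb * (56 * (Cd / κ))) ≤ m * (L * θ) := by gcongr
    linarith only [h2]
  have hY0 : 12 * δ ^ 2 * Sm F U1 U2 (fun s => Real.exp (Λ * dl s)) ≤ θ / 4 * m := by
    have h2 : Cd * (T * L) ≤ 7 * (Cd / κ) * m := by
      calc Cd * (T * L) = (Cd / κ) * (κ * T * L) := by field_simp
        _ ≤ (Cd / κ) * (7 * m) := by gcongr
        _ = _ := by ring
    calc 12 * δ ^ 2 * Sm F U1 U2 (fun s => Real.exp (Λ * dl s)) ≤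
        12 * δ ^ 2 * (7 * (Cd / κ) * m) := by
          gcongr
          exact m3.trans h2
      _ = 84 * δ * (δ * (Cd / κ)) * m := by ring
      _ ≤ 84 * 1 * (θ / 400) * m := by
          have : δ * (Cd / κ) ≤ θ / 400 := by linarith only [hδC]
          gcongr
          linarith only [hδ1]
      _ ≤ θ / 4 * m := by linarith only [hθm]
  -- the right side
  set Q : ℝ := QQG (gS s) F Λ U1 U2 with hQd
  have hQ0 : 0 ≤ Q := QQG_nonneg hF hW hC hK hU
  have hQ1 : Q ≤ m * (cc 1 + θ) := by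
    rw [hΛe] at hQQ
    refine hQQ.trans ?_
    have e1 : (1 : ℝ) - d / 2 - d / 2 = 1 - d := by ring
    rw [e1]
    apply mul_le_mul_of_nonneg_left _ hm0.le
    rw [hη] at hcd ⊢
    linarith only [hcd, hθ0]
  rw [PW2_zero hF hC hK hU hΛ0, ← hQd] at w1
  have hQ4 : (Q4 b τ (gS s) F Λ U1 U2).re ≤ (M4 b τ).re * Q + θ * m := by
    have h2 := (Complex.abs_re_le_norm _).trans w1
    rw [Complex.sub_re, Complex.re_mul_ofReal] at h2
    linarith only [(abs_le.1 h2).2, hηUH]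
  set X : ℝ := (∑ s ∈ Zf F U1 U2, (mult F s : ℂ) * GG b τ (zz s) ^ 4).re with hX
  have hM : (M4 b τ).re * N' ≤ X + θ * m := by
    have h2 := (Complex.abs_re_le_norm _).trans w2
    have e1 : (NN F U1 U2 : ℂ) = ((N' : ℝ) : ℂ) := by rw [hN']; push_cast; rfl
    rw [e1, Complex.sub_re, Complex.re_mul_ofReal] at h2
    linarith only [(abs_le.1 h2).1, hηUH]
  have hWm : ∀ s ∈ Zf F U1 U2, |(zz s).im| ≤ 1 / 2 ∧ |(zz s).im| = dl s := by
    intro s hs
    have := (mem_Zf hF hU).mp hs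
    refine ⟨?_, ?_⟩
    · rw [zz_im, abs_neg, abs_le]
      constructor <;> linarith [this.1, this.2.1]
    · rw [zz_im, abs_neg]
      rfl
  set A2 : ℝ := Sm F U1 U2 (fun s => G0 s.im ^ 2) with hA2
  have hXA : X ≤ A2 + θ * m := by
    have h2 : X ≤ Sm F U1 U2 (fun s => G0 s.im ^ 2 + (36 * δ * 1 + K1 * dl s)) := by
      rw [hX, Complex.re_sum]
      unfold Sm
      refine Finset.sum_le_sum fun s hs => ?_
      obtain ⟨h3, h4⟩ := hWm s hs
      have h5 := G_four b τ h0 h1 hδ0.le hδ1 hap (zz s) h3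
      rw [h4, zz_re] at h5
      have e1 : ((mult F s : ℂ) * GG b τ (zz s) ^ 4).re = (mult F s : ℝ) * (GG b τ (zz s) ^ 4).re := by
        rw [← Complex.ofReal_natCast, Complex.re_ofReal_mul]
      rw [e1]
      apply mul_le_mul_of_nonneg_left _ (Nat.cast_nonneg _)
      have h6 : (GG b τ (zz s) ^ 4).re ≤ ‖GG b τ (zz s)‖ ^ 4 := by
        rw [← norm_pow]; exact Complex.re_le_norm _
      refine (h6.trans h5).trans (le_of_eq ?_)
      rw [hK1]; ring
    refine h2.trans ?_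
    rw [Sm_add, Sm_add, Sm_mul, Sm_mul, Sm_one hF hU, ← hA2, ← hN']
    have h3 : 36 * δ * N' ≤ 36 * δ * (2 * m) := by gcongr
    have h4 : K1 * Sm F U1 U2 dl ≤ K1 * u := by gcongr
    have h5 : K1 * u ≤ Kb * u := by
      apply mul_le_mul_of_nonneg_right _ hu0
      have : 0 ≤ 12 * CG b τ := by positivity
      linarith only [hKb, this, hK20]
    have h6 : 200 * δ * m ≤ θ * m := by gcongr
    linarith only [h3, h4, h5, h6, hub, hθm]
  have hA20 : 0 ≤ A2 := Sm_nonneg fun s => sq_nonneg _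
  have hA21 : A2 ≤ N' := by
    rw [hN', ← Sm_one hF hU]
    refine Sm_mono fun s _ => ?_
    exact pow_le_one₀ (h0 _) (h1 _)
  set Tr : ℝ := Sm F U1 U2 (tr G0) with hTr
  have hP : Sm F U1 U2 (pe G0 (CG b τ) δ y0 Λ) ≤ 10 * Tr + θ * m := by
    have e1 : Sm F U1 U2 (pe G0 (CG b τ) δ y0 Λ) = 25 * δ * N' + 12 * CG b τ * Sm F U1 U2 dl +
        10 * Tr + K2 * Sm F U1 U2 (fun s => dl s ^ 2 * Real.exp (Λ * dl s)) +
        12 * δ ^ 2 * Sm F U1 U2 (fun s => Real.exp (Λ * dl s)) := by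
      rw [hN', ← Sm_one hF hU, hTr]
      unfold Sm pe
      rw [Finset.mul_sum, Finset.mul_sum, Finset.mul_sum, Finset.mul_sum, Finset.mul_sum,
        ← Finset.sum_add_distrib, ← Finset.sum_add_distrib, ← Finset.sum_add_distrib,
        ← Finset.sum_add_distrib]
      refine Finset.sum_congr rfl fun s _ => ?_
      rw [hK2]
      ring
    exact err_P hN'2 hm0 hθ0 hδ0.le hδ200 e1 hCG hK10 hK20 hY1 hY2 hu0 hub hY0
  obtain ⟨t1, t2⟩ := star_core b τ h0 h1 hδ0.le hδ1 hap hreal hW hF hU hΛ0.le hy00 hy01 hy02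
  rw [← hA2] at t1 t2
  have r1 := numer hcc0 (by linarith only [hcc1]) hm0 hθ0 hθ1 hNN2 hQ0 hQ1 hQ4 hM hXA hA20 hA21 hP t1
  have r2 := numer hcc0 (by linarith only [hcc1]) hm0 hθ0 hθ1 hNN2 hQ0 hQ1 hQ4 hM hXA hA20 hA21 hP t2
  -- transfer to the whole interval
  have hT1 : 1 ≤ T := by linarith only [hT10]
  obtain ⟨x1, x2⟩ := Sm_ext hF (A := U1) (B := U2) (A' := T) (B' := T + H) hT1 hU1 hU2'
    (f := fun s => G0 s.im ^ 2) (fun s => sq_nonneg _) (D := 1) (fun s => pow_le_one₀ (h0 _) (h1 _))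
  obtain ⟨x3, -⟩ := Sm_ext hF (A := U1) (B := U2) (A' := T) (B' := T + H) hT1 hU1 hU2'
    (f := tr G0) (fun s => by unfold tr; split_ifs <;> norm_num) (D := 1)
    (fun s => by unfold tr; split_ifs <;> norm_num)
  obtain ⟨x4, x5⟩ := cS_mono hF (A := U1) (B := U2) (A' := T) (B' := T + H) hT1 hU1 hU2' G0
  have x4' : (cS F U1 U2 G0 : ℝ) ≤ cS F T (T + H) G0 := by exact_mod_cast x4
  have x5' : (cD F U1 U2 G0 : ℝ) ≤ cD F T (T + H) G0 := by exact_mod_cast x5
  rw [← hA2, ← hN, ← hN', one_mul] at x2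
  rw [← hTr] at x3
  have hfin : 17 * (θ * m) ≤ ε * N := by
    have h2 : m ≤ 2 * N := by linarith only [n1, hmono, hθm1, hm0]
    have hN0 : 0 ≤ N := by linarith only [h2, hm0]
    have h3 : e * N ≤ ε * N := by gcongr
    have h4 : θ * m ≤ θ * (2 * N) := by gcongr
    have h5 : θ * (2 * N) = e * N / 50 := by rw [hθ]; ring
    have h6 : 0 ≤ e * N := by positivity
    linarith only [h3, h4, h5, h6]
  have hk : ∀ k : ℝ, cc 1 ≤ k → k ≤ 3 → (k - cc 1) * Sm F T (T + H) (fun s => G0 s.im ^ 2) ≤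
      (k - cc 1) * A2 + 3 * (θ * m) := by
    intro k hk1 hk2
    have h2 : Sm F T (T + H) (fun s => G0 s.im ^ 2) ≤ A2 + θ * m := by linarith only [x2, hdiff1]
    have h3 : (k - cc 1) * Sm F T (T + H) (fun s => G0 s.im ^ 2) ≤ (k - cc 1) * (A2 + θ * m) :=
      mul_le_mul_of_nonneg_left h2 (by linarith only [hk1])
    have h4 : (k - cc 1) * (θ * m) ≤ 3 * (θ * m) :=
      mul_le_mul_of_nonneg_right (by linarith only [hk2, hcc0]) hθm.le
    linarith only [h3, h4]
  have k2 := hk 2 (by linarith only [hcc1]) (by norm_num)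
  have k3 := hk 3 (by linarith only [hcc1]) le_rfl
  constructor
  · linarith only [r1, k2, x3, x4', hfin]
  · linarith only [r2, k3, x3, x5', hfin]

end Pool.Agent.H493.BS
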