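import Pool.Agent.H493.BS.Main
import Pool.Agent.H493.BS.Comp

/-! The mean of an almost periodic weight over all the zeros; layers. -/

set_option autoImplicit false

open Complex Filter Topology Set MeasureTheory
open scoped BigOperators ComplexConjugate

namespace Pool.Agent.H493.BS

open H370 H370.A2 H370.AS TH803TW H295SI H143TG

/-- the number of zeros dominates the length of the interval -/
lemma NN_large {κ K : ℝ} (hκ : 0 < κ) :
    ∃ T0 : ℝ, 10 ≤ T0 ∧ ∀ T : ℝ, T0 ≤ T → ∀ H : ℝ, κ * T ≤ H → H ≤ T →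
      K * H ≤ NN riemannZeta T (T + H) := by
  obtain ⟨C, hC0, hends⟩ := H965SI.countShort riemannZeta good_zeta
  have ev1 := ev_log_pow κ 1 1 2 hκ one_pos one_pos
  have ev2 : ∀ᶠ T : ℝ in atTop, 7 * (|K| + 2 * C) ≤ Real.log T :=
    Real.tendsto_log_atTop.eventually_ge_atTop _
  have ev3 : ∀ᶠ T : ℝ in atTop, 3 / κ ≤ T := eventually_ge_atTop _
  obtain ⟨T4, hT4⟩ := ((ev1.and ev2).and ev3).exists_forall_of_atTop
  refine ⟨max 10 T4, le_max_left _ _, fun T hT H hH1 hH2 => ?_⟩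
  have hT10 : 10 ≤ T := (le_max_left _ _).trans hT
  obtain ⟨⟨a1, a2⟩, a3⟩ := hT4 T ((le_max_right _ _).trans hT)
  rw [div_le_iff₀ hκ] at a3
  have hH3 : 3 ≤ H := by linarith
  have h1 := (hends T hT10 H hH3 hH2 T (T + H) le_rfl (by linarith) (by linarith) le_rfl).1
  have h2 := (abs_le.1 h1).1
  set L := Real.log T with hL
  have hL0 : 0 ≤ L := Real.log_nonneg (by linarith)
  rw [one_mul, Real.rpow_one] at a1
  have h3 : L ^ 2 ≤ (1 + L) ^ 2 := by nlinarith
  have h4 : C * (H + L ^ 2) ≤ C * (2 * H) := by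
    gcongr
    linarith
  have hpi2 : Real.pi < 3.15 := Real.pi_lt_d2
  have h5 : H * L / 7 ≤ H * L / (2 * Real.pi) := by
    apply div_le_div_of_nonneg_left (by positivity) (by positivity)
    linarith
  have h6 : K * H ≤ |K| * H := by
    gcongr
    exact le_abs_self K
  have h7 : H * (7 * (|K| + 2 * C)) ≤ H * L := by gcongr
  linarith

/-- **the mean of an almost periodic function over all the zeros** -/
theorem mean {φ : ℝ → ℝ} {M : ℝ} (hφ : APm φ M) {κ ε : ℝ} (hκ : 0 < κ) (hε : 0 < ε) :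
    ∃ T0 : ℝ, 10 ≤ T0 ∧ ∀ T : ℝ, T0 ≤ T → ∀ H : ℝ, κ * T ≤ H → H ≤ T / 2 →
      |Sm riemannZeta T (T + H) (fun s => φ s.im) - M * NN riemannZeta T (T + H)| ≤
        ε * NN riemannZeta T (T + H) := by
  classical
  have hF : GoodL riemannZeta := good_zeta
  obtain ⟨a, ha, hld⟩ := hF.ld
  obtain ⟨Cd, hCd, hmom⟩ := moments
  obtain ⟨S, c, hS0, hc1, hc2⟩ := hφ (ε / 4) (by positivity)
  -- first moments
  have key : ∀ τ : {x : ℝ // x ∈ S}, ∃ K : ℝ, 0 < K ∧ ((τ : ℝ) ≠ 0 → ∀ᶠ T : ℝ in atTop,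
      ∀ A B : ℝ, T + 1 ≤ A → B ≤ 2 * T - 1 → (1 + Real.log T) ^ 2 ≤ B - A →
        ‖E1 riemannZeta A B τ‖ ≤ K * (B - A)) := by
    intro τ
    by_cases hτ : (τ : ℝ) = 0
    · exact ⟨1, one_pos, fun h => absurd hτ h⟩
    · obtain ⟨K, T1, hK1, hT1, hE⟩ := first_moment' hF ha hld hτ
      exact ⟨K, hK1, fun _ => by
        filter_upwards [eventually_ge_atTop T1] with T hT using hE T hT⟩
  choose K hK0 hK using key
  set K' : ℝ → ℝ := fun τ => if h : τ ∈ S then K ⟨τ, h⟩ else 0 with hK'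
  have hK'0 : ∀ τ, 0 ≤ K' τ := by
    intro τ
    simp only [hK']
    split_ifs with h
    · exact (hK0 _).le
    · exact le_rfl
  have hall : ∀ᶠ T : ℝ in atTop, ∀ τ ∈ S, τ ≠ 0 → ∀ A B : ℝ, T + 1 ≤ A → B ≤ 2 * T - 1 →
      (1 + Real.log T) ^ 2 ≤ B - A → ‖E1 riemannZeta A B τ‖ ≤ K' τ * (B - A) := by
    have h1 : ∀ᶠ T : ℝ in atTop, ∀ τ : {x : ℝ // x ∈ S}, (τ : ℝ) ≠ 0 → ∀ A B : ℝ, T + 1 ≤ A →
        B ≤ 2 * T - 1 → (1 + Real.log T) ^ 2 ≤ B - A → ‖E1 riemannZeta A B τ‖ ≤ K τ * (B - A) := by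
      rw [eventually_all]
      intro τ
      by_cases hτ : (τ : ℝ) = 0
      · exact Eventually.of_forall fun T h => absurd hτ h
      · filter_upwards [hK τ hτ] with T hT _ using hT
    filter_upwards [h1] with T hT τ hτ h0 A B hA hB hAB
    have := hT ⟨τ, hτ⟩ h0 A B hA hB hAB
    simp only [hK', dif_pos hτ]
    exact this
  set C1 : ℝ := ∑ τ ∈ S, ‖c τ‖ * (|τ| * Real.exp |τ|) with hC1
  have hC10 : 0 ≤ C1 := Finset.sum_nonneg fun τ _ => by positivity
  set C2 : ℝ := ∑ τ ∈ S.erase 0, ‖c τ‖ * K' τ with hC2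
  have hC20 : 0 ≤ C2 := Finset.sum_nonneg fun τ _ => mul_nonneg (norm_nonneg _) (hK'0 τ)
  obtain ⟨T5, hT5, hNL⟩ := NN_large (κ := κ) (K := (C1 * (Cd / κ) + C2) / (ε / 4)) hκ
  have ev1 := ev_log_pow κ 1 1 2 hκ one_pos one_pos
  obtain ⟨T6, hT6⟩ := hall.exists_forall_of_atTop
  obtain ⟨T7, hT7⟩ := ev1.exists_forall_of_atTop
  refine ⟨max (max T5 (T6 + 1)) T7, (hT5.trans (le_max_left _ _)).trans (le_max_left _ _),
    fun T hT H hH1 hH2 => ?_⟩
  have hTT5 : T5 ≤ T := ((le_max_left _ _).trans (le_max_left _ _)).trans hT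
  have hTT6 : T6 ≤ T - 1 := by
    have := ((le_max_right _ _).trans (le_max_left _ _)).trans hT
    linarith
  have hTT7 := hT7 T ((le_max_right _ _).trans hT)
  have hT10 : 10 ≤ T := hT5.trans hTT5
  have hTp : 0 < T := by linarith
  have hHp : 0 < H := by
    have : 0 < κ * T := by positivity
    linarith
  have hHT : H ≤ T := by linarith
  have hA : 1 ≤ T := by linarith
  set N : ℝ := (NN riemannZeta T (T + H) : ℝ) with hN
  have hN0 : 0 ≤ N := Nat.cast_nonneg _
  have hlarge := hNL T hTT5 H hH1 hHT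
  rw [← hN] at hlarge
  have hlarge2 : (C1 * (Cd / κ) + C2) * H ≤ ε / 4 * N := by
    rw [div_mul_eq_mul_div, div_le_iff₀ (by positivity)] at hlarge
    linarith
  -- step 1
  have s1 : |Sm riemannZeta T (T + H) (fun s => φ s.im) -
      Sm riemannZeta T (T + H) (fun s => tp S c s.im)| ≤ ε / 4 * N := by
    rw [hN, ← Sm_one hF hA]
    unfold Sm
    rw [← Finset.sum_sub_distrib, Finset.mul_sum]
    refine (Finset.abs_sum_le_sum_abs _ _).trans (Finset.sum_le_sum fun s _ => ?_)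
    rw [← mul_sub, abs_mul, abs_of_nonneg (Nat.cast_nonneg _ : (0 : ℝ) ≤ mult riemannZeta s)]
    have := hc1 s.im
    have h0 : (0 : ℝ) ≤ mult riemannZeta s := Nat.cast_nonneg _
    nlinarith
  -- step 2
  have hmo := (hmom T T (T + H) 0 (by linarith) hA (by linarith) le_rfl
    (Real.log_nonneg hA)).1
  have s2 : |Sm riemannZeta T (T + H) (fun s => tp S c s.im) -
      (∑ τ ∈ S, c τ * E1 riemannZeta T (T + H) τ).re| ≤ C1 * (Cd * T) := by
    have e1 : (∑ τ ∈ S, c τ * E1 riemannZeta T (T + H) τ).re =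
        Sm riemannZeta T (T + H) (fun s => (∑ τ ∈ S, c τ * cexp (I * τ * zz s)).re) := by
      unfold Sm E1
      have e2 : ∑ τ ∈ S, c τ * ∑ s ∈ Zf riemannZeta T (T + H), (mult riemannZeta s : ℂ) *
          cexp (I * τ * zz s) = ∑ s ∈ Zf riemannZeta T (T + H),
            ((mult riemannZeta s : ℝ) : ℂ) * ∑ τ ∈ S, c τ * cexp (I * τ * zz s) := by
        simp only [Finset.mul_sum]
        rw [Finset.sum_comm]
        refine Finset.sum_congr rfl fun s _ => Finset.sum_congr rfl fun τ _ => ?_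
        push_cast
        ring
      rw [e2, Complex.re_sum]
      refine Finset.sum_congr rfl fun s _ => ?_
      rw [Complex.re_ofReal_mul]
    rw [e1]
    refine le_trans ?_ (mul_le_mul_of_nonneg_left hmo hC10)
    rw [← Sm_mul]
    unfold Sm
    rw [← Finset.sum_sub_distrib]
    refine (Finset.abs_sum_le_sum_abs _ _).trans (Finset.sum_le_sum fun s hs => ?_)
    rw [← mul_sub, abs_mul, abs_of_nonneg (Nat.cast_nonneg _ : (0 : ℝ) ≤ mult riemannZeta s)]
    apply mul_le_mul_of_nonneg_left _ (Nat.cast_nonneg _)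
    have hsz := (mem_Zf hF hA).mp hs
    have him : |(zz s).im| ≤ 1 / 2 := by
      rw [zz_im, abs_neg, abs_le]
      constructor <;> linarith [hsz.1, hsz.2.1]
    have hdl : |(zz s).im| = dl s := by
      rw [zz_im, abs_neg]; rfl
    unfold tp
    rw [← Complex.sub_re, ← Finset.sum_sub_distrib]
    refine (Complex.abs_re_le_norm _).trans ((norm_sum_le _ _).trans ?_)
    show _ ≤ C1 * dl s
    rw [hC1, Finset.sum_mul]
    refine Finset.sum_le_sum fun τ _ => ?_
    rw [← mul_sub, norm_mul, norm_sub_rev]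
    have h1 := exp_near τ (zz s) him
    rw [zz_re, hdl] at h1
    calc ‖c τ‖ * ‖cexp (I * τ * zz s) - cexp (I * τ * s.im)‖ ≤
        ‖c τ‖ * (|τ| * Real.exp |τ| * dl s) := by gcongr
      _ = _ := by ring
  -- step 3
  have s3 : |(∑ τ ∈ S, c τ * E1 riemannZeta T (T + H) τ).re - M * N| ≤ ε / 4 * N + C2 * H := by
    rw [← Finset.add_sum_erase S _ hS0, Complex.add_re]
    have e0 : E1 riemannZeta T (T + H) 0 = (N : ℂ) := by
      unfold E1
      rw [hN, NN_eq hF hA]
      push_cast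
      refine Finset.sum_congr rfl fun s _ => ?_
      simp
    rw [e0, Complex.re_mul_ofReal]
    have h1 : |(c 0).re * N - M * N| ≤ ε / 4 * N := by
      rw [← sub_mul, abs_mul, abs_of_nonneg hN0]
      gcongr
    have h2 : |(∑ τ ∈ S.erase 0, c τ * E1 riemannZeta T (T + H) τ).re| ≤ C2 * H := by
      refine (Complex.abs_re_le_norm _).trans ((norm_sum_le _ _).trans ?_)
      rw [hC2, Finset.sum_mul]
      refine Finset.sum_le_sum fun τ hτ => ?_
      rw [norm_mul]
      have hh := hT6 (T - 1) hTT6 τ (Finset.mem_of_mem_erase hτ) (Finset.ne_of_mem_erase hτ)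
        T (T + H) (by linarith) (by linarith) ?_
      · have e : T + H - T = H := by ring
        rw [e] at hh
        calc ‖c τ‖ * ‖E1 riemannZeta T (T + H) τ‖ ≤ ‖c τ‖ * (K' τ * H) := by gcongr
          _ = _ := by ring
      · have e : T + H - T = H := by ring
        rw [e]
        rw [one_mul, Real.rpow_one] at hTT7
        have h3 : Real.log (T - 1) ≤ Real.log T := Real.log_le_log (by linarith) (by linarith)
        have h4 : 0 ≤ Real.log (T - 1) := Real.log_nonneg (by linarith)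
        have h5 : (1 + Real.log (T - 1)) ^ 2 ≤ (1 + Real.log T) ^ 2 := by gcongr
        linarith
    have e : (c 0).re * N + (∑ τ ∈ S.erase 0, c τ * E1 riemannZeta T (T + H) τ).re - M * N =
        ((c 0).re * N - M * N) + (∑ τ ∈ S.erase 0, c τ * E1 riemannZeta T (T + H) τ).re := by ring
    rw [e]
    exact (abs_add_le _ _).trans (add_le_add h1 h2)
  have hTH : C1 * (Cd * T) ≤ C1 * (Cd / κ) * H := by
    have : Cd * T ≤ (Cd / κ) * H := by
      calc Cd * T = (Cd / κ) * (κ * T) := by field_simp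
        _ ≤ _ := by gcongr
    calc C1 * (Cd * T) ≤ C1 * ((Cd / κ) * H) := by gcongr
      _ = _ := by ring
  have h1 := abs_le.1 s1
  have h2 := abs_le.1 s2
  have h3 := abs_le.1 s3
  have h4 : 0 ≤ ε * N := by positivity
  rw [abs_le]
  constructor <;> linarith [h1.1, h1.2, h2.1, h2.2, h3.1, h3.2]

end Pool.Agent.H493.BS
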