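import Pool.Agent.H493.BS.J0
import Pool.Graph.R_seed8.TH803.TW.Core

/-! The pair sums with two exponential factors. -/

set_option autoImplicit false

open Complex Filter Topology Set MeasureTheory
open scoped BigOperators ComplexConjugate

namespace Pool.Agent.H493.BS

open H370 H370.A2 TH803TW H295SI

/-- the pair sum with the factors `exp (i σ z)` and `exp (i σ' z')` -/
noncomputable def PW2 (g : ℝ → ℝ) (F : ℂ → ℂ) (Λ A B σ σ' : ℝ) : ℂ :=
  ∑ s ∈ Zf F A B, ∑ s' ∈ Zf F A B, (mult F s : ℂ) * (mult F s' : ℂ) *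
    (cexp (I * σ * zz s) * cexp (I * σ' * zz s') * (phiG g Λ (zz s - zz s')) ^ 2)

lemma conv_one {R : ℝ → ℝ} (hR : Conv R) (hRc : Continuous R) (α : ℝ) (h : 1 ≤ |α|) : R α = 0 := by
  have h1 : R 1 = 0 := by
    have h2 : Tendsto R (𝓝[>] 1) (𝓝 (R 1)) := hRc.continuousAt.tendsto.mono_left nhdsWithin_le_nhds
    have h3 : Tendsto R (𝓝[>] 1) (𝓝 0) := by
      refine tendsto_const_nhds.congr' ?_
      filter_upwards [self_mem_nhdsWithin] with x hx
      exact (hR.zero x hx).symm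
    exact tendsto_nhds_unique h2 h3
  have h2 : ∀ x : ℝ, 1 ≤ x → R x = 0 := by
    intro x hx
    rcases hx.lt_or_eq with h3 | h3
    · exact hR.zero x h3
    · rw [← h3]; exact h1
  rcases le_abs.1 h with h3 | h3
  · exact h2 α h3
  · rw [← hR.even]
    exact h2 _ h3

/-- the rescaled and shifted kernel -/
noncomputable def psh (R : ℝ → ℝ) (Λ Λ' θ β : ℝ) : ℝ :=
  (Λ' / Λ) * R (Λ' / Λ * β - θ / Λ)

lemma psh_cont {R : ℝ → ℝ} (hR : Continuous R) (Λ Λ' θ : ℝ) : Continuous (psh R Λ Λ' θ) := by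
  unfold psh
  fun_prop

lemma kern_shift {R : ℝ → ℝ} (hR : Conv R) (hRc : Continuous R) {Λ Λ' : ℝ} (hΛ : 0 < Λ) (θ : ℝ)
    (hΛ' : Λ + |θ| ≤ Λ') (z : ℂ) :
    (∫ β in (-1 : ℝ)..1, (psh R Λ Λ' θ β : ℂ) * cexp (I * (Λ' * z) * β)) =
      cexp (I * θ * z) * ∫ α in (-1 : ℝ)..1, (R α : ℂ) * cexp (I * (Λ * z) * α) := by
  set b : ℝ := Λ' / Λ with hb
  have hθ := abs_nonneg θ
  have hΛ'0 : 0 < Λ' := by linarith
  have hb0 : 0 < b := by positivity
  set f : ℝ → ℂ := fun α => (R α : ℂ) * cexp (I * (Λ * z) * α) * cexp (I * θ * z) with hf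
  have hfc : Continuous f := by
    simp only [hf]
    fun_prop
  have h1 : ∀ β : ℝ, (psh R Λ Λ' θ β : ℂ) * cexp (I * (Λ' * z) * β) =
      (b : ℂ) * f (b * β - θ / Λ) := by
    intro β
    simp only [hf, psh]
    rw [← hb]
    have h2 : cexp (I * (Λ' * z) * β) =
        cexp (I * (Λ * z) * ((b * β - θ / Λ : ℝ) : ℂ)) * cexp (I * θ * z) := by
      rw [← Complex.exp_add]
      congr 1
      have h3 : (Λ' : ℂ) = (Λ : ℂ) * (b : ℂ) := by
        rw [hb, ← Complex.ofReal_mul]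
        congr 1
        field_simp
      have h4 : (Λ : ℂ) * ((b * β - θ / Λ : ℝ) : ℂ) = (Λ : ℂ) * b * β - θ := by
        have : ((Λ * (b * β - θ / Λ) : ℝ) : ℂ) = ((Λ * b * β - θ : ℝ) : ℂ) := by
          congr 1
          field_simp
        push_cast at this ⊢
        linear_combination this
      rw [h3]
      linear_combination (-(I * z)) * h4
    rw [h2]
    push_cast
    ring
  simp_rw [h1]
  rw [intervalIntegral.integral_const_mul,
    intervalIntegral.integral_comp_mul_sub f hb0.ne' (θ / Λ)]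
  have hb1 : 1 + |θ| / Λ ≤ b := by
    rw [hb, le_div_iff₀ hΛ, add_mul, div_mul_cancel₀ _ hΛ.ne']
    linarith
  have hlow : b * (-1) - θ / Λ ≤ -1 := by
    have h2 : - |θ| / Λ ≤ θ / Λ := by gcongr; exact neg_abs_le θ
    have h3 : - |θ| / Λ = -(|θ| / Λ) := by ring
    rw [h3] at h2
    linarith
  have hup : 1 ≤ b * 1 - θ / Λ := by
    have h2 : θ / Λ ≤ |θ| / Λ := by gcongr; exact le_abs_self θ
    linarith
  have hz1 : ∫ α in (b * (-1) - θ / Λ)..(-1), f α = 0 := by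
    rw [show (0 : ℂ) = ∫ α in (b * (-1) - θ / Λ)..(-1), (0 : ℂ) by simp]
    refine intervalIntegral.integral_congr fun α hα => ?_
    rw [Set.uIcc_of_le hlow] at hα
    simp only [hf]
    rw [conv_one hR hRc α (le_abs.2 (Or.inr (by linarith [hα.2])))]
    simp
  have hz2 : ∫ α in (1 : ℝ)..(b * 1 - θ / Λ), f α = 0 := by
    rw [show (0 : ℂ) = ∫ α in (1 : ℝ)..(b * 1 - θ / Λ), (0 : ℂ) by simp]
    refine intervalIntegral.integral_congr fun α hα => ?_
    rw [Set.uIcc_of_le hup] at hα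
    simp only [hf]
    rw [conv_one hR hRc α (le_abs.2 (Or.inl hα.1))]
    simp
  have h2 : ∫ α in (b * (-1) - θ / Λ)..(b * 1 - θ / Λ), f α = ∫ α in (-1 : ℝ)..1, f α := by
    rw [← intervalIntegral.integral_add_adjacent_intervals (b := -1)
      (hfc.intervalIntegrable _ _) (hfc.intervalIntegrable _ _),
      ← intervalIntegral.integral_add_adjacent_intervals (a := -1) (b := 1)
      (hfc.intervalIntegrable _ _) (hfc.intervalIntegrable _ _), hz1, hz2]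
    simp
  rw [h2]
  simp only [hf]
  rw [intervalIntegral.integral_mul_const, Complex.real_smul]
  push_cast
  have hbne : (b : ℂ) ≠ 0 := by exact_mod_cast hb0.ne'
  field_simp

/-- the pair sum with two factors is a twisted pair sum -/
lemma PW2_QTp {g R : ℝ → ℝ} (hR : Conv R) (hRc : Continuous R) (hK : KSq g R) (F : ℂ → ℂ)
    {Λ Λ' : ℝ} (hΛ : 0 < Λ) (A B σ σ' : ℝ) (hΛ' : Λ + |(σ - σ') / 2| ≤ Λ') :
    PW2 g F Λ A B σ σ' = QTp (psh R Λ Λ' ((σ - σ') / 2)) F Λ' A B (σ + σ') := by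
  unfold PW2 QTp
  refine Finset.sum_congr rfl fun s _ => Finset.sum_congr rfl fun s' _ => ?_
  congr 1
  rw [kern_shift hR hRc hΛ ((σ - σ') / 2) hΛ' (zz s - zz s')]
  unfold phiG
  rw [mul_pow, hK, ← Complex.exp_nat_mul]
  have e1 : cexp (I * σ * zz s) * cexp (I * σ' * zz s') =
      cexp (I * ((σ - σ') / 2 : ℝ) * (zz s - zz s')) *
        cexp (I * ((σ + σ' : ℝ) : ℂ) * ((zz s + zz s') / 2)) := by
    rw [← Complex.exp_add, ← Complex.exp_add]
    congr 1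
    push_cast
    ring
  have e2 : (((2 : ℕ) : ℂ) * (-(zz s - zz s') ^ 2 / 8)) = -(zz s - zz s') ^ 2 / 4 := by
    push_cast; ring
  rw [e1, e2]
  ring

section

variable {F : ℂ → ℂ} (hF : GoodL F) {a : ℕ → ℂ}
  (ha : ∀ n, ‖a n‖ ≤ ArithmeticFunction.vonMangoldt n)
  (hld : ∀ s : ℂ, 1 < s.re → 1 ≤ s.im → deriv F s / F s = - ∑' n : ℕ, a n * (n : ℂ) ^ (-s))
  {g R : ℝ → ℝ} (hR : Conv R) (hRc : Continuous R) (hK : KSq g R)

lemma R_le (hR : Conv R) (x : ℝ) : R x ≤ R 0 := by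
  rcases le_total 0 x with h | h
  · exact hR.anti (Set.mem_Ici.2 le_rfl) (Set.mem_Ici.2 h) h
  · rw [← hR.even x]
    exact hR.anti (Set.mem_Ici.2 le_rfl) (Set.mem_Ici.2 (by linarith)) (by linarith)

include hF ha hld hR hRc hK in
/-- the pair sum is small when the factors do not cancel -/
theorem pw_off {σ σ' : ℝ} (hσ : σ + σ' ≠ 0) (h ε c η : ℝ) (hε : 0 < ε) (hεh : ε < h)
    (hh1 : h ≤ 1) (hc : 0 < c) (hη : 0 < η) :
    ∃ T0 : ℝ, 10 ≤ T0 ∧ ∀ T : ℝ, T0 ≤ T → ∀ A B : ℝ, T + 1 ≤ A → B ≤ 2 * T - 1 →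
      T ^ h ≤ B - A → ∀ Λ : ℝ, c * Real.log T ≤ Λ → Λ ≤ (h - ε) * Real.log T →
      ‖PW2 g F Λ A B σ σ'‖ ≤ η * ((B - A) * Real.log T) := by
  set τ := σ + σ' with hτ
  set θ := (σ - σ') / 2 with hθ
  have hR0 : 0 ≤ R 0 := hR.nonneg 0
  set C0 : ℝ := 2 * Real.exp (τ ^ 2 / 4) * (2 * R 0) + 1 with hC0
  have hC00 : 0 < C0 := by positivity
  obtain ⟨T1, hT1, hJ⟩ := JT_int hF ha hld hσ h (ε / 2) c (η / C0) (by positivity) (by linarith)
    hh1 hc (by positivity)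
  have ev : ∀ᶠ T : ℝ in atTop, |θ| / c + 1 / c ≤ Real.log T ∧ 2 * |θ| / ε ≤ Real.log T :=
    (Real.tendsto_log_atTop.eventually_ge_atTop _).and
      (Real.tendsto_log_atTop.eventually_ge_atTop _)
  obtain ⟨T2, hT2⟩ := ev.exists_forall_of_atTop
  refine ⟨max T1 T2, hT1.trans (le_max_left _ _), fun T hT A B hA hB hAB Λ hΛ1 hΛ2 => ?_⟩
  obtain ⟨l1, l2⟩ := hT2 T ((le_max_right _ _).trans hT)
  have hTT1 : T1 ≤ T := (le_max_left _ _).trans hT
  have hT10 : 10 ≤ T := hT1.trans hTT1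
  have hTpos : 0 < T := by linarith
  have hU : 1 ≤ A := by linarith
  set L := Real.log T with hL
  have hθ0 := abs_nonneg θ
  have l3 : |θ| + 1 ≤ Λ := by
    refine le_trans ?_ hΛ1
    have : |θ| / c + 1 / c = (|θ| + 1) / c := by ring
    rw [this, div_le_iff₀ hc] at l1
    linarith
  have hΛ0 : 0 < Λ := by linarith
  have l4 : |θ| ≤ ε / 2 * L := by
    rw [div_le_iff₀ hε] at l2
    linarith
  have hb : (Λ + |θ|) / Λ ≤ 2 := by
    rw [div_le_iff₀ hΛ0]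
    linarith
  rw [PW2_QTp hR hRc hK F hΛ0 A B σ σ' (le_refl _)]
  have h1 := QTp_norm hF (U2 := B) hU (psh_cont hRc Λ (Λ + |θ|) θ) (Λ + |θ|) τ
    (R := fun _ => 2 * R 0) continuous_const (fun α => by
      unfold psh
      have h2 : 0 ≤ (Λ + |θ|) / Λ := by positivity
      rw [abs_of_nonneg (mul_nonneg h2 (hR.nonneg _))]
      have := R_le hR ((Λ + |θ|) / Λ * α - θ / Λ)
      have h3 := hR.nonneg ((Λ + |θ|) / Λ * α - θ / Λ)
      gcongr) (fun _ => rfl)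
  refine h1.trans ?_
  rw [intervalIntegral.integral_const_mul]
  have h2 := hJ T hTT1 A B hA hB hAB (Λ + |θ|) (by linarith) (by linarith)
  have hH : 0 ≤ (B - A) * L := by
    have : 0 ≤ T ^ h := (Real.rpow_pos_of_pos hTpos h).le
    have h3 : 0 ≤ L := Real.log_nonneg (by linarith)
    exact mul_nonneg (by linarith) h3
  calc 2 * Real.exp (τ ^ 2 / 4) * (2 * R 0 * ∫ α in (0 : ℝ)..1, ‖JT F A B ((Λ + |θ|) * α) τ‖) =
      (2 * Real.exp (τ ^ 2 / 4) * (2 * R 0)) *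
        ∫ α in (0 : ℝ)..1, ‖JT F A B ((Λ + |θ|) * α) τ‖ := by ring
    _ ≤ (2 * Real.exp (τ ^ 2 / 4) * (2 * R 0)) * (η / C0 * ((B - A) * L)) := by gcongr
    _ ≤ C0 * (η / C0 * ((B - A) * L)) := by
        gcongr
        rw [hC0]
        linarith
    _ = _ := by field_simp

include hF ha hld hR hRc hK in
/-- the pair sum does not change much when the factors cancel on the diagonal -/
theorem pw_diag (σ : ℝ) (h ε c η : ℝ) (hε : 0 < ε) (hεh : ε < h)
    (hh1 : h ≤ 1) (hc : 0 < c) (hη : 0 < η) :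
    ∃ T0 : ℝ, 10 ≤ T0 ∧ ∀ T : ℝ, T0 ≤ T → ∀ A B : ℝ, T + 1 ≤ A → B ≤ 2 * T - 1 →
      T ^ h ≤ B - A → ∀ Λ : ℝ, c * Real.log T ≤ Λ → Λ ≤ (h - ε) * Real.log T →
      ‖PW2 g F Λ A B σ (-σ) - PW2 g F Λ A B 0 0‖ ≤ η * ((B - A) * Real.log T) := by
  obtain ⟨K, hK0, hlip⟩ := hR.lip
  obtain ⟨D, T1, hD, hT1, hJ⟩ := J0_int hF ha hld h (ε / 2) c (by positivity) (by linarith)
    hh1 hc
  have hσ0 := abs_nonneg σ
  have ev : ∀ᶠ T : ℝ in atTop, |σ| / c + 1 / c ≤ Real.log T ∧ 2 * |σ| / ε ≤ Real.log T ∧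
      4 * K * |σ| * D / (c * η) ≤ Real.log T :=
    (Real.tendsto_log_atTop.eventually_ge_atTop _).and
      ((Real.tendsto_log_atTop.eventually_ge_atTop _).and
        (Real.tendsto_log_atTop.eventually_ge_atTop _))
  obtain ⟨T2, hT2⟩ := ev.exists_forall_of_atTop
  refine ⟨max T1 T2, hT1.trans (le_max_left _ _), fun T hT A B hA hB hAB Λ hΛ1 hΛ2 => ?_⟩
  obtain ⟨l1, l2, l5⟩ := hT2 T ((le_max_right _ _).trans hT)
  have hTT1 : T1 ≤ T := (le_max_left _ _).trans hT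
  have hT10 : 10 ≤ T := hT1.trans hTT1
  have hTpos : 0 < T := by linarith
  have hU : 1 ≤ A := by linarith
  set L := Real.log T with hL
  have l3 : |σ| + 1 ≤ Λ := by
    refine le_trans ?_ hΛ1
    have : |σ| / c + 1 / c = (|σ| + 1) / c := by ring
    rw [this, div_le_iff₀ hc] at l1
    linarith
  have hΛ0 : 0 < Λ := by linarith
  have l4 : |σ| ≤ ε / 2 * L := by
    rw [div_le_iff₀ hε] at l2
    linarith
  set Λ' := Λ + |σ| with hΛ'
  have hb : Λ' / Λ ≤ 2 := by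
    rw [div_le_iff₀ hΛ0]
    linarith
  have hb0 : 0 ≤ Λ' / Λ := by positivity
  have e1 : (σ - -σ) / 2 = σ := by ring
  have e2 : ((0 : ℝ) - 0) / 2 = 0 := by norm_num
  have e3 : σ + -σ = 0 := by ring
  have e4 : (0 : ℝ) + 0 = 0 := by norm_num
  have h1 := PW2_QTp hR hRc hK F hΛ0 A B σ (-σ) (Λ' := Λ') (by rw [e1])
  have h2 := PW2_QTp hR hRc hK F hΛ0 A B 0 0 (Λ' := Λ') (by rw [e2, abs_zero]; linarith)
  rw [e1, e3] at h1
  rw [e2, e4] at h2
  rw [h1, h2]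
  have hsub : QTp (psh R Λ Λ' σ) F Λ' A B 0 - QTp (psh R Λ Λ' 0) F Λ' A B 0 =
      QTp (fun α => psh R Λ Λ' σ α - psh R Λ Λ' 0 α) F Λ' A B 0 := by
    have c1 := psh_cont hRc Λ Λ' σ
    have c2 := psh_cont hRc Λ Λ' 0
    have cJ : Continuous fun α : ℝ => JT F A B (Λ' * α) 0 := (JT_cont hF hU 0).comp (by fun_prop)
    have c3 : Continuous (fun α => psh R Λ Λ' σ α - psh R Λ Λ' 0 α) := c1.sub c2
    rw [QTp_JT hF hU c1, QTp_JT hF hU c2, QTp_JT hF hU c3, ← mul_sub,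
      ← intervalIntegral.integral_sub]
    · congr 1
      refine intervalIntegral.integral_congr fun α _ => ?_
      push_cast
      ring
    · exact ((Complex.continuous_ofReal.comp c1).mul cJ).intervalIntegrable _ _
    · exact ((Complex.continuous_ofReal.comp c2).mul cJ).intervalIntegrable _ _
  rw [hsub]
  set κ : ℝ := 2 * (K * (|σ| / Λ)) with hκ
  have c3 : Continuous (fun α => psh R Λ Λ' σ α - psh R Λ Λ' 0 α) :=
    (psh_cont hRc Λ Λ' σ).sub (psh_cont hRc Λ Λ' 0)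
  have h3 := QTp_norm hF (U2 := B) hU c3 Λ' 0
    (R := fun _ => κ) continuous_const (fun α => by
      simp only [psh]
      rw [← mul_sub, abs_mul, abs_of_nonneg hb0]
      have h4 := hlip (Λ' / Λ * α - σ / Λ) (Λ' / Λ * α - 0 / Λ)
      have h5 : |Λ' / Λ * α - σ / Λ - (Λ' / Λ * α - 0 / Λ)| = |σ| / Λ := by
        have : Λ' / Λ * α - σ / Λ - (Λ' / Λ * α - 0 / Λ) = -(σ / Λ) := by ring
        rw [this, abs_neg, abs_div, abs_of_pos hΛ0]
      rw [h5] at h4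
      rw [hκ]
      gcongr) (fun _ => rfl)
  refine h3.trans ?_
  rw [intervalIntegral.integral_const_mul]
  have h6 := hJ T hTT1 A B hA hB hAB Λ' (by linarith) (by rw [hΛ']; linarith)
  have hL0 : 0 < L := Real.log_pos (by linarith)
  have hH : 0 ≤ (B - A) * L := by
    have : 0 ≤ T ^ h := (Real.rpow_pos_of_pos hTpos h).le
    exact mul_nonneg (by linarith) hL0.le
  have hκ0 : 0 ≤ κ := by positivity
  have h7 : 2 * κ * D ≤ η := by
    rw [hκ]
    have h8 : |σ| / Λ ≤ |σ| / (c * L) := by gcongr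
    have h9 : 4 * K * |σ| * D ≤ η * (c * L) := by
      rw [div_le_iff₀ (by positivity)] at l5
      linarith
    calc 2 * (2 * (K * (|σ| / Λ))) * D ≤ 2 * (2 * (K * (|σ| / (c * L)))) * D := by gcongr
      _ = (4 * K * |σ| * D) / (c * L) := by ring
      _ ≤ η := by rw [div_le_iff₀ (by positivity)]; exact h9
  calc 2 * Real.exp ((0 : ℝ) ^ 2 / 4) * (κ * ∫ α in (0 : ℝ)..1, ‖JT F A B (Λ' * α) 0‖) =
      2 * κ * ∫ α in (0 : ℝ)..1, ‖JT F A B (Λ' * α) 0‖ := by norm_num; ring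
    _ ≤ 2 * κ * (D * ((B - A) * L)) := by gcongr
    _ = (2 * κ * D) * ((B - A) * L) := by ring
    _ ≤ _ := by gcongr

end

end Pool.Agent.H493.BS
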