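import Pool.Agent.H493.BS.Pair
import Pool.Agent.H493.BS.First

/-! Trigonometric polynomials at the zeros. -/

set_option autoImplicit false

open Complex Filter Topology Set MeasureTheory
open scoped BigOperators ComplexConjugate

namespace Pool.Agent.H493.BS

open H370 H370.A2 TH803TW H295SI

/-- a trigonometric polynomial -/
noncomputable def GG {n : ℕ} (b : Fin n → ℂ) (τ : Fin n → ℝ) (z : ℂ) : ℂ :=
  ∑ i, b i * cexp (I * τ i * z)

lemma exp_near (τ : ℝ) (z : ℂ) (hz : |z.im| ≤ 1 / 2) :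
    ‖cexp (I * τ * z) - cexp (I * τ * z.re)‖ ≤ |τ| * Real.exp |τ| * |z.im| := by
  have e1 : cexp (I * τ * z) = cexp (I * τ * z.re) * cexp ((-(τ * z.im) : ℝ) : ℂ) := by
    rw [← Complex.exp_add]
    congr 1
    have h := Complex.re_add_im z
    push_cast
    have hI : I * I = -1 := I_mul_I
    linear_combination (-(I * (τ : ℂ))) * h + (τ : ℂ) * z.im * hI
  have e2 : cexp (I * τ * z) - cexp (I * τ * z.re) =
      cexp (I * τ * z.re) * (cexp ((-(τ * z.im) : ℝ) : ℂ) - 1) := by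
    rw [e1]; ring
  rw [e2, norm_mul]
  have h1 : ‖cexp (I * τ * z.re)‖ = 1 := by
    have : I * τ * z.re = ((τ * z.re : ℝ) : ℂ) * I := by push_cast; ring
    rw [this, Complex.norm_exp_ofReal_mul_I]
  rw [h1, one_mul, ← Complex.ofReal_exp, ← Complex.ofReal_one, ← Complex.ofReal_sub,
    Complex.norm_real, Real.norm_eq_abs]
  set x : ℝ := -(τ * z.im) with hx
  have hxa : |x| = |τ| * |z.im| := by rw [hx, abs_neg, abs_mul]
  have h2 : |Real.exp x - 1| ≤ |x| * Real.exp |x| := by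
    rw [abs_le]
    constructor
    · have h3 := Real.add_one_le_exp x
      have h4 : |x| * 1 ≤ |x| * Real.exp |x| := by
        gcongr
        exact Real.one_le_exp (abs_nonneg x)
      have h5 := neg_abs_le x
      linarith
    · have h3 := Real.add_one_le_exp (-x)
      have h4 : Real.exp x * Real.exp (-x) = 1 := by rw [← Real.exp_add, add_neg_cancel, Real.exp_zero]
      have h5 : Real.exp x - 1 ≤ x * Real.exp x := by
        have h6 : Real.exp x * (-x + 1) ≤ Real.exp x * Real.exp (-x) :=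
          mul_le_mul_of_nonneg_left h3 (Real.exp_pos x).le
        nlinarith
      have h7 : x * Real.exp x ≤ |x| * Real.exp |x| := by
        have h8 : x * Real.exp x ≤ |x| * Real.exp x :=
          mul_le_mul_of_nonneg_right (le_abs_self x) (Real.exp_pos x).le
        have h9 : |x| * Real.exp x ≤ |x| * Real.exp |x| := by
          gcongr
          exact le_abs_self x
        linarith
      linarith
  rw [hxa] at h2
  have h3 : Real.exp (|τ| * |z.im|) ≤ Real.exp |τ| := by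
    apply Real.exp_le_exp.2
    have := abs_nonneg τ
    nlinarith
  calc |Real.exp x - 1| ≤ |τ| * |z.im| * Real.exp (|τ| * |z.im|) := h2
    _ ≤ |τ| * |z.im| * Real.exp |τ| := by gcongr
    _ = _ := by ring

section

variable {n : ℕ} (b : Fin n → ℂ) (τ : Fin n → ℝ)

/-- a Lipschitz constant near the real line -/
noncomputable def CG : ℝ := ∑ i, ‖b i‖ * (|τ i| * Real.exp |τ i|)

lemma CG_nonneg : 0 ≤ CG b τ := Finset.sum_nonneg fun i _ => by positivity

lemma GG_near (z : ℂ) (hz : |z.im| ≤ 1 / 2) : ‖GG b τ z - GG b τ z.re‖ ≤ CG b τ * |z.im| := by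
  unfold GG CG
  rw [← Finset.sum_sub_distrib, Finset.sum_mul]
  refine (norm_sum_le _ _).trans (Finset.sum_le_sum fun i _ => ?_)
  rw [← mul_sub, norm_mul]
  have := exp_near (τ i) z hz
  calc ‖b i‖ * ‖cexp (I * τ i * z) - cexp (I * τ i * z.re)‖ ≤
      ‖b i‖ * (|τ i| * Real.exp |τ i| * |z.im|) := by gcongr
    _ = _ := by ring

/-- products of four coefficients -/
noncomputable def b4 (p : (Fin n × Fin n) × (Fin n × Fin n)) : ℂ :=
  (b p.1.1 * b p.1.2) * (b p.2.1 * b p.2.2)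

/-- sums of two frequencies -/
def s1 (p : Fin n × Fin n) : ℝ := τ p.1 + τ p.2

lemma GG_sq (z : ℂ) : GG b τ z ^ 2 = ∑ p : Fin n × Fin n, (b p.1 * b p.2) *
    cexp (I * (s1 τ p : ℝ) * z) := by
  unfold GG
  rw [sq, Fintype.sum_mul_sum, Fintype.sum_prod_type]
  refine Finset.sum_congr rfl fun i _ => Finset.sum_congr rfl fun j _ => ?_
  have e : cexp (I * ((s1 τ (i, j) : ℝ) : ℂ) * z) = cexp (I * τ i * z) * cexp (I * τ j * z) := by
    rw [← Complex.exp_add]
    congr 1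
    unfold s1
    push_cast
    ring
  rw [e]
  ring

lemma GG_sq_mul (z w : ℂ) : GG b τ z ^ 2 * GG b τ w ^ 2 =
    ∑ p : (Fin n × Fin n) × (Fin n × Fin n), b4 b p *
      (cexp (I * (s1 τ p.1 : ℝ) * z) * cexp (I * (s1 τ p.2 : ℝ) * w)) := by
  have h1 : ∀ f : (Fin n × Fin n) × (Fin n × Fin n) → ℂ, ∑ p, f p =
      ∑ i : Fin n × Fin n, ∑ j : Fin n × Fin n, f (i, j) := fun f => Fintype.sum_prod_type f
  rw [GG_sq, GG_sq, Fintype.sum_mul_sum, h1]
  refine Finset.sum_congr rfl fun i _ => Finset.sum_congr rfl fun j _ => ?_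
  unfold b4
  ring

/-- the mean value of the fourth power -/
noncomputable def M4 : ℂ := ∑ p : (Fin n × Fin n) × (Fin n × Fin n),
  b4 b p * (if s1 τ p.1 + s1 τ p.2 = 0 then 1 else 0)

/-- the total of the coefficients -/
noncomputable def B4 : ℝ := ∑ p : (Fin n × Fin n) × (Fin n × Fin n), ‖b4 b p‖

lemma B4_nonneg : 0 ≤ B4 b := Finset.sum_nonneg fun i _ => norm_nonneg _

variable {F : ℂ → ℂ} (hF : GoodL F) {a : ℕ → ℂ}
  (ha : ∀ n, ‖a n‖ ≤ ArithmeticFunction.vonMangoldt n)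
  (hld : ∀ s : ℂ, 1 < s.re → 1 ≤ s.im → deriv F s / F s = - ∑' n : ℕ, a n * (n : ℂ) ^ (-s))
  {g R : ℝ → ℝ} (hR : Conv R) (hRc : Continuous R) (hK : KSq g R)

/-- the weighted pair sum -/
noncomputable def Q4 (g : ℝ → ℝ) (F : ℂ → ℂ) (Λ A B : ℝ) : ℂ :=
  ∑ s ∈ Zf F A B, ∑ s' ∈ Zf F A B, (mult F s : ℂ) * (mult F s' : ℂ) *
    (GG b τ (zz s) ^ 2 * GG b τ (zz s') ^ 2 * (phiG g Λ (zz s - zz s')) ^ 2)

lemma Q4_eq (g : ℝ → ℝ) (F : ℂ → ℂ) (Λ A B : ℝ) : Q4 b τ g F Λ A B =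
    ∑ p : (Fin n × Fin n) × (Fin n × Fin n), b4 b p *
      PW2 g F Λ A B (s1 τ p.1) (s1 τ p.2) := by
  unfold Q4 PW2
  have h1 : ∀ s ∈ Zf F A B, ∀ s' ∈ Zf F A B, (mult F s : ℂ) * (mult F s' : ℂ) *
      (GG b τ (zz s) ^ 2 * GG b τ (zz s') ^ 2 * (phiG g Λ (zz s - zz s')) ^ 2) =
      ∑ p : (Fin n × Fin n) × (Fin n × Fin n), b4 b p * ((mult F s : ℂ) * (mult F s' : ℂ) *
        (cexp (I * (s1 τ p.1 : ℝ) * zz s) * cexp (I * (s1 τ p.2 : ℝ) * zz s') *
          (phiG g Λ (zz s - zz s')) ^ 2)) := by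
    intro s _ s' _
    rw [GG_sq_mul, Finset.sum_mul, Finset.mul_sum]
    refine Finset.sum_congr rfl fun p _ => ?_
    ring
  rw [Finset.sum_congr rfl fun s hs => Finset.sum_congr rfl fun s' hs' => h1 s hs s' hs',
    Finset.sum_congr rfl fun s _ => Finset.sum_comm, Finset.sum_comm]
  refine Finset.sum_congr rfl fun p _ => ?_
  rw [Finset.mul_sum]
  refine Finset.sum_congr rfl fun s _ => ?_
  rw [Finset.mul_sum]

/-- the weighted sum of the fourth powers -/
lemma F4_eq (F : ℂ → ℂ) (A B : ℝ) : ∑ s ∈ Zf F A B, (mult F s : ℂ) * GG b τ (zz s) ^ 4 =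
    ∑ p : (Fin n × Fin n) × (Fin n × Fin n), b4 b p * E1 F A B (s1 τ p.1 + s1 τ p.2) := by
  unfold E1
  have h1 : ∀ s ∈ Zf F A B, (mult F s : ℂ) * GG b τ (zz s) ^ 4 =
      ∑ p : (Fin n × Fin n) × (Fin n × Fin n), b4 b p * ((mult F s : ℂ) *
        cexp (I * ((s1 τ p.1 + s1 τ p.2 : ℝ) : ℂ) * zz s)) := by
    intro s _
    have e : GG b τ (zz s) ^ 4 = GG b τ (zz s) ^ 2 * GG b τ (zz s) ^ 2 := by ring
    rw [e, GG_sq_mul, Finset.mul_sum]
    refine Finset.sum_congr rfl fun p _ => ?_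
    rw [← Complex.exp_add]
    have e2 : I * ((s1 τ p.1 + s1 τ p.2 : ℝ) : ℂ) * zz s =
        I * (s1 τ p.1 : ℝ) * zz s + I * (s1 τ p.2 : ℝ) * zz s := by push_cast; ring
    rw [e2]
    ring
  rw [Finset.sum_congr rfl h1, Finset.sum_comm]
  refine Finset.sum_congr rfl fun p _ => ?_
  rw [Finset.mul_sum]

include hF ha hld hR hRc hK in
/-- **the weighted pair sum and the weighted sum of fourth powers** -/
theorem quad (h ε c η : ℝ) (hε : 0 < ε) (hεh : ε < h) (hh1 : h ≤ 1) (hc : 0 < c) (hη : 0 < η) :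
    ∃ T0 : ℝ, 10 ≤ T0 ∧ ∀ T : ℝ, T0 ≤ T → ∀ A B : ℝ, T + 1 ≤ A → B ≤ 2 * T - 1 →
      T ^ h ≤ B - A → ∀ Λ : ℝ, c * Real.log T ≤ Λ → Λ ≤ (h - ε) * Real.log T →
      ‖Q4 b τ g F Λ A B - M4 b τ * PW2 g F Λ A B 0 0‖ ≤ η * ((B - A) * Real.log T) ∧
      ‖∑ s ∈ Zf F A B, (mult F s : ℂ) * GG b τ (zz s) ^ 4 - M4 b τ * NN F A B‖ ≤
        η * ((B - A) * Real.log T) := by
  set K4 : ℝ := B4 b + 1 with hK4
  have hB4 := B4_nonneg b
  have hK40 : 0 < K4 := by positivity
  set η1 : ℝ := η / K4 with hη1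
  have hη10 : 0 < η1 := by positivity
  have hη11 : B4 b * η1 ≤ η := by
    rw [hη1, mul_div_assoc', div_le_iff₀ hK40]
    nlinarith
  have key : ∀ p : (Fin n × Fin n) × (Fin n × Fin n), ∀ᶠ T : ℝ in atTop,
      ∀ A B : ℝ, T + 1 ≤ A → B ≤ 2 * T - 1 →
      T ^ h ≤ B - A → ∀ Λ : ℝ, c * Real.log T ≤ Λ → Λ ≤ (h - ε) * Real.log T →
      ‖PW2 g F Λ A B (s1 τ p.1) (s1 τ p.2) -
        (if s1 τ p.1 + s1 τ p.2 = 0 then 1 else 0) * PW2 g F Λ A B 0 0‖ ≤
          η1 * ((B - A) * Real.log T) ∧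
      ‖E1 F A B (s1 τ p.1 + s1 τ p.2) -
        (if s1 τ p.1 + s1 τ p.2 = 0 then 1 else 0) * NN F A B‖ ≤
          η1 * ((B - A) * Real.log T) := by
    intro p
    by_cases hp : s1 τ p.1 + s1 τ p.2 = 0
    · obtain ⟨T0, hT0, hT⟩ := pw_diag hF ha hld hR hRc hK (s1 τ p.1) h ε c η1 hε hεh hh1 hc hη10
      filter_upwards [eventually_ge_atTop T0] with T hTT A B hA hB hAB Λ hΛ1 hΛ2
      have h1 := hT T hTT A B hA hB hAB Λ hΛ1 hΛ2
      have h2 : s1 τ p.2 = - s1 τ p.1 := by linarith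
      rw [hp, if_pos rfl, one_mul, one_mul, h2]
      refine ⟨h1, ?_⟩
      have hT10 : 10 ≤ T := hT0.trans hTT
      have hU : 1 ≤ A := by linarith
      have h3 : E1 F A B 0 = NN F A B := by
        unfold E1
        rw [NN_eq hF hU]
        push_cast
        refine Finset.sum_congr rfl fun s _ => ?_
        simp
      rw [h3, sub_self, norm_zero]
      have h4 : 0 ≤ T ^ h := (Real.rpow_pos_of_pos (by linarith) h).le
      have h5 : 0 ≤ Real.log T := Real.log_nonneg (by linarith)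
      have h6 : 0 ≤ B - A := by linarith
      positivity
    · obtain ⟨T0, hT0, hT⟩ := pw_off hF ha hld hR hRc hK hp h ε c η1 hε hεh hh1 hc hη10
      obtain ⟨K, T1, hK1, hT1, hE⟩ := first_moment' hF ha hld hp
      have ev1 := ev_log_pow 1 1 h 2 one_pos one_pos (by linarith)
      filter_upwards [eventually_ge_atTop T0, eventually_ge_atTop T1, ev1,
        Real.tendsto_log_atTop.eventually_ge_atTop (K / η1)] with T hTT hTT1 hl hl2 A B hA hB hAB Λ hΛ1 hΛ2
      have h1 := hT T hTT A B hA hB hAB Λ hΛ1 hΛ2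
      rw [if_neg hp, zero_mul, sub_zero, zero_mul, sub_zero]
      refine ⟨h1, ?_⟩
      have h2 := hE T hTT1 A B hA hB (by linarith)
      refine h2.trans ?_
      rw [div_le_iff₀ hη10] at hl2
      have hT10 : 10 ≤ T := hT0.trans hTT
      have h4 : 0 ≤ T ^ h := (Real.rpow_pos_of_pos (by linarith) h).le
      have h6 : 0 ≤ B - A := by linarith
      calc K * (B - A) ≤ (Real.log T * η1) * (B - A) := by gcongr
        _ = _ := by ring
  obtain ⟨T0, hT0⟩ := (eventually_all.2 key).exists_forall_of_atTop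
  refine ⟨max T0 10, le_max_right _ _, fun T hT A B hA hB hAB Λ hΛ1 hΛ2 => ?_⟩
  have hk := fun p => hT0 T ((le_max_left _ _).trans hT) p A B hA hB hAB Λ hΛ1 hΛ2
  have hT10 : 10 ≤ T := (le_max_right _ _).trans hT
  have h4 : 0 ≤ T ^ h := (Real.rpow_pos_of_pos (by linarith) h).le
  have h5 : 0 ≤ Real.log T := Real.log_nonneg (by linarith)
  have h6 : 0 ≤ B - A := by linarith
  have h7 : 0 ≤ (B - A) * Real.log T := by positivity
  constructor
  · rw [Q4_eq, M4, Finset.sum_mul, ← Finset.sum_sub_distrib]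
    refine (norm_sum_le _ _).trans ?_
    calc ∑ p : (Fin n × Fin n) × (Fin n × Fin n), ‖b4 b p * PW2 g F Λ A B (s1 τ p.1) (s1 τ p.2) -
          b4 b p * (if s1 τ p.1 + s1 τ p.2 = 0 then 1 else 0) * PW2 g F Λ A B 0 0‖ ≤
        ∑ p : (Fin n × Fin n) × (Fin n × Fin n), ‖b4 b p‖ * (η1 * ((B - A) * Real.log T)) := by
          refine Finset.sum_le_sum fun p _ => ?_
          rw [mul_assoc, ← mul_sub, norm_mul]
          have := (hk p).1
          gcongr
      _ = B4 b * η1 * ((B - A) * Real.log T) := by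
          rw [← Finset.sum_mul]
          unfold B4
          ring
      _ ≤ _ := by gcongr
  · rw [F4_eq, M4, Finset.sum_mul, ← Finset.sum_sub_distrib]
    refine (norm_sum_le _ _).trans ?_
    calc ∑ p : (Fin n × Fin n) × (Fin n × Fin n), ‖b4 b p * E1 F A B (s1 τ p.1 + s1 τ p.2) -
          b4 b p * (if s1 τ p.1 + s1 τ p.2 = 0 then 1 else 0) * NN F A B‖ ≤
        ∑ p : (Fin n × Fin n) × (Fin n × Fin n), ‖b4 b p‖ * (η1 * ((B - A) * Real.log T)) := by
          refine Finset.sum_le_sum fun p _ => ?_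
          rw [mul_assoc, ← mul_sub, norm_mul]
          have := (hk p).2
          gcongr
      _ = B4 b * η1 * ((B - A) * Real.log T) := by
          rw [← Finset.sum_mul]
          unfold B4
          ring
      _ ≤ _ := by gcongr

end

end Pool.Agent.H493.BS
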