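import Pool.Agent.H493.BS.Core
import Pool.Graph.R_seed8.H228R2.SIPair

/-! The plain pair sum is real and nonnegative; real trigonometric polynomials. -/

set_option autoImplicit false

open Complex Filter Topology Set MeasureTheory
open scoped BigOperators ComplexConjugate

namespace Pool.Agent.H493.BS

open H370 H370.A2 TH803TW H295SI H143TG

section

variable {F : ℂ → ℂ} (hF : GoodL F)

lemma JT_zero (A B u : ℝ) : JT F A B u 0 = (JJ F A B u : ℂ) := by
  unfold JT JJ
  rw [← integral_complex_ofReal]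
  refine integral_congr_ae (Eventually.of_forall fun t => ?_)
  simp

include hF in
lemma PW2_zero {g R : ℝ → ℝ} (hR : Conv R) (hK : KSq g R) {A B Λ : ℝ} (hA : 1 ≤ A) (hΛ : 0 < Λ) :
    PW2 g F Λ A B 0 0 = (QQG g F Λ A B : ℂ) := by
  have hRc := H228SI.R_cont hR
  have h1 : PW2 g F Λ A B 0 0 = ∑ s ∈ Zf F A B, ∑ s' ∈ Zf F A B,
      (mult F s : ℂ) * (mult F s' : ℂ) * (phiG g Λ (zz s - zz s')) ^ 2 := by
    unfold PW2
    refine Finset.sum_congr rfl fun s _ => Finset.sum_congr rfl fun s' _ => ?_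
    simp
  have h2 : (PW2 g F Λ A B 0 0).re = QQG g F Λ A B := by
    rw [h1, H228SI.QQG_eq hF hA]
  have h3 : (PW2 g F Λ A B 0 0).im = 0 := by
    have e2 : ((0 : ℝ) - 0) / 2 = 0 := by norm_num
    have e4 : (0 : ℝ) + 0 = 0 := by norm_num
    have h4 := PW2_QTp hR hRc hK F hΛ A B 0 0 (Λ' := Λ) (by rw [e2, abs_zero]; linarith)
    rw [e2, e4] at h4
    rw [h4, QTp_JT hF hA (psh_cont hRc Λ Λ 0)]
    simp_rw [JT_zero]
    have h5 : ∀ α : ℝ, (psh R Λ Λ 0 α : ℂ) * (JJ F A B (Λ * α) : ℂ) =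
        ((psh R Λ Λ 0 α * JJ F A B (Λ * α) : ℝ) : ℂ) := by
      intro α
      push_cast
      ring
    simp_rw [h5]
    rw [intervalIntegral.integral_ofReal]
    have h6 : cexp (((0 : ℝ) : ℂ) ^ 2 / 4) / (Real.sqrt Real.pi : ℂ) =
        ((1 / Real.sqrt Real.pi : ℝ) : ℂ) := by
      push_cast
      simp
    rw [h6, ← Complex.ofReal_mul, Complex.ofReal_im]
  apply Complex.ext
  · rw [h2, Complex.ofReal_re]
  · rw [h3, Complex.ofReal_im]

include hF in
lemma QQG_nonneg {g R : ℝ → ℝ} (hg : Win g) (hR : Conv R) (hK : KSq g R) {A B Λ : ℝ} (hA : 1 ≤ A) :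
    0 ≤ QQG g F Λ A B := by
  rw [H228SI.qqJJ g R hg hR hK F hF A B hA Λ]
  apply mul_nonneg (by positivity)
  apply intervalIntegral.integral_nonneg (by norm_num)
  intro u _
  apply mul_nonneg (hR.nonneg u)
  unfold JJ
  exact integral_nonneg fun t => by positivity

end

/-- real trigonometric polynomials as sums over `Fin n`, real on the real line -/
lemma GG_exists (S : Finset ℝ) (c : ℝ → ℂ) : ∃ (n : ℕ) (b : Fin n → ℂ) (τ : Fin n → ℝ),
    (∀ t : ℝ, GG b τ t = (tp S c t : ℂ)) ∧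
    ∀ z, (starRingEnd ℂ) (GG b τ z) = GG b τ ((starRingEnd ℂ) z) := by
  classical
  set e := Fintype.equivFin (S ⊕ S) with he
  set b : Fin (Fintype.card (S ⊕ S)) → ℂ := fun i =>
    Sum.elim (fun x : S => c x / 2) (fun x : S => (starRingEnd ℂ) (c x) / 2) (e.symm i) with hb
  set τ : Fin (Fintype.card (S ⊕ S)) → ℝ := fun i =>
    Sum.elim (fun x : S => (x : ℝ)) (fun x : S => -(x : ℝ)) (e.symm i) with hτ
  have key : ∀ z : ℂ, GG b τ z = ∑ x ∈ S, (c x / 2 * cexp (I * x * z)) +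
      ∑ x ∈ S, ((starRingEnd ℂ) (c x) / 2 * cexp (I * ((-x : ℝ) : ℂ) * z)) := by
    intro z
    unfold GG
    rw [← Equiv.sum_comp e, Fintype.sum_sum_type]
    simp only [hb, hτ, Equiv.symm_apply_apply, Sum.elim_inl, Sum.elim_inr]
    rw [Finset.sum_coe_sort S (fun x : ℝ => c x / 2 * cexp (I * x * z)),
      Finset.sum_coe_sort S (fun x : ℝ => (starRingEnd ℂ) (c x) / 2 * cexp (I * ((-x : ℝ) : ℂ) * z))]
  refine ⟨_, b, τ, fun t => ?_, fun z => ?_⟩
  · rw [key, tp, Complex.re_eq_add_conj, map_sum, ← Finset.sum_add_distrib,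
      ← Finset.sum_add_distrib, Finset.sum_div]
    refine Finset.sum_congr rfl fun x _ => ?_
    rw [map_mul, ← Complex.exp_conj, map_mul, map_mul, Complex.conj_I, Complex.conj_ofReal,
      Complex.conj_ofReal]
    have e1 : I * ((-x : ℝ) : ℂ) * t = -I * x * t := by push_cast; ring
    rw [e1]
    ring
  · rw [key, key, map_add, map_sum, map_sum, add_comm]
    congr 1
    · refine Finset.sum_congr rfl fun x _ => ?_
      rw [map_mul, ← Complex.exp_conj, map_mul, map_mul, Complex.conj_I, Complex.conj_ofReal,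
        map_div₀, Complex.conj_conj]
      have e1 : -I * ((-x : ℝ) : ℂ) * (starRingEnd ℂ) z = I * x * (starRingEnd ℂ) z := by
        push_cast; ring
      rw [e1, map_ofNat]
    · refine Finset.sum_congr rfl fun x _ => ?_
      rw [map_mul, ← Complex.exp_conj, map_mul, map_mul, Complex.conj_I, Complex.conj_ofReal,
        map_div₀]
      have e1 : I * ((-x : ℝ) : ℂ) * (starRingEnd ℂ) z = -I * x * (starRingEnd ℂ) z := by
        push_cast; ring
      rw [e1, map_ofNat]

end Pool.Agent.H493.BS
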