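import Pool.Agent.H493.BS.Layer
import Pool.Graph.R_seed8.TH803.TW.Torus

/-! The mean in all intervals; closed sets of the torus; the exponential sum over simple zeros. -/

set_option autoImplicit false

open Complex Filter Topology Set MeasureTheory
open scoped BigOperators ComplexConjugate

namespace Pool.Agent.H493.BS

open H370 H370.A2 H370.AS TH803TW H295SI H143TG

/-- the mean over all zeros, all intervals -/
theorem mean_full {φ : ℝ → ℝ} {M : ℝ} (hφ : APm φ M) {κ ε : ℝ} (hκ : 0 < κ) (hε : 0 < ε) :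
    ∃ T0 : ℝ, 10 ≤ T0 ∧ ∀ T : ℝ, T0 ≤ T → ∀ H : ℝ, κ * T ≤ H → H ≤ T →
      |Sm riemannZeta T (T + H) (fun s => φ s.im) - M * NN riemannZeta T (T + H)| ≤
        ε * NN riemannZeta T (T + H) := by
  classical
  have hF : GoodL riemannZeta := good_zeta
  obtain ⟨T0, hT0, h⟩ := mean hφ (κ := κ / 3) (by positivity) hε
  refine ⟨T0, hT0, fun T hT H hH1 hH2 => ?_⟩
  have hT10 : 10 ≤ T := hT0.trans hT
  have hTp : 0 < T := by linarith
  have hκT : 0 < κ * T := by positivity
  have hHp : 0 < H := by linarith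
  have a1 := h T hT (H / 2) (by linarith) (by linarith)
  have b1 := h (T + H / 2) (by linarith) (H / 2) (by
    have : κ * H ≤ κ * T := by gcongr
    linarith) (by linarith)
  have e : T + H / 2 + H / 2 = T + H := by ring
  rw [e] at b1
  have hA : 1 ≤ T := by linarith
  have hAB : T ≤ T + H / 2 := by linarith
  have hBC : T + H / 2 ≤ T + H := by linarith
  have c1 : (NN riemannZeta T (T + H) : ℝ) = NN riemannZeta T (T + H / 2) +
      NN riemannZeta (T + H / 2) (T + H) := by
    rw [NN_eq hF hA, NN_eq hF hA, NN_eq hF (hA.trans hAB), Zf_split hF hA hAB hBC]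
    push_cast
    rfl
  have c2 : Sm riemannZeta T (T + H) (fun s => φ s.im) =
      Sm riemannZeta T (T + H / 2) (fun s => φ s.im) +
      Sm riemannZeta (T + H / 2) (T + H) (fun s => φ s.im) := by
    unfold Sm
    rw [Zf_split hF hA hAB hBC]
  rw [c1, c2]
  rw [abs_le] at a1 b1 ⊢
  constructor <;> linarith [a1.1, a1.2, b1.1, b1.2]

/-- simple zeros: an upper bound from the mean -/
theorem W1_upper {φ : ℝ → ℝ} {M : ℝ} (hφ : APm φ M) (hφ0 : ∀ t, 0 ≤ φ t) {κ ε : ℝ} (hκ : 0 < κ)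
    (hε : 0 < ε) :
    ∃ T0 : ℝ, 10 ≤ T0 ∧ ∀ T : ℝ, T0 ≤ T → ∀ H : ℝ, κ * T ≤ H → H ≤ T →
      W1 riemannZeta T (T + H) φ ≤ (M + ε) * NN riemannZeta T (T + H) := by
  classical
  obtain ⟨T0, hT0, h⟩ := mean_full hφ hκ hε
  refine ⟨T0, hT0, fun T hT H hH1 hH2 => ?_⟩
  have h1 := (abs_le.1 (h T hT H hH1 hH2)).2
  have h2 : W1 riemannZeta T (T + H) φ ≤ Sm riemannZeta T (T + H) (fun s => φ s.im) := by
    unfold W1 Sm
    rw [Finset.sum_filter]
    refine Finset.sum_le_sum fun s hs => ?_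
    have h3 := (mem_Zf good_zeta (by linarith : (1 : ℝ) ≤ T)).mp hs
    have h4 : (1 : ℝ) ≤ mult riemannZeta s := by
      exact_mod_cast Loc.mult_pos' good_zeta (by linarith [h3.2.2.1]) h3.2.2.2.2
    split_ifs
    · have := hφ0 s.im
      nlinarith
    · have := hφ0 s.im
      positivity
  linarith

/-- the positive and negative parts -/
theorem W1_signed {φ φp φm : ℝ → ℝ} {P Q : ℝ} (hp : APm φp P) (hm : APm φm Q)
    (hp0 : ∀ t, 0 ≤ φp t) (hm0 : ∀ t, 0 ≤ φm t) (hφ : ∀ t, φ t = φp t - φm t) {κ ε : ℝ}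
    (hκ : 0 < κ) (hε : 0 < ε) :
    ∃ T0 : ℝ, 10 ≤ T0 ∧ ∀ T : ℝ, T0 ≤ T → ∀ H : ℝ, κ * T ≤ H → H ≤ T →
      W1 riemannZeta T (T + H) φ ≤ (P - (2 - cc 1) * Q + ε) * NN riemannZeta T (T + H) := by
  obtain ⟨T1, hT1, h1⟩ := W1_upper hp hp0 hκ (ε := ε / 2) (by positivity)
  obtain ⟨T2, hT2, h2⟩ := weights hm hm0 hκ (ε := ε / 2) (by positivity)
  refine ⟨max T1 T2, hT1.trans (le_max_left _ _), fun T hT H hH1 hH2 => ?_⟩
  have a1 := h1 T ((le_max_left _ _).trans hT) H hH1 hH2
  have a2 := (h2 T ((le_max_right _ _).trans hT) H hH1 hH2).1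
  have e : W1 riemannZeta T (T + H) φ = W1 riemannZeta T (T + H) φp -
      W1 riemannZeta T (T + H) φm := by
    unfold W1
    rw [← Finset.sum_sub_distrib]
    exact Finset.sum_congr rfl fun s _ => hφ _
  rw [e]
  linarith

/-! ### the mean of the positive part of the cosine -/

lemma int_cos_pos : ∫ x in (-1 / 2 : ℝ)..(1 / 2), max (Real.cos (2 * Real.pi * x)) 0 = 1 / Real.pi := by
  have hpi := Real.pi_pos
  have hc : Continuous fun x : ℝ => max (Real.cos (2 * Real.pi * x)) 0 := by fun_prop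
  have hsplit : ∫ x in (-1 / 2 : ℝ)..(1 / 2), max (Real.cos (2 * Real.pi * x)) 0 =
      (∫ x in (-1 / 2 : ℝ)..(-1 / 4), max (Real.cos (2 * Real.pi * x)) 0) +
      (∫ x in (-1 / 4 : ℝ)..(1 / 4), max (Real.cos (2 * Real.pi * x)) 0) +
      ∫ x in (1 / 4 : ℝ)..(1 / 2), max (Real.cos (2 * Real.pi * x)) 0 := by
    rw [intervalIntegral.integral_add_adjacent_intervals (hc.intervalIntegrable _ _)
      (hc.intervalIntegrable _ _), intervalIntegral.integral_add_adjacent_intervals
      (hc.intervalIntegrable _ _) (hc.intervalIntegrable _ _)]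
  have h1 : ∫ x in (-1 / 2 : ℝ)..(-1 / 4), max (Real.cos (2 * Real.pi * x)) 0 = 0 := by
    have hz : ∫ x in (-1 / 2 : ℝ)..(-1 / 4), max (Real.cos (2 * Real.pi * x)) 0 = ∫ x in (-1 / 2 : ℝ)..(-1 / 4), (0 : ℝ) := ?_
    · rw [hz]; simp
    refine intervalIntegral.integral_congr fun x hx => ?_
    rw [Set.uIcc_of_le (by norm_num)] at hx
    apply max_eq_right
    rw [← Real.cos_neg]
    apply Real.cos_nonpos_of_pi_div_two_le_of_le
    · nlinarith [hx.2]
    · nlinarith [hx.1]
  have h3 : ∫ x in (1 / 4 : ℝ)..(1 / 2), max (Real.cos (2 * Real.pi * x)) 0 = 0 := by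
    have hz : ∫ x in (1 / 4 : ℝ)..(1 / 2), max (Real.cos (2 * Real.pi * x)) 0 = ∫ x in (1 / 4 : ℝ)..(1 / 2), (0 : ℝ) := ?_
    · rw [hz]; simp
    refine intervalIntegral.integral_congr fun x hx => ?_
    rw [Set.uIcc_of_le (by norm_num)] at hx
    apply max_eq_right
    apply Real.cos_nonpos_of_pi_div_two_le_of_le
    · nlinarith [hx.1]
    · nlinarith [hx.2]
  have h2 : ∫ x in (-1 / 4 : ℝ)..(1 / 4), max (Real.cos (2 * Real.pi * x)) 0 = 1 / Real.pi := by
    have h4 : ∫ x in (-1 / 4 : ℝ)..(1 / 4), max (Real.cos (2 * Real.pi * x)) 0 =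
        ∫ x in (-1 / 4 : ℝ)..(1 / 4), Real.cos (2 * Real.pi * x) := by
      refine intervalIntegral.integral_congr fun x hx => ?_
      rw [Set.uIcc_of_le (by norm_num)] at hx
      apply max_eq_left
      apply Real.cos_nonneg_of_mem_Icc
      constructor
      · nlinarith [hx.1]
      · nlinarith [hx.2]
    rw [h4, intervalIntegral.integral_comp_mul_left (fun x => Real.cos x) (by positivity),
      integral_cos]
    have e1 : 2 * Real.pi * (1 / 4) = Real.pi / 2 := by ring
    have e2 : 2 * Real.pi * (-1 / 4) = -(Real.pi / 2) := by ring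
    rw [e1, e2, Real.sin_neg, Real.sin_pi_div_two, smul_eq_mul]
    field_simp
    norm_num
  rw [hsplit, h1, h2, h3]
  ring

lemma int_cos_shift (θ : ℝ) :
    ∫ x in (0 : ℝ)..1, max (Real.cos (2 * Real.pi * x + θ)) 0 = 1 / Real.pi := by
  have hpi := Real.pi_pos
  set f : ℝ → ℝ := fun x => max (Real.cos (2 * Real.pi * x)) 0 with hf
  have hper : Function.Periodic f 1 := by
    intro x
    simp only [hf]
    rw [show 2 * Real.pi * (x + 1) = 2 * Real.pi * x + 2 * Real.pi by ring, Real.cos_add_two_pi]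
  have h1 : ∀ x : ℝ, max (Real.cos (2 * Real.pi * x + θ)) 0 = f (x + θ / (2 * Real.pi)) := by
    intro x
    simp only [hf]
    congr 2
    field_simp
  simp_rw [h1]
  rw [intervalIntegral.integral_comp_add_right f (θ / (2 * Real.pi))]
  have h2 := hper.intervalIntegral_add_eq (0 + θ / (2 * Real.pi)) (-1 / 2)
  have e1 : 0 + θ / (2 * Real.pi) + 1 = 1 + θ / (2 * Real.pi) := by ring
  rw [e1] at h2
  rw [h2]
  have e2 : (-1 / 2 : ℝ) + 1 = 1 / 2 := by norm_num
  rw [e2]
  exact int_cos_pos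

/-- the positive part of a cosine has mean `1 / π` -/
lemma cos_APm {τ : ℝ} (hτ : τ ≠ 0) (θ : ℝ) :
    APm (fun t => max (Real.cos (τ * t + θ)) 0) (1 / Real.pi) := by
  have hpi := Real.pi_pos
  set α : Fin 1 → ℝ := fun _ => τ / (2 * Real.pi) with hα
  have hind : ∀ n : Fin 1 → ℤ, ∑ j, (n j : ℝ) * α j = 0 → n = 0 := by
    intro n hn
    rw [Fin.sum_univ_one] at hn
    funext j
    have hj : j = 0 := Subsingleton.elim _ _
    rw [hj]
    have h2 : α 0 ≠ 0 := by
      simp only [hα]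
      positivity
    have := (mul_eq_zero.1 hn).resolve_right h2
    exact_mod_cast this
  -- the function on the circle
  have hcirc : Continuous fun x : UnitAddCircle => max ((cexp (I * θ) * fourier 1 x).re) 0 := by
    fun_prop
  set g : UnitAddCircle → ℝ := fun x => max ((cexp (I * θ) * fourier 1 x).re) 0 with hg
  set f : C(UnitAddTorus (Fin 1), ℝ) := ⟨fun x => g (x 0), hcirc.comp (continuous_apply 0)⟩ with hf
  have h1 := APm_torus hind f
  have hgc : ∀ x : ℝ, g (x : UnitAddCircle) = max (Real.cos (2 * Real.pi * x + θ)) 0 := by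
    intro x
    simp only [hg]
    rw [fourier_coe_apply, ← Complex.exp_add]
    have e1 : I * θ + 2 * Real.pi * I * ((1 : ℤ) : ℂ) * x / ((1 : ℝ) : ℂ) =
        ((2 * Real.pi * x + θ : ℝ) : ℂ) * I := by
      push_cast
      ring
    rw [e1, Complex.exp_ofReal_mul_I_re]
  have h2 : (fun t => f (torusPt α t)) = fun t => max (Real.cos (τ * t + θ)) 0 := by
    funext t
    show g (torusPt α t 0) = _
    unfold torusPt
    rw [hgc]
    congr 2
    simp only [hα]
    field_simp
  have h3 : ∫ x, f x ∂(haarT 1) = 1 / Real.pi := by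
    have h4 : ∫ x, f x ∂(haarT 1) = ∫ x, g x ∂(AddCircle.haarAddCircle : Measure UnitAddCircle) := by
      have hmp := measurePreserving_funUnique (AddCircle.haarAddCircle : Measure UnitAddCircle) (Fin 1)
      rw [← hmp.integral_comp' (g := g)]
      rfl
    rw [h4]
    have h5 : (AddCircle.haarAddCircle : Measure UnitAddCircle) = volume := by
      rw [AddCircle.volume_eq_smul_haarAddCircle, ENNReal.ofReal_one, one_smul]
    rw [h5, ← UnitAddCircle.intervalIntegral_preimage 0 g, zero_add]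
    simp_rw [hgc]
    exact int_cos_shift θ
  rw [h2, h3] at h1
  exact h1

end Pool.Agent.H493.BS
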