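import Pool.Agent.H493.BS.Poly
import Pool.Agent.H493.BS.Count
import Pool.Agent.H493.BS.Dens
import Pool.Graph.R_seed8.H143R2.TraceG

/-! The weighted trace inequality at the zeros. -/

set_option autoImplicit false

open Complex Filter Topology Set MeasureTheory
open scoped BigOperators ComplexConjugate

namespace Pool.Agent.H493.BS

open H370 H370.A2 TH803TW H295SI H143TG

lemma kap_norm {g : ℝ → ℝ} (hg : Win g) {Λ : ℝ} (hΛ : 0 ≤ Λ) (y : ℝ) :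
    ‖kapG g (Λ * (2 * I * y))‖ ≤ Real.exp (Λ * |y|) := by
  unfold kapG
  have h1 : ∀ x : ℝ, cexp (I * (Λ * (2 * I * y)) * x) = ((Real.exp (-(2 * Λ * y * x)) : ℝ) : ℂ) := by
    intro x
    rw [Complex.ofReal_exp]
    congr 1
    push_cast
    have hI : I * I = -1 := I_mul_I
    linear_combination (2 * (Λ : ℂ) * y * x) * hI
  have h2 : ‖∫ x in (-1 / 2 : ℝ)..(1 / 2), (g x : ℂ) * cexp (I * (Λ * (2 * I * y)) * x)‖ ≤
      ∫ x in (-1 / 2 : ℝ)..(1 / 2), g x * Real.exp (Λ * |y|) := by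
    refine (intervalIntegral.norm_integral_le_integral_norm (by norm_num)).trans ?_
    refine intervalIntegral.integral_mono_on (by norm_num) ?_ ?_ ?_
    · refine Continuous.intervalIntegrable ?_ _ _
      have := hg.cont
      fun_prop
    · refine Continuous.intervalIntegrable ?_ _ _
      have := hg.cont
      fun_prop
    · intro x hx
      have h0 := hg.nonneg x hx.1 hx.2
      rw [norm_mul, h1, Complex.norm_real, Complex.norm_real, Real.norm_of_nonneg h0,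
        Real.norm_of_nonneg (Real.exp_pos _).le]
      apply mul_le_mul_of_nonneg_left _ h0
      apply Real.exp_le_exp.2
      have h3 : |x| ≤ 1 / 2 := abs_le.2 ⟨by linarith [hx.1], hx.2⟩
      have h4 : -(2 * Λ * y * x) ≤ |2 * Λ * y * x| := neg_le_abs _
      have h5 : |2 * Λ * y * x| = 2 * Λ * |y| * |x| := by
        rw [abs_mul, abs_mul, abs_mul, abs_of_nonneg hΛ]
        norm_num
      have h6 : 2 * Λ * |y| * |x| ≤ 2 * Λ * |y| * (1 / 2) := by gcongr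
      linarith
  refine h2.trans ?_
  rw [intervalIntegral.integral_mul_const, hg.mass, one_mul]

lemma phi_norm {g : ℝ → ℝ} (hg : Win g) {Λ : ℝ} (hΛ : 0 ≤ Λ) {y : ℝ} (hy : |y| ≤ 1 / 2) :
    ‖phiG g Λ (2 * I * y)‖ ≤ 2 * Real.exp (Λ * |y|) := by
  unfold phiG
  rw [norm_mul]
  have h1 : cexp (-(2 * I * y) ^ 2 / 8) = ((Real.exp (y ^ 2 / 2) : ℝ) : ℂ) := by
    rw [Complex.ofReal_exp]
    congr 1
    push_cast
    have hI : I * I = -1 := I_mul_I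
    linear_combination (-(y : ℂ) ^ 2 / 2) * hI
  have h2 : ‖cexp (-(2 * I * y) ^ 2 / 8)‖ ≤ 2 := by
    rw [h1, Complex.norm_real, Real.norm_of_nonneg (Real.exp_pos _).le]
    have h3 : y ^ 2 / 2 ≤ 1 / 8 := by
      have := sq_le_sq' (by linarith [neg_abs_le (|y|), abs_nonneg y]) hy
      rw [sq_abs] at this
      linarith
    have h4 : Real.exp (y ^ 2 / 2) ≤ Real.exp (1 / 8) := Real.exp_le_exp.2 h3
    have h5 : Real.exp (1 / 8) ≤ 1 / (1 - 1 / 8) := Real.exp_bound_div_one_sub_of_interval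
      (by norm_num) (by norm_num)
    have h6 : (1 : ℝ) / (1 - 1 / 8) ≤ 2 := by norm_num
    linarith
  calc ‖kapG g (Λ * (2 * I * y))‖ * ‖cexp (-(2 * I * y) ^ 2 / 8)‖ ≤ Real.exp (Λ * |y|) * 2 := by
        gcongr
        exact kap_norm hg hΛ y
    _ = _ := by ring

section

variable {n : ℕ} (b : Fin n → ℂ) (τ : Fin n → ℝ)

/-- the weighted kernel -/
noncomputable def PhiB (g : ℝ → ℝ) (Λ : ℝ) (z w : ℂ) : ℂ := GG b τ z * GG b τ w * phiG g Λ (w - z)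

lemma PhiB_symm {g : ℝ → ℝ} (hg : Win g) (Λ : ℝ) (z w : ℂ) :
    PhiB b τ g Λ z w = PhiB b τ g Λ w z := by
  unfold PhiB
  rw [← phiG_even hg Λ (w - z), neg_sub]
  ring

lemma PhiB_diag {g : ℝ → ℝ} (hg : Win g) (Λ : ℝ) (z : ℂ) : PhiB b τ g Λ z z = GG b τ z ^ 2 := by
  unfold PhiB
  rw [sub_self, phiG_zero hg]
  ring

lemma PhiB_conj {g : ℝ → ℝ} (hreal : ∀ z, (starRingEnd ℂ) (GG b τ z) = GG b τ ((starRingEnd ℂ) z))
    (hg : Win g) {Λ : ℝ} (hΛ : 0 ≤ Λ) (z : ℂ) (hz : |z.im| ≤ 1 / 2) :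
    (PhiB b τ g Λ ((starRingEnd ℂ) z) z).re ≤ ‖GG b τ z‖ ^ 2 * (2 * Real.exp (Λ * |z.im|)) := by
  unfold PhiB
  have h1 : z - (starRingEnd ℂ) z = 2 * I * z.im := by
    apply Complex.ext <;> simp
    ring
  rw [h1, ← hreal]
  refine (Complex.re_le_norm _).trans ?_
  rw [norm_mul, norm_mul, Complex.norm_conj, ← sq]
  gcongr
  exact phi_norm hg hΛ hz

/-! ### pointwise bounds -/

variable {G0 : ℝ → ℝ} (h0 : ∀ t, 0 ≤ G0 t) (h1 : ∀ t, G0 t ≤ 1) {δ : ℝ} (hδ0 : 0 ≤ δ)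
  (hδ1 : δ ≤ 1 / 10) (hap : ∀ t : ℝ, ‖GG b τ t - G0 t‖ ≤ δ)

include hap in
lemma G_dist (z : ℂ) (hz : |z.im| ≤ 1 / 2) : ‖GG b τ z - G0 z.re‖ ≤ δ + CG b τ * |z.im| := by
  have e : GG b τ z - G0 z.re = (GG b τ z - GG b τ z.re) + (GG b τ z.re - G0 z.re) := by ring
  rw [e]
  refine (norm_add_le _ _).trans ?_
  have := GG_near b τ z hz
  have := hap z.re
  linarith

include h0 hap in
lemma G_norm (z : ℂ) (hz : |z.im| ≤ 1 / 2) : ‖GG b τ z‖ ≤ G0 z.re + (δ + CG b τ * |z.im|) := by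
  have h2 := G_dist b τ hap z hz
  have e : GG b τ z = (G0 z.re : ℂ) + (GG b τ z - G0 z.re) := by ring
  rw [e]
  refine (norm_add_le _ _).trans ?_
  rw [Complex.norm_real, Real.norm_of_nonneg (h0 _)]
  linarith

include h0 h1 hδ0 hδ1 hap in
lemma G_sq_dist (z : ℂ) (hz : |z.im| ≤ 1 / 2) :
    ‖GG b τ z ^ 2 - (G0 z.re : ℂ) ^ 2‖ ≤ 3 * δ + 4 * CG b τ * |z.im| + CG b τ ^ 2 * |z.im| ^ 2 := by
  have e : GG b τ z ^ 2 - (G0 z.re : ℂ) ^ 2 = (GG b τ z - G0 z.re) *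
      ((GG b τ z - G0 z.re) + 2 * G0 z.re) := by ring
  rw [e, norm_mul]
  have h2 := G_dist b τ hap z hz
  have h3 : ‖(2 * G0 z.re : ℂ)‖ ≤ 2 := by
    rw [norm_mul, Complex.norm_real, Real.norm_of_nonneg (h0 _)]
    have := h1 z.re
    norm_num
    linarith
  have h4 := CG_nonneg b τ
  have h5 := abs_nonneg z.im
  set v := CG b τ * |z.im| with hv
  have hv0 : 0 ≤ v := by positivity
  have h6 : ‖(GG b τ z - G0 z.re) + 2 * G0 z.re‖ ≤ (δ + v) + 2 := (norm_add_le _ _).trans (by linarith)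
  calc ‖GG b τ z - G0 z.re‖ * ‖(GG b τ z - G0 z.re) + 2 * G0 z.re‖ ≤ (δ + v) * ((δ + v) + 2) := by
        gcongr
    _ ≤ 3 * δ + 4 * v + v ^ 2 := by nlinarith
    _ = _ := by rw [hv]; ring

include h0 h1 hδ0 hδ1 hap in
lemma G_four (z : ℂ) (hz : |z.im| ≤ 1 / 2) :
    ‖GG b τ z‖ ^ 4 ≤ G0 z.re ^ 2 + 36 * δ + 4 * (2 * (2 + CG b τ) ^ 3 + 30) * (CG b τ * |z.im|) := by
  have h2 := G_norm b τ h0 hap z hz
  have h3 := CG_nonneg b τ
  have h4 := abs_nonneg z.im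
  set v := CG b τ * |z.im| with hv
  have hv0 : 0 ≤ v := by positivity
  have hvC : v ≤ CG b τ := by
    rw [hv]
    calc CG b τ * |z.im| ≤ CG b τ * 1 := by gcongr; linarith
      _ = _ := mul_one _
  set x := G0 z.re with hx
  have hx0 : 0 ≤ x := h0 _
  have hx1 : x ≤ 1 := h1 _
  have h5 : ‖GG b τ z‖ ^ 4 ≤ (x + (δ + v)) ^ 4 := by gcongr
  refine h5.trans ?_
  set u := δ + v with hu
  have hu0 : 0 ≤ u := by positivity
  have h6 : (x + u) ^ 4 ≤ x ^ 2 + 4 * u * (1 + u) ^ 3 := by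
    have e : (x + u) ^ 4 = x ^ 4 + u * (4 * x ^ 3 + 6 * x ^ 2 * u + 4 * x * u ^ 2 + u ^ 3) := by ring
    have hx2 : x ^ 2 ≤ 1 := by nlinarith
    have hx3 : x ^ 3 ≤ 1 := pow_le_one₀ hx0 hx1
    have hx4 : x ^ 4 ≤ x ^ 2 := by nlinarith [sq_nonneg x]
    have h7 : 4 * x ^ 3 + 6 * x ^ 2 * u + 4 * x * u ^ 2 + u ^ 3 ≤ 4 * (1 + u) ^ 3 := by
      have a1 : x ^ 2 * u ≤ 1 * u := by gcongr
      have a2 : x * u ^ 2 ≤ 1 * u ^ 2 := by gcongr
      have a3 : 0 ≤ u ^ 2 := by positivity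
      have a4 : 0 ≤ u ^ 3 := by positivity
      nlinarith
    rw [e]
    have := mul_le_mul_of_nonneg_left h7 hu0
    linarith
  refine h6.trans ?_
  have h8 : u * (1 + u) ^ 3 ≤ 9 * δ + (2 * (2 + CG b τ) ^ 3 + 30) * v := by
    -- (1 + u)^3 ≤ (1 + δ + v)^3
    have b1 : (1 + u) ^ 3 ≤ (2 + CG b τ) ^ 3 := by
      apply pow_le_pow_left₀ (by positivity)
      rw [hu]; linarith
    have b2 : v * (1 + u) ^ 3 ≤ v * (2 + CG b τ) ^ 3 := by gcongr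
    have b3 : (1 + u) ^ 3 ≤ 2 + v * ((2 + CG b τ) ^ 3 + 30) := by
      have c1 : (1 + u) ^ 3 = (1 + δ) ^ 3 + v * (3 * (1 + δ) ^ 2 + 3 * (1 + δ) * v + v ^ 2) := by
        rw [hu]; ring
      have c2 : (1 + δ) ^ 3 ≤ 2 := by
        calc (1 + δ) ^ 3 ≤ (1 + 1 / 10) ^ 3 := by gcongr
          _ ≤ 2 := by norm_num
      have c3 : (1 + δ) ≤ 2 := by linarith
      have c4 : 3 * (1 + δ) ^ 2 + 3 * (1 + δ) * v + v ^ 2 ≤ (2 + CG b τ) ^ 3 + 30 := by
        have d1 : (1 + δ) ^ 2 ≤ 4 := by nlinarith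
        have d2 : (1 + δ) * v ≤ 2 * CG b τ := by gcongr
        have d3 : v ^ 2 ≤ CG b τ ^ 2 := by gcongr
        have d4 : 0 ≤ CG b τ ^ 3 := by positivity
        nlinarith [sq_nonneg (CG b τ)]
      have c5 := mul_le_mul_of_nonneg_left c4 hv0
      linarith
    have b4 : δ * (1 + u) ^ 3 ≤ δ * (2 + v * ((2 + CG b τ) ^ 3 + 30)) := by gcongr
    have b5 : δ * (v * ((2 + CG b τ) ^ 3 + 30)) ≤ 1 * (v * ((2 + CG b τ) ^ 3 + 30)) := by
      apply mul_le_mul_of_nonneg_right (by linarith)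
      positivity
    have e : u * (1 + u) ^ 3 = δ * (1 + u) ^ 3 + v * (1 + u) ^ 3 := by rw [hu]; ring
    rw [e]
    nlinarith
  linarith

end

end Pool.Agent.H493.BS
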