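import Pool.Graph.R_seed8.H370R2.Trace

/-! The trace inequality with the vectors `G(z) k(z)`. -/

set_option autoImplicit false

open scoped BigOperators ComplexConjugate

namespace Pool.Agent.H493.BS

open H370

section

variable {E : Type*} [NormedAddCommGroup E] [InnerProductSpace ℂ E]
  (Φ : ℂ → ℂ → ℂ) (k : ℂ → E)
  (hk : ∀ z w, inner ℂ (k z) (k w) = Φ ((starRingEnd ℂ) z) w)
  (hsym : ∀ z w, Φ z w = Φ w z)

/-- the weights -/
noncomputable def cw (m : ℂ → ℕ) (z : ℂ) : ℝ := if z.im = 0 then (m z : ℝ) / 4 else (m z : ℝ) / 2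

lemma cw_nonneg (m : ℂ → ℕ) (z : ℂ) : 0 ≤ cw m z := by
  unfold cw
  split_ifs <;> positivity

/-- the symmetric vectors -/
noncomputable def xv (k : ℂ → E) (m : ℂ → ℕ) (z : ℂ) : E :=
  ((Real.sqrt (cw m z) : ℝ) : ℂ) • (k z + k ((starRingEnd ℂ) z))

/-- the antisymmetric vectors -/
noncomputable def bv (k : ℂ → E) (m : ℂ → ℕ) (z : ℂ) : E :=
  ((Real.sqrt (cw m z) : ℝ) : ℂ) • (k z - k ((starRingEnd ℂ) z))

include hk in
lemma cj (z w : ℂ) (hsym : ∀ z w, Φ z w = Φ w z) :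
    (starRingEnd ℂ) (Φ z w) = Φ ((starRingEnd ℂ) z) ((starRingEnd ℂ) w) := by
  have h1 := hk ((starRingEnd ℂ) z) w
  have h2 := hk w ((starRingEnd ℂ) z)
  rw [Complex.conj_conj] at h1
  rw [← h1, inner_conj_symm, h2, hsym]

/-- the sums over all points as sums over the closed upper half plane -/
lemma split_sum (Z : Finset ℂ) (hZ : ∀ z ∈ Z, (starRingEnd ℂ) z ∈ Z) (m : ℂ → ℕ)
    (hmc : ∀ z ∈ Z, m ((starRingEnd ℂ) z) = m z) {M : Type*} [AddCommGroup M] [Module ℂ M]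
    (G : ℂ → M) :
    ∑ z ∈ Z, (m z : ℂ) • G z = ∑ z ∈ Z.filter (fun z => 0 ≤ z.im),
      (2 * cw m z : ℂ) • (G z + G ((starRingEnd ℂ) z)) := by
  classical
  have h1 : ∑ z ∈ Z, (m z : ℂ) • G z = ∑ z ∈ Z.filter (fun z => z.im = 0), (m z : ℂ) • G z +
      ∑ z ∈ Z.filter (fun z => 0 < z.im), (m z : ℂ) • G z +
      ∑ z ∈ Z.filter (fun z => z.im < 0), (m z : ℂ) • G z := by
    rw [← Finset.sum_filter_add_sum_filter_not Z (fun z => z.im = 0), add_assoc]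
    congr 1
    rw [← Finset.sum_filter_add_sum_filter_not (Z.filter (fun z => ¬ z.im = 0))
      (fun z => 0 < z.im), Finset.filter_filter, Finset.filter_filter]
    congr 1
    · refine Finset.sum_congr ?_ fun _ _ => rfl
      ext z
      simp only [Finset.mem_filter]
      constructor
      · rintro ⟨h1, h2, h3⟩; exact ⟨h1, h3⟩
      · rintro ⟨h1, h3⟩; exact ⟨h1, ne_of_gt h3, h3⟩
    · refine Finset.sum_congr ?_ fun _ _ => rfl
      ext z
      simp only [Finset.mem_filter, not_lt]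
      constructor
      · rintro ⟨h1, h2, h3⟩; exact ⟨h1, lt_of_le_of_ne h3 h2⟩
      · rintro ⟨h1, h3⟩; exact ⟨h1, ne_of_lt h3, h3.le⟩
  have h2 : ∑ z ∈ Z.filter (fun z => z.im < 0), (m z : ℂ) • G z =
      ∑ z ∈ Z.filter (fun z => 0 < z.im), (m z : ℂ) • G ((starRingEnd ℂ) z) := by
    refine Finset.sum_nbij' (fun z => (starRingEnd ℂ) z) (fun z => (starRingEnd ℂ) z) ?_ ?_ ?_ ?_ ?_
    · intro z hz
      simp only [Finset.mem_filter] at hz ⊢
      refine ⟨hZ z hz.1, ?_⟩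
      rw [Complex.conj_im]; linarith [hz.2]
    · intro z hz
      simp only [Finset.mem_filter] at hz ⊢
      refine ⟨hZ z hz.1, ?_⟩
      rw [Complex.conj_im]; linarith [hz.2]
    · intro z _; simp
    · intro z _; simp
    · intro z hz
      simp only [Finset.mem_filter] at hz
      rw [hmc z hz.1, Complex.conj_conj]
  have h3 : ∑ z ∈ Z.filter (fun z => 0 ≤ z.im), (2 * cw m z : ℂ) • (G z + G ((starRingEnd ℂ) z)) =
      ∑ z ∈ Z.filter (fun z => z.im = 0), (2 * cw m z : ℂ) • (G z + G ((starRingEnd ℂ) z)) +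
      ∑ z ∈ Z.filter (fun z => 0 < z.im), (2 * cw m z : ℂ) • (G z + G ((starRingEnd ℂ) z)) := by
    rw [← Finset.sum_filter_add_sum_filter_not (Z.filter (fun z => 0 ≤ z.im))
      (fun z => z.im = 0), Finset.filter_filter, Finset.filter_filter]
    congr 1
    · refine Finset.sum_congr ?_ fun _ _ => rfl
      ext z
      simp only [Finset.mem_filter]
      constructor
      · rintro ⟨h1, h2, h3⟩; exact ⟨h1, h3⟩
      · rintro ⟨h1, h3⟩; exact ⟨h1, h3.ge, h3⟩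
    · refine Finset.sum_congr ?_ fun _ _ => rfl
      ext z
      simp only [Finset.mem_filter]
      constructor
      · rintro ⟨h1, h2, h3⟩; exact ⟨h1, lt_of_le_of_ne h2 (Ne.symm h3)⟩
      · rintro ⟨h1, h3⟩; exact ⟨h1, h3.le, ne_of_gt h3⟩
  rw [h1, h2, h3, add_assoc, ← Finset.sum_add_distrib]
  congr 1
  · refine Finset.sum_congr rfl fun z hz => ?_
    simp only [Finset.mem_filter] at hz
    have hzc : (starRingEnd ℂ) z = z := Complex.conj_eq_iff_im.mpr hz.2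
    rw [hzc]
    simp only [cw, if_pos hz.2]
    rw [← two_smul ℂ (G z), smul_smul]
    congr 1
    push_cast
    ring
  · refine Finset.sum_congr rfl fun z hz => ?_
    simp only [Finset.mem_filter] at hz
    simp only [cw, if_neg (ne_of_gt hz.2)]
    rw [← smul_add]
    congr 1
    push_cast
    ring

/-- `‖⟨u, v⟩‖²` -/
lemma nsq (u v : E) : ((‖inner ℂ u v‖ ^ 2 : ℝ) : ℂ) = inner ℂ u v * inner ℂ v u := by
  rw [← inner_conj_symm v u, Complex.mul_conj, Complex.normSq_eq_norm_sq]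

include hk in
/-- the four products of a pair of points -/
lemma pair_id (m : ℂ → ℕ) (hsym : ∀ z w, Φ z w = Φ w z) (z w : ℂ) :
    ((‖inner ℂ (xv k m z) (xv k m w)‖ ^ 2 - ‖inner ℂ (xv k m z) (bv k m w)‖ ^ 2 -
      ‖inner ℂ (bv k m z) (xv k m w)‖ ^ 2 + ‖inner ℂ (bv k m z) (bv k m w)‖ ^ 2 : ℝ) : ℂ) =
    (2 * cw m z) * (2 * cw m w) * (Φ z w ^ 2 + Φ z ((starRingEnd ℂ) w) ^ 2 +
      Φ ((starRingEnd ℂ) z) w ^ 2 + Φ ((starRingEnd ℂ) z) ((starRingEnd ℂ) w) ^ 2) := by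
  have h1 : (Real.sqrt (cw m z) : ℂ) * (Real.sqrt (cw m z) : ℂ) = (cw m z : ℂ) := by
    rw [← Complex.ofReal_mul, Real.mul_self_sqrt (cw_nonneg m z)]
  have h2 : (Real.sqrt (cw m w) : ℂ) * (Real.sqrt (cw m w) : ℂ) = (cw m w : ℂ) := by
    rw [← Complex.ofReal_mul, Real.mul_self_sqrt (cw_nonneg m w)]
  rw [Complex.ofReal_add, Complex.ofReal_sub, Complex.ofReal_sub, nsq, nsq, nsq, nsq]
  simp only [xv, bv, inner_smul_left, inner_smul_right, inner_add_left, inner_add_right,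
    inner_sub_left, inner_sub_right, hk, Complex.conj_ofReal, Complex.conj_conj]
  rw [hsym w z, hsym w ((starRingEnd ℂ) z), hsym ((starRingEnd ℂ) w) z,
    hsym ((starRingEnd ℂ) w) ((starRingEnd ℂ) z)]
  set a := Φ z w
  set b := Φ z ((starRingEnd ℂ) w)
  set c := Φ ((starRingEnd ℂ) z) w
  set d := Φ ((starRingEnd ℂ) z) ((starRingEnd ℂ) w)
  set r := (Real.sqrt (cw m z) : ℂ)
  set r' := (Real.sqrt (cw m w) : ℂ)
  rw [← h1, ← h2]
  ring

include hk in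
/-- the trace of the square -/
lemma trace_id (hsym : ∀ z w, Φ z w = Φ w z)
    (Z : Finset ℂ) (hZ : ∀ z ∈ Z, (starRingEnd ℂ) z ∈ Z) (m : ℂ → ℕ)
    (hmc : ∀ z ∈ Z, m ((starRingEnd ℂ) z) = m z) :
    (∑ z ∈ Z, ∑ w ∈ Z, (m z : ℂ) * (m w : ℂ) * (Φ z w) ^ 2) =
    ((∑ z ∈ Z.filter (fun z => 0 ≤ z.im), ∑ w ∈ Z.filter (fun z => 0 ≤ z.im),
        ‖inner ℂ (xv k m z) (xv k m w)‖ ^ 2
      - 2 * ∑ z ∈ Z.filter (fun z => 0 ≤ z.im), ∑ w ∈ Z.filter (fun z => 0 ≤ z.im),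
        ‖inner ℂ (xv k m z) (bv k m w)‖ ^ 2
      + ∑ z ∈ Z.filter (fun z => 0 ≤ z.im), ∑ w ∈ Z.filter (fun z => 0 ≤ z.im),
        ‖inner ℂ (bv k m z) (bv k m w)‖ ^ 2 : ℝ) : ℂ) := by
  classical
  set P := Z.filter (fun z => 0 ≤ z.im) with hP
  have h1 : 2 * ∑ z ∈ P, ∑ w ∈ P, ‖inner ℂ (xv k m z) (bv k m w)‖ ^ 2 =
      ∑ z ∈ P, ∑ w ∈ P, ‖inner ℂ (xv k m z) (bv k m w)‖ ^ 2 +
      ∑ z ∈ P, ∑ w ∈ P, ‖inner ℂ (bv k m z) (xv k m w)‖ ^ 2 := by
    rw [two_mul]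
    congr 1
    rw [Finset.sum_comm]
    refine Finset.sum_congr rfl fun w _ => Finset.sum_congr rfl fun z _ => ?_
    rw [norm_inner_symm]
  rw [h1]
  have h2 : (∑ z ∈ P, ∑ w ∈ P, ‖inner ℂ (xv k m z) (xv k m w)‖ ^ 2 -
      (∑ z ∈ P, ∑ w ∈ P, ‖inner ℂ (xv k m z) (bv k m w)‖ ^ 2 +
        ∑ z ∈ P, ∑ w ∈ P, ‖inner ℂ (bv k m z) (xv k m w)‖ ^ 2) +
      ∑ z ∈ P, ∑ w ∈ P, ‖inner ℂ (bv k m z) (bv k m w)‖ ^ 2) =
      ∑ z ∈ P, ∑ w ∈ P, (‖inner ℂ (xv k m z) (xv k m w)‖ ^ 2 -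
        ‖inner ℂ (xv k m z) (bv k m w)‖ ^ 2 - ‖inner ℂ (bv k m z) (xv k m w)‖ ^ 2 +
        ‖inner ℂ (bv k m z) (bv k m w)‖ ^ 2) := by
    simp only [Finset.sum_add_distrib, Finset.sum_sub_distrib]
    ring
  rw [h2, Complex.ofReal_sum]
  have h3 : ∑ z ∈ Z, ∑ w ∈ Z, (m z : ℂ) * (m w : ℂ) * (Φ z w) ^ 2 =
      ∑ z ∈ Z, (m z : ℂ) • ∑ w ∈ Z, (m w : ℂ) • (Φ z w) ^ 2 := by
    refine Finset.sum_congr rfl fun z _ => ?_
    rw [Finset.smul_sum]
    refine Finset.sum_congr rfl fun w _ => ?_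
    simp only [smul_eq_mul]
    ring
  rw [h3, split_sum Z hZ m hmc]
  refine Finset.sum_congr rfl fun z _ => ?_
  rw [split_sum Z hZ m hmc, split_sum Z hZ m hmc, ← Finset.sum_add_distrib, Finset.smul_sum,
    Complex.ofReal_sum]
  refine Finset.sum_congr rfl fun w _ => ?_
  rw [pair_id Φ k hk m hsym]
  simp only [smul_eq_mul]
  ring

include hk in
/-- **the weighted trace inequality** -/
theorem trace_w (hsym : ∀ z w, Φ z w = Φ w z)
    (Z : Finset ℂ) (hZ : ∀ z ∈ Z, (starRingEnd ℂ) z ∈ Z) (m : ℂ → ℕ)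
    (hmc : ∀ z ∈ Z, m ((starRingEnd ℂ) z) = m z) (d : ℂ → ℝ) (hd : ∀ z, d z ≤ 2) :
    ∑ z ∈ Z.filter (fun z => 0 ≤ z.im),
      (2 * d z * ‖xv k m z‖ ^ 2 - d z ^ 2 - 4 * ‖bv k m z‖ ^ 2) ≤
    (∑ z ∈ Z, ∑ w ∈ Z, (m z : ℂ) * (m w : ℂ) * (Φ z w) ^ 2).re := by
  classical
  rw [trace_id Φ k hk hsym Z hZ m hmc, Complex.ofReal_re]
  set P := Z.filter (fun z => 0 ≤ z.im) with hP
  have h1 := la_core_finset P (xv k m) (bv k m) (fun z w => if z = w then d z else 0) (by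
    intro v
    rw [Finset.mul_sum]
    refine Finset.sum_le_sum fun i hi => ?_
    have h2 : ∑ j ∈ P, (if i = j then d i else 0) * ((starRingEnd ℂ (v i)) * v j).re =
        d i * ‖v i‖ ^ 2 := by
      rw [Finset.sum_eq_single_of_mem i hi]
      · rw [if_pos rfl, mul_comm ((starRingEnd ℂ) (v i)), Complex.mul_conj,
          Complex.normSq_eq_norm_sq, Complex.ofReal_re]
      · intro j _ hj
        rw [if_neg (fun h => hj h.symm), zero_mul]
    rw [h2]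
    have := hd i
    gcongr)
  have h2 : ∑ i ∈ P, ∑ j ∈ P, ‖inner ℂ (xv k m i) (xv k m j) -
      (((if i = j then d i else 0 : ℝ)) : ℂ)‖ ^ 2 =
      ∑ i ∈ P, ∑ j ∈ P, ‖inner ℂ (xv k m i) (xv k m j)‖ ^ 2 +
      ∑ i ∈ P, (- 2 * d i * ‖xv k m i‖ ^ 2 + d i ^ 2) := by
    rw [← Finset.sum_add_distrib]
    refine Finset.sum_congr rfl fun i hi => ?_
    have h3 : (- 2 * d i * ‖xv k m i‖ ^ 2 + d i ^ 2) =
        ∑ j ∈ P, if i = j then (- 2 * d i * ‖xv k m i‖ ^ 2 + d i ^ 2) else 0 := by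
      rw [Finset.sum_ite_eq, if_pos hi]
    rw [h3, ← Finset.sum_add_distrib]
    refine Finset.sum_congr rfl fun j _ => ?_
    split_ifs with h
    · subst h
      have h4 : inner ℂ (xv k m i) (xv k m i) = ((‖xv k m i‖ ^ 2 : ℝ) : ℂ) := by
        rw [inner_self_eq_norm_sq_to_K]
        push_cast
        rfl
      rw [h4, ← Complex.ofReal_sub, Complex.norm_real, Complex.norm_real, Real.norm_eq_abs,
        Real.norm_eq_abs, sq_abs, sq_abs]
      ring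
    · simp
  rw [h2] at h1
  have h3 : ∑ z ∈ P, (2 * d z * ‖xv k m z‖ ^ 2 - d z ^ 2 - 4 * ‖bv k m z‖ ^ 2) =
      - ∑ i ∈ P, (- 2 * d i * ‖xv k m i‖ ^ 2 + d i ^ 2) - 4 * ∑ l ∈ P, ‖bv k m l‖ ^ 2 := by
    rw [Finset.mul_sum, ← Finset.sum_neg_distrib, ← Finset.sum_sub_distrib]
    refine Finset.sum_congr rfl fun z _ => ?_
    ring
  rw [h3]
  linarith

include hk in
/-- the norms of the two vectors -/
lemma norms (hsym : ∀ z w, Φ z w = Φ w z) (m : ℂ → ℕ) (z : ℂ) :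
    ‖xv k m z‖ ^ 2 = 2 * cw m z * ((Φ ((starRingEnd ℂ) z) z).re + (Φ z z).re) ∧
    ‖bv k m z‖ ^ 2 = 2 * cw m z * ((Φ ((starRingEnd ℂ) z) z).re - (Φ z z).re) := by
  have hc := cj Φ k hk z z hsym
  have hc1 : (Φ ((starRingEnd ℂ) z) ((starRingEnd ℂ) z)).re = (Φ z z).re := by
    rw [← hc, Complex.conj_re]
  have hc2 : (Φ z ((starRingEnd ℂ) z)).re = (Φ ((starRingEnd ℂ) z) z).re := by
    rw [hsym]
  have hn : ∀ u : E, ‖u‖ ^ 2 = (inner ℂ u u).re := by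
    intro u
    rw [inner_self_eq_norm_sq_to_K]
    norm_cast
  have h1 : Real.sqrt (cw m z) * Real.sqrt (cw m z) = cw m z := Real.mul_self_sqrt (cw_nonneg m z)
  constructor
  · rw [hn]
    simp only [xv, inner_smul_left, inner_smul_right, inner_add_left, inner_add_right,
      hk, Complex.conj_ofReal, Complex.conj_conj]
    have e : ∀ r A B : ℂ, r * (r * A + r * B) = (r * r) * (A + B) := fun r A B => by ring
    rw [e, ← Complex.ofReal_mul, h1, Complex.re_ofReal_mul]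
    simp only [Complex.add_re, hc1, hc2]
    ring
  · rw [hn]
    simp only [bv, inner_smul_left, inner_smul_right, inner_sub_left, inner_sub_right,
      hk, Complex.conj_ofReal, Complex.conj_conj]
    have e : ∀ r A B : ℂ, r * (r * A - r * B) = (r * r) * (A - B) := fun r A B => by ring
    rw [e, ← Complex.ofReal_mul, h1, Complex.re_ofReal_mul]
    simp only [Complex.sub_re, hc1, hc2]
    ring

end

end Pool.Agent.H493.BS
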